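import Pool.Agent.H541Z.Seg

set_option autoImplicit false

namespace Pool.Agent.H541Z

/-- block lengths -/
def LL (r : ℕ → ℕ) : ℕ → ℕ
  | 0 => 1
  | k + 1 => r k * LL r k

/-- the level `k` block in column `s` of row `i` of the level `k+2` block number `G` -/
def blk {A : Type} (r : ℕ → ℕ) (x : ℕ → A) (k G i s : ℕ) : List A :=
  sg x (G * LL r (k + 2) + i * LL r (k + 1) + s * LL r k)
    (G * LL r (k + 2) + i * LL r (k + 1) + s * LL r k + LL r k)

/-- good words -/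
structure GW {A : Type} (m : ℕ) (r h : ℕ → ℕ) (K : ℕ) (x : ℕ → A) : Prop where
  sync : ∀ k a b, k ≤ K → LL r k ∣ a → a + LL r k ≤ LL r K → b + LL r k ≤ LL r K →
    sg x a (a + LL r k) = sg x b (b + LL r k) → a ≡ b [MOD LL r (k + 2)]
  test : ∀ k s, k + 2 ≤ K → s < r k → ∃ T : Set (ℕ → List A → Prop),
    (∀ D ∈ T, (∀ i w, D i w → i < h (k + 1)) ∨ (∀ i w, D i w → h (k + 1) ≤ i)) ∧
    (∀ D ∈ T, ∀ G, (G + 1) * LL r (k + 2) ≤ LL r K →
      ∃! i, i < r (k + 1) ∧ D i (blk r x k G i s)) ∧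
    (∀ G, (G + 1) * LL r (k + 2) ≤ LL r K → ∀ y : ℕ → List A,
      (∀ i, i < r (k + 1) → ∃ G', (G' + 1) * LL r (k + 2) ≤ LL r K ∧ y i = blk r x k G' i s) →
      (∀ D ∈ T, ∃! i, i < r (k + 1) ∧ D i (y i)) →
      (∃ E : Finset ℕ, E.card ≤ m ∧ ∀ i, i < r (k + 1) → i ∉ E → y i = blk r x k G i s) →
      ∀ i, i < r (k + 1) → y i = blk r x k G i s)

theorem LL_chain {r : ℕ → ℕ} (hr : ∀ k, 0 < r k) : Chain (LL r) := by
  refine ⟨rfl, fun j => ?_, fun j => Dvd.intro_left _ rfl⟩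
  induction j with
  | zero => exact Nat.one_pos
  | succ j ih => exact Nat.mul_pos (hr j) ih

/-- a good word with cut points -/
structure Ctx (A : Type) where
  m : ℕ
  r : ℕ → ℕ
  h : ℕ → ℕ
  K : ℕ
  x : ℕ → A
  C : Finset ℕ
  hm1 : ∀ k, m < h k
  hm2 : ∀ k, h k + m < r k
  hK : 1 ≤ K
  gw : GW m r h K x
  hC : C.card ≤ m

namespace Ctx
variable {A : Type} (c : Ctx A)

abbrev L (k : ℕ) : ℕ := LL c.r k

theorem r_two (k : ℕ) : 2 ≤ c.r k := by have := c.hm1 k; have := c.hm2 k; omega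

theorem chain : Chain c.L := LL_chain (fun k => by have := c.r_two k; omega)

theorem L_pos (k : ℕ) : 0 < c.L k := c.chain.pos k

theorem L_succ (k : ℕ) : c.L (k + 1) = c.r k * c.L k := rfl

theorem L_dvd {i j : ℕ} (h : i ≤ j) : c.L i ∣ c.L j := c.chain.dvd_of_le h

theorem two_L (k : ℕ) : 2 * c.L k ≤ c.L (k + 1) := Nat.mul_le_mul_right _ (c.r_two k)

theorem sync (k a b : ℕ) (hk : k ≤ c.K) (h1 : c.L k ∣ a) (h2 : a + c.L k ≤ c.L c.K)
    (h3 : b + c.L k ≤ c.L c.K) (h4 : sg c.x a (a + c.L k) = sg c.x b (b + c.L k)) :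
    a ≡ b [MOD c.L (k + 2)] := c.gw.sync k a b hk h1 h2 h3 h4

theorem div_eq_of_le {i j a b : ℕ} (h : i ≤ j) (hab : a / c.L i = b / c.L i) :
    a / c.L j = b / c.L j := by
  obtain ⟨t, ht⟩ := c.L_dvd h
  rw [ht, ← Nat.div_div_eq_div_mul, ← Nat.div_div_eq_div_mul, hab]

theorem node_le {k Q : ℕ} (hk : k ≤ c.K) (hQ : Q < c.L c.K) : (Q / c.L k + 1) * c.L k ≤ c.L c.K := by
  obtain ⟨t, ht⟩ := c.L_dvd hk
  rw [ht] at hQ ⊢
  rw [Nat.mul_comm (c.L k) t]
  apply Nat.mul_le_mul_right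
  exact (Nat.div_lt_iff_lt_mul (c.L_pos k)).2 (by rwa [Nat.mul_comm] at hQ)

/-- the block has an occurrence with a cut point strictly inside -/
def Broken (k p : ℕ) : Prop :=
  ∃ p', (p' + 1) * c.L k ≤ c.L c.K ∧
    sg c.x (p * c.L k) (p * c.L k + c.L k) = sg c.x (p' * c.L k) (p' * c.L k + c.L k) ∧
    ∃ a ∈ c.C, p' * c.L k < a ∧ a < p' * c.L k + c.L k

open Classical in
noncomputable def lev (Q : ℕ) : ℕ := Nat.findGreatest (fun k => ¬ c.Broken k (Q / c.L k)) (c.K - 1)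

noncomputable def len (Q : ℕ) : ℕ := c.L (c.lev Q)

def IsAtom (Q : ℕ) : Prop := Q < c.L c.K ∧ c.len Q ∣ Q

def Bd (Q : ℕ) : Prop := Q = c.L c.K ∨ c.IsAtom Q

def GoodCol (k s : ℕ) : Prop :=
  ∀ p, (p + 1) * c.L k ≤ c.L c.K → p % c.r k = s → ¬ c.Broken k p

theorem not_broken_zero (p : ℕ) : ¬ c.Broken 0 p := by
  rintro ⟨p', -, -, a, -, h1, h2⟩
  have : c.L 0 = 1 := rfl
  rw [this] at h1 h2
  omega

theorem lev_lt (Q : ℕ) : c.lev Q < c.K := by
  classical
  have : c.lev Q ≤ c.K - 1 := Nat.findGreatest_le _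
  have := c.hK
  omega

theorem lev_spec (Q : ℕ) : ¬ c.Broken (c.lev Q) (Q / c.L (c.lev Q)) := by
  classical
  exact Nat.findGreatest_spec (P := fun k => ¬ c.Broken k (Q / c.L k)) (Nat.zero_le _)
    (c.not_broken_zero _)

theorem le_lev {k Q : ℕ} (hk : k < c.K) (h : ¬ c.Broken k (Q / c.L k)) : k ≤ c.lev Q := by
  classical
  exact Nat.le_findGreatest (by omega) h

theorem len_pos (Q : ℕ) : 0 < c.len Q := c.L_pos _

theorem lev_eq_of_div {Q Q' : ℕ} (h : Q' / c.len Q = Q / c.len Q) : c.lev Q' = c.lev Q := by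
  have h1 : c.lev Q ≤ c.lev Q' := c.le_lev (c.lev_lt Q) (by
    have := c.lev_spec Q
    unfold len at h
    rwa [h])
  refine le_antisymm (c.le_lev (c.lev_lt Q') ?_) h1
  rw [← c.div_eq_of_le h1 h]
  exact c.lev_spec Q'

theorem lev_eq_of_mem {Q Q' : ℕ} (hQ : c.IsAtom Q) (h1 : Q ≤ Q') (h2 : Q' < Q + c.len Q) :
    c.lev Q' = c.lev Q := by
  apply c.lev_eq_of_div
  obtain ⟨t, ht⟩ := hQ.2
  have hp := c.len_pos Q
  generalize c.len Q = l at *
  subst ht
  rw [Nat.mul_div_cancel_left _ hp]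
  apply Nat.div_eq_of_lt_le
  · rwa [Nat.mul_comm]
  · rw [Nat.succ_mul, Nat.mul_comm]; exact h2

theorem cut_bd {a : ℕ} (ha : a ∈ c.C) (h : a ≤ c.L c.K) : c.Bd a := by
  rcases h.eq_or_lt with h | h
  · exact Or.inl h
  · refine Or.inr ⟨h, ?_⟩
    by_contra hd
    apply c.lev_spec a
    refine ⟨a / c.L (c.lev a), c.node_le (c.lev_lt a).le h, rfl, a, ha, ?_, ?_⟩
    · refine lt_of_le_of_ne (Nat.div_mul_le_self _ _) (fun he => hd ?_)
      rw [← he]
      unfold len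
      rw [he]
      exact Dvd.intro_left _ he
    · have := Nat.lt_div_mul_add (a := a) (c.L_pos (c.lev a))
      exact this

theorem bd_zero : c.Bd 0 := Or.inr ⟨c.L_pos _, dvd_zero _⟩

theorem atom_le {Q : ℕ} (hQ : c.IsAtom Q) : Q + c.len Q ≤ c.L c.K := by
  have := c.node_le (c.lev_lt Q).le hQ.1
  have h2 : c.L (c.lev Q) ∣ Q := hQ.2
  rw [Nat.succ_mul, Nat.div_mul_cancel h2] at this
  exact this

theorem atom_bd {Q : ℕ} (hQ : c.IsAtom Q) : c.Bd (Q + c.len Q) := by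
  rcases (c.atom_le hQ).eq_or_lt with h | h
  · exact Or.inl h
  · refine Or.inr ⟨h, ?_⟩
    by_contra hd
    have hp := c.len_pos Q
    have h1 : (Q + c.len Q - 1) / c.len (Q + c.len Q) = (Q + c.len Q) / c.len (Q + c.len Q) := by
      obtain ⟨n, hn⟩ : ∃ n, Q + c.len Q = n + 1 := ⟨Q + c.len Q - 1, by omega⟩
      rw [hn] at hd ⊢
      rw [Nat.succ_div, if_neg hd]
      simp
    have h2 := c.lev_eq_of_div h1
    have h3 := c.lev_eq_of_mem hQ (Q' := Q + c.len Q - 1) (by omega) (by omega)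
    apply hd
    have : c.len (Q + c.len Q) = c.len Q := by
      unfold len at h2 h3 ⊢
      rw [← h2, h3]
    rw [this]
    exact (Nat.dvd_add_right hQ.2).2 dvd_rfl

theorem no_bd_inside {Q b : ℕ} (hQ : c.IsAtom Q) (hb : c.Bd b) (h : Q < b) : Q + c.len Q ≤ b := by
  rcases hb with rfl | hb
  · exact c.atom_le hQ
  · by_contra hc
    have h1 := c.lev_eq_of_mem hQ h.le (by omega)
    have h2 : c.len Q ∣ b := by
      have := hb.2
      unfold len at this ⊢
      rwa [h1] at this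
    have h3 : c.len Q ∣ b - Q := Nat.dvd_sub h2 hQ.2
    have := Nat.le_of_dvd (by omega) h3
    omega

/-- tilings of an interval by atoms -/
inductive Tile : ℕ → ℕ → List ℕ → Prop
  | nil (a : ℕ) : Tile a a []
  | cons {a b : ℕ} {W : List ℕ} : c.IsAtom a → Tile (a + c.len a) b W → Tile a b (a :: W)

theorem exists_tile {b : ℕ} (hb : c.Bd b) : ∀ (n a : ℕ), c.Bd a → a ≤ b → b - a ≤ n →
    ∃ W, c.Tile a b W := by
  intro n
  induction n with
  | zero =>
    intro a _ h1 h2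
    obtain rfl : a = b := by omega
    exact ⟨[], Tile.nil _⟩
  | succ n ih =>
    intro a ha h1 h2
    rcases h1.eq_or_lt with rfl | h3
    · exact ⟨[], Tile.nil _⟩
    · have hbK : b ≤ c.L c.K := by
        rcases hb with rfl | hb
        · exact le_rfl
        · exact hb.1.le
      have ha' : c.IsAtom a := by
        rcases ha with rfl | ha
        · omega
        · exact ha
      have hp := c.len_pos a
      obtain ⟨W, hW⟩ := ih _ (c.atom_bd ha') (c.no_bd_inside ha' hb h3) (by omega)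
      exact ⟨_, Tile.cons ha' hW⟩

variable {c}

theorem Tile.atom {a b : ℕ} {W : List ℕ} (h : c.Tile a b W) : ∀ Q ∈ W, c.IsAtom Q := by
  induction h with
  | nil => simp
  | cons h1 _ ih =>
    intro Q hQ
    rcases List.mem_cons.1 hQ with rfl | hQ
    · exact h1
    · exact ih Q hQ

theorem Tile.le {a b : ℕ} {W : List ℕ} (h : c.Tile a b W) : a ≤ b := by
  induction h with
  | nil => exact le_rfl
  | cons h1 _ ih => omega

theorem Tile.flat {γ : Type} {a b : ℕ} {W : List ℕ} (h : c.Tile a b W) (f : ℕ → γ) (n : ℕ → ℕ)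
    (hn : ∀ Q, c.IsAtom Q → n Q < n (Q + c.len Q)) :
    n a ≤ n b ∧ (a < b → n a < n b) ∧
      W.flatMap (fun Q => sg f (n Q) (n (Q + c.len Q))) = sg f (n a) (n b) := by
  induction h with
  | nil => simp [sg_self]
  | cons h1 _ ih =>
    have := hn _ h1
    refine ⟨by omega, fun _ => by omega, ?_⟩
    rw [List.flatMap_cons, ih.2.2, sg_append f this.le ih.1]

variable (c)

theorem good_of_not_mem {k s : ℕ} (hk : k ≤ c.K)
    (hs : s ∉ c.C.image (fun a => a / c.L k % c.r k)) : c.GoodCol k s := by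
  rintro p hp rfl ⟨p', h1, h2, a, ha, h3, h4⟩
  apply hs
  rw [Finset.mem_image]
  refine ⟨a, ha, ?_⟩
  have h5 := c.sync k _ _ hk (Dvd.intro_left _ rfl) (by rwa [Nat.succ_mul] at hp)
    (by rwa [Nat.succ_mul] at h1) h2
  have h6 : p * c.L k ≡ p' * c.L k [MOD c.r k * c.L k] := h5.of_dvd (c.L_dvd (Nat.le_succ (k + 1)))
  have h7 : p ≡ p' [MOD c.r k] := Nat.ModEq.mul_right_cancel' (c.L_pos k).ne' h6
  have h8 : a / c.L k = p' := Nat.div_eq_of_lt_le h3.le (by rwa [Nat.succ_mul])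
  rw [h8]
  exact h7.symm

theorem exists_good_in {k : ℕ} (hk : k ≤ c.K) (a b : ℕ) (hab : a + c.m < b) :
    ∃ s, a ≤ s ∧ s < b ∧ c.GoodCol k s := by
  have h1 : (c.C.image (fun a => a / c.L k % c.r k)).card < (Finset.Ico a b).card := by
    have := Finset.card_image_le (s := c.C) (f := fun a => a / c.L k % c.r k)
    have := c.hC
    rw [Nat.card_Ico]
    omega
  obtain ⟨s, h2, h3⟩ := Finset.exists_mem_notMem_of_card_lt_card h1
  rw [Finset.mem_Ico] at h2
  exact ⟨s, h2.1, h2.2, c.good_of_not_mem hk h3⟩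

theorem sub_block {j α α' n t : ℕ} (hj : j < c.K) (hα : α ∈ c.C) (hβ : α + n ∈ c.C)
    (h1 : α + n ≤ c.L c.K) (h2 : α' + n ≤ c.L c.K) (he : sg c.x α (α + n) = sg c.x α' (α' + n))
    (ht : t < n) (hb : ¬ c.Broken j ((α + t) / c.L j)) :
    ¬ c.Broken j ((α' + t) / c.L j) ∧ α ≡ α' [MOD c.L (j + 2)] ∧ α ≤ (α + t) / c.L j * c.L j ∧
      (α + t) / c.L j * c.L j + c.L j ≤ α + n := by
  have hp := c.L_pos j
  have hr := c.node_le hj.le (Q := α + t) (by omega)
  have e1 := Nat.div_mul_le_self (α + t) (c.L j)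
  have e2 := Nat.lt_div_mul_add (a := α + t) hp
  have h3 : α ≤ (α + t) / c.L j * c.L j := by
    by_contra hc
    exact hb ⟨_, hr, rfl, α, hα, by omega, by omega⟩
  have h4 : (α + t) / c.L j * c.L j + c.L j ≤ α + n := by
    by_contra hc
    exact hb ⟨_, hr, rfl, α + n, hβ, by omega, by omega⟩
  obtain ⟨d, hd⟩ : ∃ d, (α + t) / c.L j * c.L j = α + d := ⟨_, (Nat.add_sub_cancel' h3).symm⟩
  have h5 : sg c.x (α + d) (α + d + c.L j) = sg c.x (α' + d) (α' + d + c.L j) := by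
    rw [sg_add_eq_iff] at he ⊢
    intro u hu
    rw [Nat.add_assoc, Nat.add_assoc]
    exact he _ (by omega)
  have h6 := c.sync j _ _ hj.le (hd ▸ Dvd.intro_left _ rfl) (by omega) (by omega) h5
  have h7 : c.L j ∣ α' + d :=
    ((h6.of_dvd (c.L_dvd (by omega))).dvd_iff dvd_rfl).1 (hd ▸ Dvd.intro_left _ rfl)
  obtain ⟨p, hp'⟩ := h7
  have h8 : (α' + t) / c.L j = p := by
    apply Nat.div_eq_of_lt_le
    · rw [Nat.mul_comm]; omega
    · rw [Nat.succ_mul, Nat.mul_comm]; omega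
  refine ⟨?_, Nat.ModEq.add_right_cancel' d h6, h3, h4⟩
  rintro ⟨p', g1, g2, g3⟩
  apply hb
  refine ⟨p', g1, ?_, g3⟩
  rw [← g2, h8, hd, Nat.mul_comm p, ← hp']
  exact h5

theorem lev_transfer {α α' n t : ℕ} (hα : α ∈ c.C) (hβ : α + n ∈ c.C) (hα' : α' ∈ c.C)
    (hβ' : α' + n ∈ c.C) (h1 : α + n ≤ c.L c.K) (h2 : α' + n ≤ c.L c.K)
    (he : sg c.x α (α + n) = sg c.x α' (α' + n)) (ht : t < n) :
    c.lev (α + t) = c.lev (α' + t) := by
  apply le_antisymm
  · exact c.le_lev (c.lev_lt _) (c.sub_block (c.lev_lt _) hα hβ h1 h2 he ht (c.lev_spec _)).1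
  · exact c.le_lev (c.lev_lt _) (c.sub_block (c.lev_lt _) hα' hβ' h2 h1 he.symm ht (c.lev_spec _)).1

/-- admissible maps of the boundaries into a generalised Zimin word -/
structure Adm (M : ℕ → ℕ) (J : ℕ) (n : ℕ → ℕ) : Prop where
  chain : Chain M
  top : n (c.L c.K) < M J
  mono : ∀ Q, c.IsAtom Q → n Q < n (Q + c.len Q)
  eqv : ∀ Q Q', c.IsAtom Q → c.IsAtom Q' → c.lev Q = c.lev Q' →
    sg c.x Q (Q + c.len Q) = sg c.x Q' (Q' + c.len Q) →
    sg (gz M J) (n Q) (n (Q + c.len Q)) = sg (gz M J) (n Q') (n (Q' + c.len Q))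

theorem sg_transfer {M : ℕ → ℕ} {J : ℕ} {n : ℕ → ℕ} (hA : c.Adm M J n) {α α' l : ℕ} (hα : α ∈ c.C)
    (hβ : α + l ∈ c.C) (hα' : α' ∈ c.C) (hβ' : α' + l ∈ c.C) (h1 : α + l ≤ c.L c.K)
    (h2 : α' + l ≤ c.L c.K) (he : sg c.x α (α + l) = sg c.x α' (α' + l)) :
    sg (gz M J) (n α) (n (α + l)) = sg (gz M J) (n α') (n (α' + l)) := by
  have main : ∀ a b W, c.Tile a b W → ∀ t, a = α + t → b = α + l →
      n (α' + t) ≤ n (α' + l) ∧ sg (gz M J) (n a) (n b) = sg (gz M J) (n (α' + t)) (n (α' + l)) := by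
    intro a b W hW
    induction hW with
    | nil a =>
      intro t h3 h4
      obtain rfl : t = l := by omega
      simp [sg_self]
    | @cons a b W h3 h4 ih =>
      rintro t rfl rfl
      have h5 := h4.le
      have hp := c.len_pos (α + t)
      have ht : t < l := by omega
      have h6 := c.lev_transfer hα hβ hα' hβ' h1 h2 he ht
      have h7 := (c.sub_block (c.lev_lt _) hα hβ h1 h2 he ht (c.lev_spec _)).2.1
      have hlen : c.len (α' + t) = c.len (α + t) := by unfold len; rw [h6]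
      have h8 : c.IsAtom (α' + t) := by
        refine ⟨by omega, ?_⟩
        rw [hlen]
        exact (((h7.add_right t).of_dvd (c.L_dvd (by omega))).dvd_iff dvd_rfl).1 h3.2
      have h9 := hA.eqv _ _ h3 h8 h6 (by
        rw [sg_add_eq_iff] at he ⊢
        intro u hu
        rw [Nat.add_assoc, Nat.add_assoc]
        exact he _ (by omega))
      obtain ⟨h10, h11⟩ := ih (t + c.len (α + t)) (by omega) rfl
      have h12 := hA.mono _ h3
      have h13 := hA.mono _ h8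
      rw [hlen] at h13
      have h14 := (h4.flat (gz M J) n hA.mono).1
      rw [← Nat.add_assoc] at h10 h11
      refine ⟨by omega, ?_⟩
      rw [← sg_append _ h12.le h14, h9, h11, sg_append _ h13.le h10]
  obtain ⟨W, hW⟩ := c.exists_tile (c.cut_bd hβ h1) l α (c.cut_bd hα (by omega)) (by omega) (by omega)
  exact (main _ _ W hW 0 rfl rfl).2

/-- the offset attached to a choice of columns -/
def kap (ρ : ℕ → ℕ) : ℕ → ℕ
  | 0 => 0
  | j + 1 => kap ρ j + (c.r j - 1 - ρ j) * c.L j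

def RhoOK (ρ : ℕ → ℕ) : Prop := ∀ j, ρ j < c.r j ∧ (j < c.K → c.GoodCol j (ρ j))

theorem kap_lt (ρ : ℕ → ℕ) (j : ℕ) : c.kap ρ j < c.L j := by
  induction j with
  | zero => exact c.L_pos 0
  | succ j ih =>
    have h1 : (c.r j - 1 - ρ j) * c.L j ≤ (c.r j - 1) * c.L j := Nat.mul_le_mul_right _ (by omega)
    have h2 : c.L (j + 1) = (c.r j - 1) * c.L j + c.L j := by
      rw [c.L_succ, ← Nat.succ_mul]
      congr 1
      have := c.r_two j
      omega
    simp only [kap]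
    omega

theorem kap_dec (ρ : ℕ → ℕ) {j i : ℕ} (h : j ≤ i) : ∃ t, c.kap ρ i = c.kap ρ j + t * c.L j := by
  induction h with
  | refl => exact ⟨0, by simp⟩
  | @step i hi ih =>
    obtain ⟨t, ht⟩ := ih
    obtain ⟨u, hu⟩ := c.L_dvd hi
    refine ⟨t + (c.r i - 1 - ρ i) * u, ?_⟩
    simp only [kap]
    rw [ht, hu]
    ring

theorem carry {ρ : ℕ → ℕ} (hρ : c.RhoOK ρ) {j : ℕ} (hj : j < c.K) (p : ℕ) :
    Cross (c.L (j + 1)) (p * c.L j + c.kap ρ c.K) (p * c.L j + c.L j + c.kap ρ c.K) ↔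
      p % c.r j = ρ j := by
  obtain ⟨t, ht⟩ := c.kap_dec ρ (j := j + 1) (i := c.K) hj
  have hp := c.L_pos j
  have hk := c.kap_lt ρ j
  have hr := (hρ j).1
  have e1 : (p * c.L j + c.kap ρ c.K) / c.L j = p + (c.r j - 1 - ρ j) + t * c.r j := by
    have : p * c.L j + c.kap ρ c.K = c.kap ρ j + (p + (c.r j - 1 - ρ j) + t * c.r j) * c.L j := by
      rw [ht, c.L_succ]
      simp only [kap]
      ring
    rw [this, Nat.add_mul_div_right _ _ hp, Nat.div_eq_of_lt hk, Nat.zero_add]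
  have e2 : (p * c.L j + c.L j + c.kap ρ c.K) / c.L j = p + (c.r j - 1 - ρ j) + t * c.r j + 1 := by
    rw [← e1, Nat.add_right_comm, Nat.add_div_right _ hp]
  rw [← not_iff_not, not_cross_iff (c.L_pos _) (by omega), c.L_succ, Nat.mul_comm (c.r j),
    ← Nat.div_div_eq_div_mul, ← Nat.div_div_eq_div_mul, e1, e2, Nat.succ_div]
  have e3 : c.r j ∣ p + (c.r j - 1 - ρ j) + t * c.r j + 1 ↔ p % c.r j = ρ j := by
    have : p + (c.r j - 1 - ρ j) + t * c.r j + 1 = p % c.r j + (c.r j - ρ j) +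
        c.r j * (p / c.r j + t) := by
      have := Nat.mod_add_div p (c.r j)
      rw [Nat.mul_add, Nat.mul_comm (c.r j) t]
      omega
    rw [this, Nat.dvd_add_left (Dvd.intro _ rfl)]
    have h1 := Nat.mod_lt p (show 0 < c.r j by omega)
    constructor
    · rintro ⟨u, hu⟩
      have : u = 1 := by
        rcases u with _ | _ | u
        · omega
        · rfl
        · rw [Nat.mul_succ, Nat.mul_succ] at hu; omega
      subst this
      omega
    · intro h
      exact ⟨1, by omega⟩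
  rw [← e3]
  split_ifs with h <;> simp [h]

theorem adm0 {ρ : ℕ → ℕ} (hρ : c.RhoOK ρ) {Q : ℕ} (hQ : c.IsAtom Q) :
    ¬ Cross (c.L (c.lev Q + 2)) (Q + c.kap ρ c.K) (Q + c.len Q + c.kap ρ c.K) := by
  intro hc
  rcases (Nat.succ_le_of_lt (c.lev_lt Q)).eq_or_lt with h | h
  · obtain ⟨n, h1, h2, h3⟩ := hc
    have h4 := Nat.le_of_dvd (by omega) h3
    have h5 := c.atom_le hQ
    have h6 := c.kap_lt ρ c.K
    have h7 := c.two_L c.K
    have h8 : c.lev Q + 2 = c.K + 1 := by omega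
    rw [h8] at h4
    omega
  · have hp := c.L_pos (c.lev Q + 1)
    have e1 := Nat.div_mul_le_self Q (c.L (c.lev Q + 1))
    have e2 : Q + c.len Q ≤ Q / c.L (c.lev Q + 1) * c.L (c.lev Q + 1) + c.L (c.lev Q + 1) := by
      have e3 := Nat.lt_div_mul_add (a := Q) hp
      have e4 : c.len Q ∣ Q / c.L (c.lev Q + 1) * c.L (c.lev Q + 1) + c.L (c.lev Q + 1) - Q :=
        Nat.dvd_sub ((Nat.dvd_add_right (Dvd.dvd.mul_left (c.L_dvd (Nat.le_succ _)) _)).2
          (c.L_dvd (Nat.le_succ _))) hQ.2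
      have := Nat.le_of_dvd (by omega) e4
      omega
    have h1 := (c.carry hρ (j := c.lev Q + 1) h (Q / c.L (c.lev Q + 1))).1 (hc.mono dvd_rfl (by omega) (by omega))
    have h2 := (hρ _).2 h _ (c.node_le h.le hQ.1) h1
    have := c.le_lev h h2
    omega

theorem atom_congr {Q Q' : ℕ} (hQ : c.IsAtom Q) (hQ' : c.IsAtom Q') (hl : c.lev Q = c.lev Q')
    (he : sg c.x Q (Q + c.len Q) = sg c.x Q' (Q' + c.len Q)) : Q ≡ Q' [MOD c.L (c.lev Q + 2)] := by
  have h1 := c.atom_le hQ'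
  have h2 : c.len Q' = c.len Q := by unfold len; rw [hl]
  rw [h2] at h1
  exact c.sync _ _ _ (c.lev_lt Q).le hQ.2 (c.atom_le hQ) h1 he

theorem adm_pos {ρ : ℕ → ℕ} (hρ : c.RhoOK ρ) : c.Adm c.L (c.K + 1) (fun Q => Q + c.kap ρ c.K) := by
  refine ⟨c.chain, ?_, ?_, ?_⟩
  · have h6 := c.kap_lt ρ c.K
    have h7 := c.two_L c.K
    omega
  · intro Q _
    have := c.len_pos Q
    omega
  · intro Q Q' hQ hQ' hl he
    have := c.lev_lt Q
    rw [Nat.add_right_comm Q, Nat.add_right_comm Q']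
    apply gz_G1 c.chain (j := c.lev Q + 2) (by omega)
    · rw [Nat.add_right_comm Q]
      exact c.adm0 hρ hQ
    · exact (c.atom_congr hQ hQ' hl he).add_right _

theorem exists_rho : ∃ ρ, c.RhoOK ρ := by
  have : ∀ j, ∃ s, s < c.r j ∧ (j < c.K → c.GoodCol j s) := by
    intro j
    by_cases hj : j < c.K
    · obtain ⟨s, -, h1, h2⟩ := c.exists_good_in hj.le 0 (c.r j) (by have := c.hm2 j; omega)
      exact ⟨s, h1, fun _ => h2⟩
    · exact ⟨0, by have := c.r_two j; omega, fun h => absurd h hj⟩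
  choose ρ hρ using this
  exact ⟨ρ, hρ⟩

theorem RhoOK.update {c : Ctx A} {ρ : ℕ → ℕ} (hρ : c.RhoOK ρ) {k s : ℕ} (hs : s < c.r k)
    (hg : c.GoodCol k s) : c.RhoOK (Function.update ρ k s) := by
  intro j
  by_cases h : j = k
  · subst h
    simp [hs, hg]
  · rw [Function.update_of_ne h]
    exact hρ j

end Ctx

end Pool.Agent.H541Z
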