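import Pool.Agent.H541Z.Core1

set_option autoImplicit false

namespace Pool.Agent.H541Z

theorem count_congr' {p q : ℕ → Prop} [DecidablePred p] [DecidablePred q] {n : ℕ}
    (h : ∀ t, t < n → (p t ↔ q t)) : Nat.count p n = Nat.count q n := by
  induction n with
  | zero => simp
  | succ n ih =>
    rw [Nat.count_succ, Nat.count_succ, ih (fun t ht => h t (by omega))]
    simp [h n (by omega)]

theorem count_unique {p : ℕ → Prop} [DecidablePred p] {n f : ℕ}
    (h : ∀ t, t < n → (p t ↔ t = f)) : Nat.count p n = if f < n then 1 else 0 := by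
  induction n with
  | zero => simp
  | succ n ih =>
    rw [Nat.count_succ, ih (fun t ht => h t (by omega))]
    have := h n (by omega)
    by_cases h1 : n = f
    · subst h1; simp [this.2 rfl]
    · have h2 : ¬ p n := fun hp => h1 (this.1 hp)
      rw [if_neg h2]
      split_ifs <;> omega

theorem unique_of_count {p : ℕ → Prop} [DecidablePred p] {n : ℕ} (h : Nat.count p n = 1) :
    ∃! t, t < n ∧ p t := by
  rw [Nat.count_eq_card_filter_range, Finset.card_eq_one] at h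
  obtain ⟨a, ha⟩ := h
  have : ∀ t, (t < n ∧ p t) ↔ t = a := by
    intro t
    rw [← Finset.mem_singleton, ← ha]
    simp
  exact ⟨a, (this a).2 rfl, fun t ht => (this t).1 ht⟩

theorem div_shift {R a a' : ℕ} (n : ℕ) (h : a ≡ a' [MOD R]) :
    (a + n) / R + a' / R = (a' + n) / R + a / R := by
  rcases Nat.eq_zero_or_pos R with rfl | hR
  · simp
  have h1 : (a + n) / R = a / R + (a % R + n) / R := by
    conv_lhs => rw [← Nat.div_add_mod a R, Nat.add_assoc, Nat.mul_add_div hR]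
  have h2 : (a' + n) / R = a' / R + (a' % R + n) / R := by
    conv_lhs => rw [← Nat.div_add_mod a' R, Nat.add_assoc, Nat.mul_add_div hR]
  have h3 : a % R = a' % R := h
  rw [h1, h2, h3]
  omega

theorem div_congr {R t a a' : ℕ} (h : a ≡ a' [MOD R * t]) : a / R ≡ a' / R [MOD t] := by
  unfold Nat.ModEq at h ⊢
  rw [← Nat.mod_mul_right_div_self, ← Nat.mod_mul_right_div_self, h]

namespace Ctx
variable {A : Type} (c : Ctx A)

/-- positions of the blocks that satisfy the test -/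
def Fl (y : ℕ → A) (k s : ℕ) (D : ℕ → List A → Prop) (a : ℕ) : Prop :=
  a % c.L (k + 1) = s * c.L k ∧ D (a / c.L (k + 1) % c.r (k + 1)) (sg y a (a + c.L k))

open Classical in
noncomputable def cnt (y : ℕ → A) (k s : ℕ) (D : ℕ → List A → Prop) (a : ℕ) : ℕ :=
  Nat.count (c.Fl y k s D) a

theorem blk_eq (y : ℕ → A) (k G i s : ℕ) : blk c.r y k G i s =
    sg y (G * c.L (k + 2) + (i * c.L (k + 1) + s * c.L k))
      (G * c.L (k + 2) + (i * c.L (k + 1) + s * c.L k) + c.L k) := by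
  unfold blk
  simp only [Nat.add_assoc]

theorem col_lt {k s : ℕ} (hs : s < c.r k) : s * c.L k + c.L k ≤ c.L (k + 1) := by
  rw [← Nat.succ_mul, c.L_succ]
  exact Nat.mul_le_mul_right _ hs

theorem fl_iff (y : ℕ → A) {k s : ℕ} (D : ℕ → List A → Prop) (hs : s < c.r k) (G : ℕ) {t : ℕ}
    (ht : t < c.L (k + 2)) : c.Fl y k s D (G * c.L (k + 2) + t) ↔
      ∃ i, i < c.r (k + 1) ∧ t = i * c.L (k + 1) + s * c.L k ∧ D i (blk c.r y k G i s) := by
  have hp := c.L_pos (k + 1)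
  have hp0 := c.L_pos k
  have h0 := c.col_lt hs
  have e1 : (G * c.L (k + 2) + t) % c.L (k + 1) = t % c.L (k + 1) := by
    rw [c.L_succ (k + 1), ← Nat.mul_assoc, Nat.mul_comm _ (c.L (k + 1)), Nat.mul_add_mod]
  have e3 : t / c.L (k + 1) < c.r (k + 1) := (Nat.div_lt_iff_lt_mul hp).2 ht
  have e2 : (G * c.L (k + 2) + t) / c.L (k + 1) % c.r (k + 1) = t / c.L (k + 1) := by
    rw [c.L_succ (k + 1), ← Nat.mul_assoc, Nat.mul_comm _ (c.L (k + 1)), Nat.mul_add_div hp,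
      Nat.mul_comm G, Nat.mul_add_mod, Nat.mod_eq_of_lt e3]
  unfold Fl
  rw [e1, e2]
  constructor
  · rintro ⟨h1, h2⟩
    have h3 : t = t / c.L (k + 1) * c.L (k + 1) + s * c.L k := by
      rw [← h1, Nat.div_add_mod']
    refine ⟨_, e3, h3, ?_⟩
    rw [c.blk_eq, ← h3]
    exact h2
  · rintro ⟨i, hi, rfl, h2⟩
    have h4 : (i * c.L (k + 1) + s * c.L k) / c.L (k + 1) = i := by
      rw [Nat.mul_comm i, Nat.mul_add_div hp, Nat.div_eq_of_lt (by omega), Nat.add_zero]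
    refine ⟨?_, ?_⟩
    · rw [Nat.mul_comm i, Nat.mul_add_mod, Nat.mod_eq_of_lt (by omega)]
    · rw [h4, ← c.blk_eq]
      exact h2

theorem cnt_add (y y' : ℕ → A) (k s : ℕ) (D : ℕ → List A → Prop) (a a' n : ℕ)
    (h : ∀ t, t < n → (c.Fl y k s D (a + t) ↔ c.Fl y' k s D (a' + t))) :
    c.cnt y k s D (a + n) + c.cnt y' k s D a' = c.cnt y' k s D (a' + n) + c.cnt y k s D a := by
  classical
  unfold cnt
  rw [Nat.count_add, Nat.count_add, count_congr' h]
  omega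

theorem cnt_none (y : ℕ → A) (k s : ℕ) (D : ℕ → List A → Prop) (a n : ℕ)
    (h : ∀ t, t < n → ¬ c.Fl y k s D (a + t)) : c.cnt y k s D (a + n) = c.cnt y k s D a := by
  classical
  unfold cnt
  rw [Nat.count_add, count_unique (f := n) (fun t ht => ⟨fun h' => absurd h' (h t ht), by omega⟩)]
  simp

theorem cnt_mono (y : ℕ → A) (k s : ℕ) (D : ℕ → List A → Prop) {a b : ℕ} (h : a ≤ b) :
    c.cnt y k s D a ≤ c.cnt y k s D b := by
  classical
  exact Nat.count_monotone _ h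

theorem cnt_le (y : ℕ → A) (k s : ℕ) (D : ℕ → List A → Prop) (a : ℕ) : c.cnt y k s D a ≤ a := by
  classical
  exact Nat.count_le _

theorem fl_shift (y y' : ℕ → A) (k s : ℕ) (D : ℕ → List A → Prop) {a a' n : ℕ}
    (h : ∀ t, t < n → y (a + t) = y' (a' + t)) (hm : a ≡ a' [MOD c.L (k + 2)]) (ha : c.L k ∣ a)
    (hn : c.L k ∣ n) {t : ℕ} (ht : t < n) : c.Fl y k s D (a + t) ↔ c.Fl y' k s D (a' + t) := by
  have h1 : a + t ≡ a' + t [MOD c.L (k + 2)] := hm.add_right t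
  have h2 : (a + t) % c.L (k + 1) = (a' + t) % c.L (k + 1) := h1.of_dvd (c.L_dvd (by omega))
  have h3 : (a + t) / c.L (k + 1) % c.r (k + 1) = (a' + t) / c.L (k + 1) % c.r (k + 1) := by
    apply div_congr
    rwa [Nat.mul_comm]
  unfold Fl
  rw [← h2, ← h3]
  refine and_congr_right (fun h4 => ?_)
  have h5 : c.L k ∣ a + t := by
    rw [← Nat.dvd_mod_iff (c.L_dvd (Nat.le_succ k)), h4]
    exact Dvd.intro_left _ rfl
  have h6 : c.L k ∣ n - t := Nat.dvd_sub hn ((Nat.dvd_add_right ha).1 h5)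
  have h7 := Nat.le_of_dvd (by omega) h6
  have : sg y (a + t) (a + t + c.L k) = sg y' (a' + t) (a' + t + c.L k) := by
    rw [sg_add_eq_iff]
    intro u hu
    rw [Nat.add_assoc, Nat.add_assoc]
    exact h _ (by omega)
  rw [this]

theorem col_of_mod {k s a : ℕ} (h : a % c.L (k + 1) = s * c.L k) :
    a / c.L k % c.r k = s ∧ a / c.L k * c.L k = a := by
  constructor
  · rw [← Nat.mod_mul_right_div_self, Nat.mul_comm, ← c.L_succ, h,
      Nat.mul_div_cancel _ (c.L_pos k)]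
  · apply Nat.div_mul_cancel
    rw [← Nat.dvd_mod_iff (c.L_dvd (Nat.le_succ k)), h]
    exact Dvd.intro_left _ rfl

theorem no_fl {k s Q t : ℕ} (hk : k < c.K) (hs : c.GoodCol k s) (hQ : c.IsAtom Q) (hl : c.lev Q < k)
    (ht : t < c.len Q) : (Q + t) % c.L (k + 1) ≠ s * c.L k := by
  intro h
  have h1 := c.atom_le hQ
  have h2 := hs _ (c.node_le hk.le (Q := Q + t) (by omega)) (c.col_of_mod h).1
  have h3 := c.le_lev hk h2
  rw [c.lev_eq_of_mem hQ (by omega) (by omega)] at h3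
  omega

/-- the data of one test -/
structure TD where
  k : ℕ
  ρ : ℕ → ℕ
  D : ℕ → List A → Prop
  e : ℕ
  δ : ℕ → ℕ
  hk : k + 2 ≤ c.K
  hρ : c.RhoOK ρ
  hδ : ∀ G, (G + 1) * c.L (k + 2) ≤ c.L c.K →
    δ G < c.r (k + 1) ∧ ∀ i, i < c.r (k + 1) → (D i (blk c.r c.x k G i (ρ k)) ↔ i = δ G)
  side : (e = 0 ∧ ∀ i w, D i w → i < ρ (k + 1)) ∨ (e = 1 ∧ ∀ i w, D i w → ρ (k + 1) < i)

namespace TD
variable {c} (T : c.TD)

/-- length of the level `k+2` blocks -/
def R : ℕ := c.L (T.k + 2)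
/-- offset -/
def κ : ℕ := c.kap T.ρ c.K
/-- window number -/
def w (Q : ℕ) : ℕ := (Q + T.κ) / T.R
/-- number of marked blocks -/
noncomputable def ct (y : ℕ → A) (Q : ℕ) : ℕ := c.cnt y T.k (T.ρ T.k) T.D Q
/-- constant -/
def c0 : ℕ := T.κ / T.R + T.e
/-- the map of the boundaries -/
noncomputable def nD (B : ℕ) (y : ℕ → A) (Q : ℕ) : ℕ :=
  Q + T.κ + T.R * (B * T.w Q + T.ct y Q + T.c0)
/-- the moduli -/
def MD (B : ℕ) (j : ℕ) : ℕ := if j ≤ T.k + 2 then c.L j else (B + 2) * c.L (j - 1)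
/-- the inserted digit -/
noncomputable def dd (Q : ℕ) : ℕ := T.ct c.x Q + T.c0 - T.w Q

theorem R_pos : 0 < T.R := c.L_pos _

theorem R_eq : T.R = c.r (T.k + 1) * c.L (T.k + 1) := rfl

theorem δ_side (G : ℕ) (hG : (G + 1) * T.R ≤ c.L c.K) :
    (T.e = 0 ∧ T.δ G < T.ρ (T.k + 1)) ∨ (T.e = 1 ∧ T.ρ (T.k + 1) < T.δ G) := by
  have h1 := T.hδ G hG
  have h2 := (h1.2 _ h1.1).2 rfl
  rcases T.side with h | h
  · exact Or.inl ⟨h.1, h.2 _ _ h2⟩
  · exact Or.inr ⟨h.1, h.2 _ _ h2⟩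

theorem f_lt (G : ℕ) (hG : (G + 1) * T.R ≤ c.L c.K) :
    T.δ G * c.L (T.k + 1) + T.ρ T.k * c.L T.k < T.R := by
  have h1 := c.col_lt (T.hδ G hG).1
  have h2 := c.col_lt (T.hρ T.k).1
  have h3 := c.L_pos T.k
  change _ ≤ T.R at h1
  omega

theorem ct_step (G : ℕ) (hG : (G + 1) * T.R ≤ c.L c.K) {q : ℕ} (hq : q ≤ T.R) :
    T.ct c.x (G * T.R + q) = T.ct c.x (G * T.R) +
      if T.δ G * c.L (T.k + 1) + T.ρ T.k * c.L T.k < q then 1 else 0 := by
  classical
  unfold ct cnt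
  rw [Nat.count_add]
  congr 1
  apply count_unique
  intro t ht
  have := c.fl_iff c.x T.D (T.hρ T.k).1 G (t := t) (lt_of_lt_of_le ht hq)
  unfold R
  rw [this]
  have h1 := T.hδ G hG
  constructor
  · rintro ⟨i, hi, rfl, h2⟩
    rw [(h1.2 i hi).1 h2]
  · rintro rfl
    exact ⟨_, h1.1, rfl, (h1.2 _ h1.1).2 rfl⟩

theorem ct_node (G : ℕ) (hG : G * T.R ≤ c.L c.K) : T.ct c.x (G * T.R) = G := by
  induction G with
  | zero => simp [ct, cnt]
  | succ G ih =>
    rw [Nat.succ_mul, T.ct_step G hG le_rfl, if_pos (T.f_lt G hG), ih]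
    rw [Nat.succ_mul] at hG
    omega

theorem w_val (G q : ℕ) : (q ≤ T.ρ (T.k + 1) * c.L (T.k + 1) → T.w (G * T.R + q) = G + T.κ / T.R) ∧
    ((T.ρ (T.k + 1) + 1) * c.L (T.k + 1) ≤ q → q ≤ T.R → T.w (G * T.R + q) = G + T.κ / T.R + 1) := by
  obtain ⟨t, ht⟩ := c.kap_dec T.ρ T.hk
  have h1 := c.kap_lt T.ρ (T.k + 2)
  have h2 := c.kap_lt T.ρ (T.k + 1)
  have hR := T.R_pos
  have h3 : c.kap T.ρ (T.k + 2) + (T.ρ (T.k + 1) + 1) * c.L (T.k + 1) = c.kap T.ρ (T.k + 1) + T.R := by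
    rw [T.R_eq]
    simp only [kap]
    have := (T.hρ (T.k + 1)).1
    obtain ⟨u, hu⟩ : ∃ u, c.r (T.k + 1) = T.ρ (T.k + 1) + 1 + u := ⟨c.r (T.k + 1) - (T.ρ (T.k + 1) + 1), by omega⟩
    have h4 : c.r (T.k + 1) - 1 - T.ρ (T.k + 1) = u := by omega
    rw [h4, hu]
    ring
  change T.κ = _ + t * T.R at ht
  change _ < T.R at h1
  have h5 : T.κ / T.R = t := by
    rw [ht, Nat.add_mul_div_right _ _ hR, Nat.div_eq_of_lt h1, Nat.zero_add]
  have h6 : T.w (G * T.R + q) = G + t + (q + c.kap T.ρ (T.k + 2)) / T.R := by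
    unfold w
    rw [ht, show G * T.R + q + (c.kap T.ρ (T.k + 2) + t * T.R) =
      q + c.kap T.ρ (T.k + 2) + (G + t) * T.R by ring, Nat.add_mul_div_right _ _ hR]
    omega
  rw [Nat.succ_mul] at h3
  rw [h5, h6]
  constructor
  · intro hq
    rw [Nat.div_eq_of_lt (by omega), Nat.add_zero]
  · intro hq hq'
    rw [Nat.succ_mul] at hq
    congr 1
    apply Nat.div_eq_of_lt_le <;> omega

theorem dd_val (G q : ℕ) (hG : (G + 1) * T.R ≤ c.L c.K) (hq : q ≤ T.R)
    (hr : q ≤ T.ρ (T.k + 1) * c.L (T.k + 1) ∨ (T.ρ (T.k + 1) + 1) * c.L (T.k + 1) ≤ q) :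
    T.ct c.x (G * T.R + q) + T.c0 = T.w (G * T.R + q) + T.dd (G * T.R + q) ∧
      T.dd (G * T.R + q) ≤ 1 ∧ (q = 0 → T.dd (G * T.R + q) = T.e) ∧
      (q = T.ρ (T.k + 1) * c.L (T.k + 1) → T.dd (G * T.R + q) = 1) := by
  have h1 := T.ct_step G hG hq
  rw [T.ct_node G (by rw [Nat.succ_mul] at hG; omega)] at h1
  have h2 := T.w_val G q
  have h3 := c.col_lt (T.hρ T.k).1
  have h4 := c.L_pos T.k
  have h5 := c.L_pos (T.k + 1)
  unfold dd c0
  rw [Nat.succ_mul] at hr h2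
  rcases T.δ_side G hG with ⟨he, hs⟩ | ⟨he, hs⟩
  · have h6 : (T.δ G + 1) * c.L (T.k + 1) ≤ T.ρ (T.k + 1) * c.L (T.k + 1) :=
      Nat.mul_le_mul_right _ hs
    rw [Nat.succ_mul] at h6
    rcases hr with hr | hr
    · have := h2.1 hr
      split_ifs at h1 <;> omega
    · have := h2.2 hr hq
      split_ifs at h1 <;> omega
  · have h6 : (T.ρ (T.k + 1) + 1) * c.L (T.k + 1) ≤ T.δ G * c.L (T.k + 1) :=
      Nat.mul_le_mul_right _ hs
    rw [Nat.succ_mul] at h6
    rcases hr with hr | hr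
    · have := h2.1 hr
      split_ifs at h1 <;> omega
    · have := h2.2 hr hq
      split_ifs at h1 <;> omega

theorem dd_atom {Q : ℕ} (hQ : c.IsAtom Q) :
    T.ct c.x Q + T.c0 = T.w Q + T.dd Q ∧ T.dd Q ≤ 1 ∧ (Q % T.R = 0 → T.dd Q = T.e) ∧
      (Q % T.R = T.ρ (T.k + 1) * c.L (T.k + 1) → T.dd Q = 1) := by
  have hR := T.R_pos
  have hp := c.L_pos (T.k + 1)
  have h1 := T.dd_val (Q / T.R) (Q % T.R) (c.node_le T.hk hQ.1) (Nat.mod_lt _ hR).le (by
    by_contra hc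
    push Not at hc
    have h2 : Q / c.L (T.k + 1) % c.r (T.k + 1) = T.ρ (T.k + 1) := by
      rw [← Nat.mod_mul_right_div_self, Nat.mul_comm, ← T.R_eq]
      exact Nat.div_eq_of_lt_le hc.1.le hc.2
    have hk := T.hk
    have h3 := (T.hρ _).2 (by omega) _ (c.node_le (by omega) hQ.1) h2
    have h4 := c.le_lev (by omega) h3
    have h5 : c.L (T.k + 1) ∣ Q % T.R :=
      (Nat.dvd_mod_iff (c.L_dvd (Nat.le_succ _))).2 ((c.L_dvd h4).trans hQ.2)
    obtain ⟨u, hu⟩ := h5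
    rw [hu, Nat.mul_comm _ u] at hc
    have h6 := Nat.lt_of_mul_lt_mul_right hc.1
    have h7 := Nat.lt_of_mul_lt_mul_right hc.2
    omega)
  rwa [Nat.div_add_mod'] at h1

theorem dd_bd {Q : ℕ} (hQ : c.Bd Q) : T.ct c.x Q + T.c0 = T.w Q + T.dd Q ∧ T.dd Q ≤ 1 := by
  rcases hQ with rfl | hQ
  · obtain ⟨u, hu⟩ := c.L_dvd T.hk
    have hp := c.L_pos c.K
    obtain ⟨G, rfl⟩ : ∃ G, u = G + 1 := ⟨u - 1, by
      rcases u with _ | u
      · omega
      · rfl⟩
    change _ = T.R * _ at hu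
    have h1 := T.dd_val G T.R (by rw [hu, Nat.mul_comm]) le_rfl
      (Or.inr (Nat.mul_le_mul_right _ (T.hρ _).1))
    rw [show G * T.R + T.R = c.L c.K by rw [hu]; ring] at h1
    exact ⟨h1.1, h1.2.1⟩
  · exact ⟨(T.dd_atom hQ).1, (T.dd_atom hQ).2.1⟩

theorem nD_eq (B : ℕ) (y : ℕ → A) (Q : ℕ) :
    T.nD B y Q = (Q + T.κ) % T.R + T.R * ((B + 1) * T.w Q + T.ct y Q + T.c0) := by
  unfold nD
  conv_lhs => rw [← Nat.mod_add_div (Q + T.κ) T.R]
  unfold w
  ring

theorem nD_bd (B : ℕ) {Q : ℕ} (hQ : c.Bd Q) :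
    T.nD B c.x Q = (Q + T.κ) % T.R + T.R * ((B + 2) * T.w Q + T.dd Q) := by
  rw [nD_eq, Nat.add_assoc, (T.dd_bd hQ).1]
  ring

theorem nD_div_R (B : ℕ) {Q : ℕ} (hQ : c.Bd Q) :
    T.nD B c.x Q / T.R = (B + 2) * T.w Q + T.dd Q := by
  rw [T.nD_bd B hQ, Nat.add_mul_div_left _ _ T.R_pos, Nat.div_eq_of_lt (Nat.mod_lt _ T.R_pos),
    Nat.zero_add]

theorem nD_div (B : ℕ) {Q j : ℕ} (hQ : c.Bd Q) (hj : T.k + 2 ≤ j) :
    T.nD B c.x Q / ((B + 2) * c.L j) = (Q + T.κ) / c.L j := by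
  obtain ⟨t, ht⟩ := c.L_dvd hj
  change _ = T.R * _ at ht
  have h1 := (T.dd_bd hQ).2
  rw [ht, show (B + 2) * (T.R * t) = T.R * (B + 2) * t by ring, ← Nat.div_div_eq_div_mul,
    ← Nat.div_div_eq_div_mul, T.nD_div_R B hQ, Nat.mul_add_div (by omega),
    Nat.div_eq_of_lt (show T.dd Q < B + 2 by omega), Nat.add_zero, ← Nat.div_div_eq_div_mul]
  rfl

theorem MD_le (B : ℕ) {j : ℕ} (h : j ≤ T.k + 2) : T.MD B j = c.L j := if_pos h

theorem MD_gt (B : ℕ) {j : ℕ} (h : T.k + 2 ≤ j) : T.MD B (j + 1) = (B + 2) * c.L j :=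
  if_neg (by omega)

theorem MD_chain (B : ℕ) : Chain (T.MD B) := by
  refine ⟨rfl, fun j => ?_, fun j => ?_⟩
  · unfold MD
    split_ifs
    · exact c.L_pos _
    · exact Nat.mul_pos (by omega) (c.L_pos _)
  · rcases lt_trichotomy j (T.k + 2) with h | h | h
    · rw [T.MD_le B h.le, T.MD_le B h]
      exact c.L_dvd (by omega)
    · rw [T.MD_le B h.le, T.MD_gt B h.ge]
      exact Dvd.intro_left _ rfl
    · obtain ⟨j, rfl⟩ : ∃ i, j = i + 1 := ⟨j - 1, by omega⟩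
      rw [T.MD_gt B (by omega), T.MD_gt B (by omega)]
      exact Nat.mul_dvd_mul_left _ (c.L_dvd (by omega))

theorem w_mono {a b : ℕ} (h : a ≤ b) : T.w a ≤ T.w b := Nat.div_le_div_right (by omega)

theorem w_eq_iff (a n : ℕ) : T.w (a + n) = T.w a ↔ ¬ Cross T.R (a + T.κ) (a + n + T.κ) := by
  rw [not_cross_iff T.R_pos (by omega)]
  exact eq_comm

theorem w_shift {a a' : ℕ} (n : ℕ) (h : a ≡ a' [MOD T.R]) :
    T.w (a + n) + T.w a' = T.w (a' + n) + T.w a := by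
  unfold w
  rw [Nat.add_right_comm a, Nat.add_right_comm a']
  exact div_shift n (h.add_right _)

theorem low_atom {Q : ℕ} (hQ : c.IsAtom Q) (hl : c.lev Q ≤ T.k) : T.w (Q + c.len Q) = T.w Q := by
  rw [w_eq_iff]
  exact fun h => c.adm0 T.hρ hQ (h.mono (c.L_dvd (by omega)) le_rfl le_rfl)

theorem low_atom' {Q : ℕ} (hQ : c.IsAtom Q) (hl : c.lev Q < T.k) :
    T.ct c.x (Q + c.len Q) = T.ct c.x Q := by
  have hk := T.hk
  exact c.cnt_none _ _ _ _ _ _ (fun t ht h =>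
    c.no_fl (by omega) ((T.hρ _).2 (by omega)) hQ hl ht h.1)

theorem adm (B : ℕ) : c.Adm (T.MD B) (c.K + 2) (T.nD B c.x) := by
  have hmono : ∀ Q, T.nD B c.x Q < T.nD B c.x (Q + c.len Q) := by
    intro Q
    unfold nD
    have h1 := c.len_pos Q
    have h2 := T.w_mono (Nat.le_add_right Q (c.len Q))
    have h3 : T.ct c.x Q ≤ T.ct c.x (Q + c.len Q) := c.cnt_mono _ _ _ _ (Nat.le_add_right _ _)
    have h4 := Nat.mul_le_mul_left B h2
    have h5 := Nat.mul_le_mul_left T.R (show B * T.w Q + T.ct c.x Q + T.c0 ≤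
      B * T.w (Q + c.len Q) + T.ct c.x (Q + c.len Q) + T.c0 by omega)
    omega
  have hk := T.hk
  refine ⟨T.MD_chain B, ?_, fun Q _ => hmono Q, ?_⟩
  · have h1 := T.nD_div B (Q := c.L c.K) (j := c.K + 1) (Or.inl rfl) (by omega)
    have h2 := c.kap_lt T.ρ c.K
    have h3 := c.two_L c.K
    rw [Nat.div_eq_of_lt (show c.L c.K + T.κ < c.L (c.K + 1) by unfold κ; omega)] at h1
    rw [T.MD_gt B (by omega)]
    exact Nat.lt_of_div_eq_zero (Nat.mul_pos (by omega) (c.L_pos _)) h1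
  · intro Q Q' hQ hQ' hl he
    have hlen : c.len Q' = c.len Q := by unfold len; rw [hl]
    have hm := c.atom_congr hQ hQ' hl he
    have hlt := c.lev_lt Q
    have hA := c.adm0 T.hρ hQ
    have hb := c.atom_bd hQ
    have hb' := c.atom_bd hQ'
    rw [hlen] at hb'
    have hw : T.w (Q + c.len Q) + T.w Q' = T.w (Q' + c.len Q) + T.w Q := by
      by_cases h : c.lev Q ≤ T.k
      · have := T.low_atom hQ' (hl ▸ h)
        rw [hlen] at this
        rw [this, T.low_atom hQ h, Nat.add_comm]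
      · exact T.w_shift _ (hm.of_dvd (c.L_dvd (by omega)))
    have hc : T.ct c.x (Q + c.len Q) + T.ct c.x Q' = T.ct c.x (Q' + c.len Q) + T.ct c.x Q := by
      by_cases h : c.lev Q < T.k
      · have := T.low_atom' hQ' (hl ▸ h)
        rw [hlen] at this
        rw [this, T.low_atom' hQ h, Nat.add_comm]
      · exact c.cnt_add _ _ _ _ _ _ _ _ (fun t ht => c.fl_shift _ _ _ _ _
          ((sg_add_eq_iff _ _ _ _ _).1 he) (hm.of_dvd (c.L_dvd (by omega)))
          ((c.L_dvd (by omega)).trans hQ.2) (c.L_dvd (by omega)) ht)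
    by_cases hcase : T.w (Q + c.len Q) = T.w Q ∧ T.ct c.x (Q + c.len Q) = T.ct c.x Q
    · have e1 : T.nD B c.x (Q + c.len Q) = T.nD B c.x Q + c.len Q := by
        unfold nD; rw [hcase.1, hcase.2]; omega
      have e2 : T.nD B c.x (Q' + c.len Q) = T.nD B c.x Q' + c.len Q := by
        unfold nD
        rw [show T.w (Q' + c.len Q) = T.w Q' by omega,
          show T.ct c.x (Q' + c.len Q) = T.ct c.x Q' by omega]
        omega
      rw [e1, e2]
      have hd : c.L (min (c.lev Q + 2) (T.k + 2)) ∣ T.R := c.L_dvd (min_le_right _ _)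
      have e3 : ∀ a, T.nD B c.x a ≡ a + T.κ [MOD c.L (min (c.lev Q + 2) (T.k + 2))] := by
        intro a
        unfold nD
        exact (Nat.ModEq.refl _).add ((Nat.modEq_zero_iff_dvd).2 (hd.mul_right _))
      apply gz_G1 (T.MD_chain B) (j := min (c.lev Q + 2) (T.k + 2)) (by omega)
      · rw [T.MD_le B (min_le_right _ _)]
        intro h
        have h1 := h.shift (e3 Q)
        rw [Nat.add_right_comm] at h1
        rcases le_total (c.lev Q + 2) (T.k + 2) with h2 | h2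
        · rw [min_eq_left h2] at h1
          exact hA h1
        · rw [min_eq_right h2] at h1
          exact (T.w_eq_iff _ _).1 hcase.1 h1
      · rw [T.MD_le B (min_le_right _ _)]
        exact (e3 Q).trans (((hm.of_dvd (c.L_dvd (min_le_left _ _))).add_right _).trans (e3 Q').symm)
    · have hlk : T.k ≤ c.lev Q := by
        by_contra h
        exact hcase ⟨T.low_atom hQ (by omega), T.low_atom' hQ (by omega)⟩
      have hmR : Q ≡ Q' [MOD T.R] := hm.of_dvd (c.L_dvd (by omega))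
      have d1 := T.dd_atom hQ
      have d2 := T.dd_atom hQ'
      have d3 := T.dd_bd hb
      have d4 := T.dd_bd hb'
      have hdd : T.dd Q = T.dd Q' := by
        by_cases h : T.w (Q + c.len Q) = T.w Q
        · have h3 : T.ct c.x Q ≤ T.ct c.x (Q + c.len Q) := c.cnt_mono _ _ _ _ (Nat.le_add_right _ _)
          have h4 : T.ct c.x (Q + c.len Q) ≠ T.ct c.x Q := fun h4 => hcase ⟨h, h4⟩
          omega
        · have h1 : T.k + 1 ≤ c.lev Q := by
            by_contra h2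
            exact h (T.low_atom hQ (by omega))
          have h2 : Q % T.R = Q' % T.R := hmR
          rcases h1.eq_or_lt with h1 | h1
          · rw [w_eq_iff, not_not] at h
            have h3 : Q / c.L (T.k + 1) * c.L (T.k + 1) = Q := Nat.div_mul_cancel (h1 ▸ hQ.2)
            have h4 : c.len Q = c.L (T.k + 1) := by unfold len; rw [h1]
            have h5 := (c.carry T.hρ (j := T.k + 1) (by omega) (Q / c.L (T.k + 1))).1
              (by rw [h3, ← h4]; exact h)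
            have h6 : Q % T.R = T.ρ (T.k + 1) * c.L (T.k + 1) := by
              rw [← h5, T.R_eq]
              conv_lhs => rw [← h3]
              exact Nat.mul_mod_mul_right _ _ _
            rw [d1.2.2.2 h6, d2.2.2.2 (h2 ▸ h6)]
          · have h3 : Q % T.R = 0 := Nat.mod_eq_zero_of_dvd ((c.L_dvd h1).trans hQ.2)
            rw [d1.2.2.1 h3, d2.2.2.1 (h2 ▸ h3)]
      obtain ⟨Λ, hΛ⟩ : ∃ Λ, T.nD B c.x (Q + c.len Q) = T.nD B c.x Q + Λ :=
        ⟨_, (Nat.add_sub_cancel' (hmono Q).le).symm⟩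
      have e2 : T.nD B c.x (Q' + c.len Q) = T.nD B c.x Q' + Λ := by
        unfold nD at hΛ ⊢
        have h1 : B * T.w (Q + c.len Q) + B * T.w Q' = B * T.w (Q' + c.len Q) + B * T.w Q := by
          rw [← Nat.mul_add, ← Nat.mul_add, hw]
        have h2 : T.R * (B * T.w (Q + c.len Q) + T.ct c.x (Q + c.len Q) + T.c0) +
            T.R * (B * T.w Q' + T.ct c.x Q' + T.c0) =
            T.R * (B * T.w (Q' + c.len Q) + T.ct c.x (Q' + c.len Q) + T.c0) +
            T.R * (B * T.w Q + T.ct c.x Q + T.c0) := by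
          rw [← Nat.mul_add, ← Nat.mul_add]
          congr 1
          omega
        omega
      rw [hΛ, e2]
      apply gz_G1 (T.MD_chain B) (j := c.lev Q + 2 + 1) (by omega)
      · rw [T.MD_gt B (by omega), ← hΛ,
          not_cross_iff (Nat.mul_pos (by omega) (c.L_pos _)) (hmono Q).le,
          T.nD_div B (Or.inr hQ) (by omega), T.nD_div B hb (by omega),
          ← not_cross_iff (c.L_pos _) (by omega)]
        exact hA
      · rw [T.MD_gt B (by omega), T.nD_bd B (Or.inr hQ), T.nD_bd B (Or.inr hQ'), hdd]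
        obtain ⟨t, ht⟩ := c.L_dvd (show T.k + 2 ≤ c.lev Q + 2 by omega)
        change _ = T.R * _ at ht
        rw [ht] at hm ⊢
        have h1 : (Q + T.κ) % T.R = (Q' + T.κ) % T.R := hmR.add_right _
        have h2 : T.w Q ≡ T.w Q' [MOD t] := div_congr (hm.add_right _)
        rw [h1, show (B + 2) * (T.R * t) = T.R * ((B + 2) * t) by ring]
        exact ((h2.mul_left' (B + 2)).add_right _).mul_left' T.R |>.add_left _

end TD

end Ctx

end Pool.Agent.H541Z
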