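import Pool.Agent.H541Z.Core2

set_option autoImplicit false

namespace Pool.Agent.H541Z

namespace Ctx
variable {A : Type} (c : Ctx A)

/-- a rearrangement of atoms that no admissible map detects -/
structure Arr where
  N : ℕ
  Q : ℕ → ℕ
  P : ℕ → ℕ
  y : ℕ → A
  hQ : ∀ j, j < N → c.IsAtom (Q j)
  P0 : P 0 = 0
  Ps : ∀ j, j < N → P (j + 1) = P j + c.len (Q j)
  hy : ∀ j, j < N → ∀ t, t < c.len (Q j) → y (P j + t) = c.x (Q j + t)
  had : ∀ M J n, c.Adm M J n → ∃ Nn : ℕ → ℕ, Nn 0 = n 0 ∧ Nn N = n (c.L c.K) ∧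
    (∀ j, Nn j ≤ n (c.L c.K)) ∧ ∀ j, j < N → Nn j ≤ Nn (j + 1) ∧
      sg (gz M J) (n (Q j)) (n (Q j + c.len (Q j))) = sg (gz M J) (Nn j) (Nn (j + 1))

namespace Arr
variable {c} (a : c.Arr)

theorem pos_aux {ρ : ℕ → ℕ} (hρ : c.RhoOK ρ) : a.P a.N = c.L c.K ∧ ∀ j, j < a.N →
    a.P j + c.len (a.Q j) ≤ c.L c.K ∧
    sg (gz c.L (c.K + 1)) (a.Q j + c.kap ρ c.K) (a.Q j + c.kap ρ c.K + c.len (a.Q j)) =
      sg (gz c.L (c.K + 1)) (a.P j + c.kap ρ c.K) (a.P j + c.kap ρ c.K + c.len (a.Q j)) := by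
  obtain ⟨Nn, h0, h1, h2, h3⟩ := a.had _ _ _ (c.adm_pos hρ)
  have h4 : ∀ j, j ≤ a.N → Nn j = a.P j + c.kap ρ c.K := by
    intro j
    induction j with
    | zero => intro _; rw [h0, a.P0]
    | succ j ih =>
      intro hj
      have h5 := h3 j hj
      have h6 := congrArg List.length h5.2
      simp only [sg_length] at h6
      have := ih (by omega)
      rw [a.Ps j hj]
      omega
  refine ⟨by have := h4 a.N le_rfl; omega, fun j hj => ?_⟩
  have h5 := (h3 j hj).2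
  have h6 := h2 (j + 1)
  rw [h4 (j + 1) hj, a.Ps j hj] at h6
  rw [h4 j hj.le, h4 (j + 1) hj, a.Ps j hj, Nat.add_right_comm (a.Q j), Nat.add_right_comm (a.P j)] at h5
  exact ⟨by omega, h5⟩

theorem PN : a.P a.N = c.L c.K := by
  obtain ⟨ρ, hρ⟩ := c.exists_rho
  exact (a.pos_aux hρ).1

theorem P_le {j : ℕ} (hj : j < a.N) : a.P j + c.len (a.Q j) ≤ c.L c.K := by
  obtain ⟨ρ, hρ⟩ := c.exists_rho
  exact ((a.pos_aux hρ).2 j hj).1

theorem alQ {ρ : ℕ → ℕ} (hρ : c.RhoOK ρ) {j i : ℕ} (hj : j < a.N)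
    (h : Cross (c.L i) (a.Q j + c.kap ρ c.K) (a.Q j + c.len (a.Q j) + c.kap ρ c.K)) :
    a.P j ≡ a.Q j [MOD c.L (i + 1)] := by
  have h1 := (a.pos_aux hρ).2 j hj
  have h2 := c.atom_le (a.hQ j hj)
  have h3 := c.kap_lt ρ c.K
  have h4 := c.two_L c.K
  rw [Nat.add_right_comm] at h
  exact (Nat.ModEq.add_right_cancel' _ (gz_G2 c.chain (by omega) (by omega) h1.2 h)).symm

theorem alP {ρ : ℕ → ℕ} (hρ : c.RhoOK ρ) {j i : ℕ} (hj : j < a.N)
    (h : Cross (c.L i) (a.P j + c.kap ρ c.K) (a.P j + c.len (a.Q j) + c.kap ρ c.K)) :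
    a.P j ≡ a.Q j [MOD c.L (i + 1)] := by
  have h1 := (a.pos_aux hρ).2 j hj
  have h2 := c.atom_le (a.hQ j hj)
  have h3 := c.kap_lt ρ c.K
  have h4 := c.two_L c.K
  rw [Nat.add_right_comm] at h
  exact Nat.ModEq.add_right_cancel' _ (gz_G2 c.chain (by omega) (by omega) h1.2.symm h)

theorem aligned {j : ℕ} (hj : j < a.N) : a.P j ≡ a.Q j [MOD c.L (c.lev (a.Q j) + 1)] := by
  obtain ⟨ρ, hρ⟩ := c.exists_rho
  apply a.alQ hρ hj
  rw [Nat.add_right_comm]
  exact cross_self (c.L_pos _) _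

theorem len_dvd {j : ℕ} (hj : j < a.N) : c.len (a.Q j) ∣ a.P j :=
  (((a.aligned hj).of_dvd (c.L_dvd (Nat.le_succ _))).dvd_iff dvd_rfl).2 (a.hQ j hj).2

theorem P_mono {i j : ℕ} (h : i ≤ j) (hj : j ≤ a.N) : a.P i ≤ a.P j := by
  induction h with
  | refl => exact le_rfl
  | step _ ih =>
    rw [a.Ps _ hj]
    have := ih (by omega)
    omega

theorem exists_idx {b : ℕ} (hb : b < c.L c.K) :
    ∃ j, j < a.N ∧ a.P j ≤ b ∧ b < a.P j + c.len (a.Q j) := by
  have : ∀ n, n ≤ a.N → b < a.P n → ∃ j, j < a.N ∧ a.P j ≤ b ∧ b < a.P j + c.len (a.Q j) := by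
    intro n
    induction n with
    | zero => intro _ h; rw [a.P0] at h; omega
    | succ n ih =>
      intro h1 h2
      by_cases h : b < a.P n
      · exact ih (by omega) h
      · exact ⟨n, h1, by omega, by rwa [a.Ps n h1] at h2⟩
  exact this a.N le_rfl (by rwa [a.PN])

theorem idx_unique {i j b : ℕ} (hi : i < a.N) (hj : j < a.N) (h1 : a.P i ≤ b)
    (h2 : b < a.P i + c.len (a.Q i)) (h3 : a.P j ≤ b) (h4 : b < a.P j + c.len (a.Q j)) : i = j := by
  rcases lt_trichotomy i j with h | h | h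
  · have := a.P_mono (show i + 1 ≤ j from h) hj.le
    rw [a.Ps i hi] at this
    omega
  · exact h
  · have := a.P_mono (show j + 1 ≤ i from h) hi.le
    rw [a.Ps j hj] at this
    omega

theorem cover {k p : ℕ} (hk : k < c.K) (hp : (p + 1) * c.L k ≤ c.L c.K)
    (hg : c.GoodCol k (p % c.r k)) :
    ∃ j, j < a.N ∧ k ≤ c.lev (a.Q j) ∧ a.P j ≡ a.Q j [MOD c.L (k + 2)] ∧ a.P j ≤ p * c.L k ∧
      p * c.L k + c.L k ≤ a.P j + c.len (a.Q j) := by
  obtain ⟨ρ0, hρ0⟩ := c.exists_rho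
  have hr := c.r_two k
  have hρ := hρ0.update (Nat.mod_lt p (show 0 < c.r k by omega)) hg
  generalize hρρ : Function.update ρ0 k (p % c.r k) = ρ at hρ
  have h0 : p % c.r k = ρ k := by rw [← hρρ, Function.update_self]
  obtain ⟨n, h1, h2, h3⟩ := (c.carry hρ hk p).2 h0
  rw [Nat.succ_mul] at hp
  obtain ⟨j, hj, h4, h5⟩ := a.exists_idx (b := n - 1 - c.kap ρ c.K) (by omega)
  have h6 : Cross (c.L (k + 1)) (a.P j + c.kap ρ c.K) (a.P j + c.len (a.Q j) + c.kap ρ c.K) :=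
    ⟨n, by omega, by omega, h3⟩
  have h7 := a.alP hρ hj h6
  have h8 : k ≤ c.lev (a.Q j) := by
    by_contra h
    apply c.adm0 hρ (a.hQ j hj)
    rw [Nat.add_right_comm] at h6 ⊢
    exact (h6.shift ((h7.of_dvd (c.L_dvd (by omega))).add_right _)).mono (c.L_dvd (by omega))
      le_rfl le_rfl
  have h9 : c.L k ∣ c.len (a.Q j) := c.L_dvd h8
  obtain ⟨u, hu⟩ := h9.trans (a.len_dvd hj)
  obtain ⟨v, hv⟩ := h9
  refine ⟨j, hj, h8, h7, ?_, ?_⟩
  · rw [hu, Nat.mul_comm]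
    apply Nat.mul_le_mul_right
    by_contra h
    have : (p + 1) * c.L k ≤ u * c.L k := Nat.mul_le_mul_right _ (by omega)
    rw [Nat.succ_mul, Nat.mul_comm u] at this
    omega
  · rw [hu, hv, ← Nat.mul_add, ← Nat.succ_mul, Nat.mul_comm]
    apply Nat.mul_le_mul_left
    by_contra h
    have : (u + v) * c.L k ≤ p * c.L k := Nat.mul_le_mul_right _ (by omega)
    rw [Nat.add_mul, Nat.mul_comm u, Nat.mul_comm v] at this
    omega

theorem cover_sg {k p : ℕ} (hk : k < c.K) (hp : (p + 1) * c.L k ≤ c.L c.K)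
    (hg : c.GoodCol k (p % c.r k)) :
    ∃ b, b + c.L k ≤ c.L c.K ∧ p * c.L k ≡ b [MOD c.L (k + 2)] ∧
      sg a.y (p * c.L k) (p * c.L k + c.L k) = sg c.x b (b + c.L k) := by
  obtain ⟨j, hj, -, h1, h2, h3⟩ := a.cover hk hp hg
  obtain ⟨t, ht⟩ : ∃ t, p * c.L k = a.P j + t := ⟨_, (Nat.add_sub_cancel' h2).symm⟩
  have h4 := c.atom_le (a.hQ j hj)
  refine ⟨a.Q j + t, by omega, ht ▸ h1.add_right t, ?_⟩
  rw [ht, sg_add_eq_iff]
  intro u hu
  rw [Nat.add_assoc, Nat.add_assoc]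
  exact a.hy j hj _ (by omega)

theorem tr (T : c.TD) {j t : ℕ} (hj : j < a.N) (ht : t < c.len (a.Q j)) :
    c.Fl a.y T.k (T.ρ T.k) T.D (a.P j + t) ↔ c.Fl c.x T.k (T.ρ T.k) T.D (a.Q j + t) := by
  have hk := T.hk
  have hQ := a.hQ j hj
  have hPl := a.P_le hj
  by_cases h : T.k ≤ c.lev (a.Q j) ∧ a.P j ≡ a.Q j [MOD c.L (T.k + 2)]
  · exact c.fl_shift _ _ _ _ _ (a.hy j hj) h.2 ((c.L_dvd h.1).trans (a.len_dvd hj))
      (c.L_dvd h.1) ht
  · have hg := (T.hρ T.k).2 (by omega)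
    refine ⟨fun h1 => absurd ?_ h, fun h1 => absurd ?_ h⟩
    · have h2 := c.col_of_mod h1.1
      obtain ⟨j', g1, g2, g3, g4, g5⟩ := a.cover (k := T.k) (p := (a.P j + t) / c.L T.k) (by omega)
        (c.node_le (by omega) (by omega)) (h2.1 ▸ hg)
      have hp := c.L_pos T.k
      obtain rfl : j' = j := a.idx_unique (b := a.P j + t) g1 hj (by omega) (by omega) (by omega)
        (by omega)
      exact ⟨g2, g3⟩
    · have h2 : T.k ≤ c.lev (a.Q j) := by
        by_contra h3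
        exact c.no_fl (by omega) hg hQ (by omega) ht h1.1
      refine ⟨h2, ?_⟩
      have h3 := c.col_of_mod h1.1
      have h4 := (c.carry T.hρ (j := T.k) (by omega) _).2 h3.1
      rw [h3.2] at h4
      have h5 : c.L T.k ∣ c.len (a.Q j) - t := by
        have h6 : c.L T.k ∣ a.Q j + t := h3.2 ▸ Dvd.intro_left _ rfl
        exact Nat.dvd_sub (c.L_dvd h2) ((Nat.dvd_add_right ((c.L_dvd h2).trans hQ.2)).1 h6)
      have h6 := Nat.le_of_dvd (by omega) h5
      exact a.alQ T.hρ hj (h4.mono dvd_rfl (by omega) (by omega))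

theorem ct_tr (T : c.TD) {j t : ℕ} (hj : j < a.N) (ht : t ≤ c.len (a.Q j)) :
    T.ct a.y (a.P j + t) + T.ct c.x (a.Q j) = T.ct c.x (a.Q j + t) + T.ct a.y (a.P j) :=
  c.cnt_add _ _ _ _ _ _ _ _ (fun u hu => a.tr T hj (by omega))

theorem w_tr (T : c.TD) {j : ℕ} (hj : j < a.N) :
    T.w (a.P j + c.len (a.Q j)) + T.w (a.Q j) = T.w (a.Q j + c.len (a.Q j)) + T.w (a.P j) := by
  by_cases h1 : T.w (a.P j + c.len (a.Q j)) = T.w (a.P j)
  · by_cases h2 : T.w (a.Q j + c.len (a.Q j)) = T.w (a.Q j)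
    · omega
    · rw [TD.w_eq_iff, not_not] at h2
      exact T.w_shift _ ((a.alQ T.hρ hj h2).of_dvd (c.L_dvd (Nat.le_succ _)))
  · rw [TD.w_eq_iff, not_not] at h1
    exact T.w_shift _ ((a.alP T.hρ hj h1).of_dvd (c.L_dvd (Nat.le_succ _)))

theorem test_aux (T : c.TD) : T.ct a.y (c.L c.K) = T.ct c.x (c.L c.K) ∧ ∀ j, j < a.N →
    T.w (a.Q j + c.len (a.Q j)) ≠ T.w (a.Q j) →
    T.ct a.y (a.P j) + T.w (a.Q j) = T.ct c.x (a.Q j) + T.w (a.P j) := by
  obtain ⟨B, hB⟩ : ∃ B, B = 3 * c.L c.K := ⟨_, rfl⟩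
  have hA := T.adm B
  obtain ⟨Nn, h0, h1, h2, h3⟩ := a.had _ _ _ hA
  have hR := T.R_pos
  have h4 : ∀ j, j ≤ a.N → Nn j = T.nD B a.y (a.P j) := by
    intro j
    induction j with
    | zero =>
      intro _
      rw [h0, a.P0]
      simp [TD.nD, TD.ct, cnt]
    | succ j ih =>
      intro hj
      have h5 := h3 j hj
      have h6 := congrArg List.length h5.2
      simp only [sg_length] at h6
      have h7 := ih (by omega)
      have h8 := hA.mono _ (a.hQ j hj)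
      have hw := a.w_tr T hj
      have hc := a.ct_tr T hj le_rfl
      rw [a.Ps j hj]
      unfold TD.nD at h6 h7 h8 ⊢
      have g1 : B * T.w (a.P j + c.len (a.Q j)) + B * T.w (a.Q j) =
          B * T.w (a.Q j + c.len (a.Q j)) + B * T.w (a.P j) := by
        rw [← Nat.mul_add, ← Nat.mul_add, hw]
      have g2 : T.R * (B * T.w (a.P j + c.len (a.Q j)) + T.ct a.y (a.P j + c.len (a.Q j)) + T.c0) +
          T.R * (B * T.w (a.Q j) + T.ct c.x (a.Q j) + T.c0) =
          T.R * (B * T.w (a.Q j + c.len (a.Q j)) + T.ct c.x (a.Q j + c.len (a.Q j)) + T.c0) +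
          T.R * (B * T.w (a.P j) + T.ct a.y (a.P j) + T.c0) := by
        rw [← Nat.mul_add, ← Nat.mul_add]
        congr 1
        omega
      omega
  constructor
  · have h5 := h4 a.N le_rfl
    rw [h1, a.PN] at h5
    unfold TD.nD at h5
    have h6 := Nat.eq_of_mul_eq_mul_left hR (Nat.add_left_cancel h5)
    omega
  · intro j hj hw
    have hQ := a.hQ j hj
    have h5 := h3 j hj
    have h6 := congrArg List.length h5.2
    simp only [sg_length] at h6
    have h8 := hA.mono _ hQ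
    obtain ⟨Λ, hΛ⟩ : ∃ Λ, T.nD B c.x (a.Q j + c.len (a.Q j)) = T.nD B c.x (a.Q j) + Λ :=
      ⟨_, (Nat.add_sub_cancel' h8.le).symm⟩
    have h9 : Nn (j + 1) = Nn j + Λ := by omega
    have htop := hA.top
    have h10 : T.nD B c.x (a.Q j + c.len (a.Q j)) ≤ T.nD B c.x (c.L c.K) := by
      obtain ⟨W, hW⟩ := c.exists_tile (Or.inl rfl) _ _ (c.atom_bd hQ) (c.atom_le hQ) le_rfl
      exact (hW.flat (fun _ => ()) _ hA.mono).1
    have h11 := h2 (j + 1)
    have h12 : Cross (T.MD B (T.k + 2)) (T.nD B c.x (a.Q j)) (T.nD B c.x (a.Q j) + Λ) := by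
      rw [T.MD_le B le_rfl, ← hΛ]
      by_contra h
      change ¬ Cross T.R _ _ at h
      rw [not_cross_iff hR h8.le, T.nD_div_R B (Or.inr hQ), T.nD_div_R B (c.atom_bd hQ)] at h
      have g1 := (T.dd_bd (Or.inr hQ)).2
      have g2 := T.w_mono (Nat.le_add_right (a.Q j) (c.len (a.Q j)))
      have g3 : (B + 2) * (T.w (a.Q j) + 1) ≤ (B + 2) * T.w (a.Q j + c.len (a.Q j)) :=
        Nat.mul_le_mul_left _ (by omega)
      rw [Nat.mul_succ] at g3
      omega
    have h13 := h5.2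
    rw [hΛ, h9] at h13
    have h14 := gz_G2 (T.MD_chain B) (by omega) (by omega) h13 h12
    rw [T.MD_gt B le_rfl, h4 j hj.le, T.nD_eq, T.nD_eq] at h14
    have h15 : a.P j ≡ a.Q j [MOD T.R] := by
      rw [Ne, TD.w_eq_iff, not_not] at hw
      exact (a.alQ T.hρ hj hw).of_dvd (c.L_dvd (Nat.le_succ _))
    have h16 : (a.P j + T.κ) % T.R = (a.Q j + T.κ) % T.R := h15.add_right _
    rw [h16, Nat.mul_comm (B + 2)] at h14
    have h17 := Nat.ModEq.mul_left_cancel' hR.ne' (Nat.ModEq.add_left_cancel' _ h14)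
    have h18 : T.ct c.x (a.Q j) + T.w (a.P j) ≡ T.ct a.y (a.P j) + T.w (a.Q j) [MOD B + 2] := by
      have g1 := (h17.add_right (T.w (a.P j) + T.w (a.Q j)))
      rw [show (B + 1) * T.w (a.Q j) + T.ct c.x (a.Q j) + T.c0 + (T.w (a.P j) + T.w (a.Q j)) =
          (T.ct c.x (a.Q j) + T.w (a.P j) + T.c0) + (B + 2) * T.w (a.Q j) by ring,
        show (B + 1) * T.w (a.P j) + T.ct a.y (a.P j) + T.c0 + (T.w (a.P j) + T.w (a.Q j)) =
          (T.ct a.y (a.P j) + T.w (a.Q j) + T.c0) + (B + 2) * T.w (a.P j) by ring] at g1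
      unfold Nat.ModEq at g1
      rw [Nat.add_mul_mod_self_left, Nat.add_mul_mod_self_left] at g1
      exact Nat.ModEq.add_right_cancel' _ g1
    have b1 : T.ct c.x (a.Q j) ≤ a.Q j := c.cnt_le _ _ _ _ _
    have b2 : T.ct a.y (a.P j) ≤ a.P j := c.cnt_le _ _ _ _ _
    have b3 : T.w (a.Q j) ≤ a.Q j + T.κ := Nat.div_le_self _ _
    have b4 : T.w (a.P j) ≤ a.P j + T.κ := Nat.div_le_self _ _
    have b5 : T.κ < c.L c.K := c.kap_lt _ _
    have b6 := c.atom_le hQ
    have b7 := a.P_le hj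
    exact (Nat.ModEq.eq_of_lt_of_lt h18 (by omega) (by omega)).symm

theorem test_rho (T : c.TD) (G : ℕ) (hG : (G + 1) * T.R ≤ c.L c.K) :
    T.ct a.y (G * T.R + T.ρ (T.k + 1) * c.L (T.k + 1)) + T.e = G + 1 := by
  have hk := T.hk
  have hr := (T.hρ (T.k + 1)).1
  have hR := T.R_pos
  have hp := c.L_pos (T.k + 1)
  have hc := c.col_lt hr
  change _ ≤ T.R at hc
  have e1 : (G * c.r (T.k + 1) + T.ρ (T.k + 1)) * c.L (T.k + 1) =
      G * T.R + T.ρ (T.k + 1) * c.L (T.k + 1) := by rw [T.R_eq]; ring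
  have e2 : (G * c.r (T.k + 1) + T.ρ (T.k + 1)) % c.r (T.k + 1) = T.ρ (T.k + 1) := by
    rw [Nat.mul_comm, Nat.mul_add_mod, Nat.mod_eq_of_lt hr]
  obtain ⟨j, hj, g1, g2, g3, g4⟩ := a.cover (k := T.k + 1) (p := G * c.r (T.k + 1) + T.ρ (T.k + 1))
    (by omega) (by rw [Nat.succ_mul, e1]; rw [Nat.succ_mul] at hG; omega)
    (by rw [e2]; exact (T.hρ _).2 (by omega))
  have g5 := (c.carry T.hρ (j := T.k + 1) (by omega) _).2 e2
  rw [e1] at g3 g4 g5
  have g6 : a.P j ≡ a.Q j [MOD T.R] := g2.of_dvd (c.L_dvd (Nat.le_succ _))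
  have g7 : T.w (a.Q j + c.len (a.Q j)) ≠ T.w (a.Q j) := by
    rw [Ne, TD.w_eq_iff, not_not, Nat.add_right_comm]
    refine Cross.shift (a := a.P j + T.κ) ?_ (g6.add_right _)
    exact g5.mono dvd_rfl (by unfold TD.κ; omega) (by unfold TD.κ; omega)
  have g8 := (a.test_aux T).2 j hj g7
  obtain ⟨t, ht⟩ : ∃ t, G * T.R + T.ρ (T.k + 1) * c.L (T.k + 1) = a.P j + t :=
    ⟨_, (Nat.add_sub_cancel' g3).symm⟩
  have g9 := a.ct_tr T hj (t := t) (by omega)
  have g10 := T.w_shift t g6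
  have g11 : (a.Q j + t) % T.R = T.ρ (T.k + 1) * c.L (T.k + 1) := by
    have : (a.P j + t) % T.R = (a.Q j + t) % T.R := g6.add_right t
    rw [← this, ← ht, Nat.mul_comm G, Nat.mul_add_mod, Nat.mod_eq_of_lt (by omega)]
  have g12 : a.Q j + t = (a.Q j + t) / T.R * T.R + T.ρ (T.k + 1) * c.L (T.k + 1) := by
    rw [← g11, Nat.div_add_mod']
  have g13 := c.atom_le (a.hQ j hj)
  have g14 := T.dd_val ((a.Q j + t) / T.R) (T.ρ (T.k + 1) * c.L (T.k + 1))
    (c.node_le hk (by omega)) (by omega) (Or.inl le_rfl)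
  rw [← g12] at g14
  have g15 := (T.w_val G _).1 le_rfl
  rw [ht] at g15 ⊢
  have g16 := g14.2.2.2 rfl
  have g17 := g14.1
  unfold TD.c0 at g17
  omega

theorem test_node (T : c.TD) (G : ℕ) (hG : G * T.R ≤ c.L c.K) : T.ct a.y (G * T.R) = G := by
  have hs := (T.hρ T.k).1
  have hc := c.col_lt hs
  have hc' := c.col_lt (T.hρ (T.k + 1)).1
  change _ ≤ T.R at hc'
  have hp := c.L_pos T.k
  rcases T.side with ⟨he, h⟩ | ⟨he, h⟩
  · rcases G with _ | G
    · simp [TD.ct, cnt]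
    · have h1 := a.test_rho T G hG
      have h2 := c.cnt_none a.y T.k (T.ρ T.k) T.D (G * T.R + T.ρ (T.k + 1) * c.L (T.k + 1))
        (T.R - T.ρ (T.k + 1) * c.L (T.k + 1)) (by
          intro t ht hf
          rw [Nat.add_assoc] at hf
          obtain ⟨i, -, h3, h4⟩ := (c.fl_iff a.y T.D hs G (by change _ < T.R; omega)).1 hf
          have h5 : (i + 1) * c.L (T.k + 1) ≤ T.ρ (T.k + 1) * c.L (T.k + 1) :=
            Nat.mul_le_mul_right _ (h _ _ h4)
          rw [Nat.succ_mul] at h5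
          omega)
      rw [show G * T.R + T.ρ (T.k + 1) * c.L (T.k + 1) + (T.R - T.ρ (T.k + 1) * c.L (T.k + 1)) =
        (G + 1) * T.R by rw [Nat.succ_mul]; omega] at h2
      unfold TD.ct at h1 ⊢
      omega
  · rcases hG.eq_or_lt with hG' | hG'
    · rw [hG', (a.test_aux T).1, ← hG', T.ct_node G hG]
    · have h0 := c.node_le T.hk hG'
      change (G * T.R / T.R + 1) * T.R ≤ _ at h0
      rw [Nat.mul_div_cancel _ T.R_pos] at h0
      have h1 := a.test_rho T G h0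
      have h2 := c.cnt_none a.y T.k (T.ρ T.k) T.D (G * T.R) (T.ρ (T.k + 1) * c.L (T.k + 1)) (by
          intro t ht hf
          obtain ⟨i, -, h3, h4⟩ := (c.fl_iff a.y T.D hs G (by change _ < T.R; omega)).1 hf
          have h5 : T.ρ (T.k + 1) * c.L (T.k + 1) ≤ i * c.L (T.k + 1) :=
            Nat.mul_le_mul_right _ (h _ _ h4).le
          omega)
      unfold TD.ct at h1 ⊢
      omega

theorem test_pass (T : c.TD) (G : ℕ) (hG : (G + 1) * T.R ≤ c.L c.K) :
    ∃! i, i < c.r (T.k + 1) ∧ T.D i (blk c.r a.y T.k G i (T.ρ T.k)) := by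
  classical
  have hs := (T.hρ T.k).1
  have h1 := a.test_node T (G + 1) hG
  have h2 := a.test_node T G (by rw [Nat.succ_mul] at hG; omega)
  unfold TD.ct cnt at h1 h2
  rw [Nat.succ_mul, Nat.count_add, h2] at h1
  obtain ⟨t, ⟨h3, h4⟩, h5⟩ := unique_of_count (Nat.add_left_cancel h1)
  obtain ⟨i, g1, rfl, g2⟩ := (c.fl_iff a.y T.D hs G h3).1 h4
  refine ⟨i, ⟨g1, g2⟩, fun i' hi' => ?_⟩
  have hc := c.col_lt hs
  have hc' := c.col_lt hi'.1
  have hp := c.L_pos T.k
  have g3 : i' * c.L (T.k + 1) + T.ρ T.k * c.L T.k < T.R := by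
    change _ ≤ T.R at hc'
    omega
  have := h5 _ ⟨g3, (c.fl_iff a.y T.D hs G g3).2 ⟨i', hi'.1, rfl, hi'.2⟩⟩
  exact Nat.eq_of_mul_eq_mul_right (c.L_pos _) (Nat.add_right_cancel this)

theorem test_pass' {k s : ℕ} (hk : k + 2 ≤ c.K) (hs : s < c.r k) (hg : c.GoodCol k s)
    (D : ℕ → List A → Prop)
    (h1 : (∀ i w, D i w → i < c.h (k + 1)) ∨ (∀ i w, D i w → c.h (k + 1) ≤ i))
    (h2 : ∀ G, (G + 1) * c.L (k + 2) ≤ c.L c.K → ∃! i, i < c.r (k + 1) ∧ D i (blk c.r c.x k G i s))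
    (G : ℕ) (hG : (G + 1) * c.L (k + 2) ≤ c.L c.K) :
    ∃! i, i < c.r (k + 1) ∧ D i (blk c.r a.y k G i s) := by
  obtain ⟨ρ0, hρ0⟩ := c.exists_rho
  have h3 : ∀ G, ∃ d, (G + 1) * c.L (k + 2) ≤ c.L c.K →
      d < c.r (k + 1) ∧ ∀ i, i < c.r (k + 1) → (D i (blk c.r c.x k G i s) ↔ i = d) := by
    intro G
    by_cases hG : (G + 1) * c.L (k + 2) ≤ c.L c.K
    · obtain ⟨d, hd, hu⟩ := h2 G hG
      exact ⟨d, fun _ => ⟨hd.1, fun i hi => ⟨fun h => hu i ⟨hi, h⟩, fun h => h ▸ hd.2⟩⟩⟩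
    · exact ⟨0, fun h => absurd h hG⟩
  choose δ hδ using h3
  have h4 : ∃ s' e, s' < c.r (k + 1) ∧ c.GoodCol (k + 1) s' ∧
      ((e = 0 ∧ ∀ i w, D i w → i < s') ∨ (e = 1 ∧ ∀ i w, D i w → s' < i)) := by
    rcases h1 with h1 | h1
    · obtain ⟨s', g1, g2, g3⟩ := c.exists_good_in (k := k + 1) (by omega) _ _ (c.hm2 (k + 1))
      exact ⟨s', 0, g2, g3, Or.inl ⟨rfl, fun i w h => lt_of_lt_of_le (h1 i w h) g1⟩⟩
    · obtain ⟨s', g1, g2, g3⟩ := c.exists_good_in (k := k + 1) (by omega) 0 (c.h (k + 1))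
        (by have := c.hm1 (k + 1); omega)
      exact ⟨s', 1, by have := c.hm2 (k + 1); omega, g3,
        Or.inr ⟨rfl, fun i w h => lt_of_lt_of_le g2 (h1 i w h)⟩⟩
  obtain ⟨s', e, g1, g2, g3⟩ := h4
  have hρ := (hρ0.update hs hg).update g1 g2
  generalize hρρ : Function.update (Function.update ρ0 k s) (k + 1) s' = ρ at hρ
  have e1 : ρ k = s := by
    rw [← hρρ, Function.update_of_ne (by omega), Function.update_self]
  have e2 : ρ (k + 1) = s' := by rw [← hρρ, Function.update_self]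
  subst e1 e2
  exact a.test_pass ⟨k, ρ, D, e, δ, hk, hρ, hδ, g3⟩ G hG

theorem vk : ∀ d k, k + 1 + d = c.K → ∀ p, (p + 1) * c.L k ≤ c.L c.K → c.GoodCol k (p % c.r k) →
    sg a.y (p * c.L k) (p * c.L k + c.L k) = sg c.x (p * c.L k) (p * c.L k + c.L k) := by
  classical
  intro d
  induction d with
  | zero =>
    intro k hk p hp hg
    obtain ⟨b, h1, h2, h3⟩ := a.cover_sg (by omega) hp hg
    have h4 := c.two_L c.K
    have h5 := c.L_pos k
    rw [Nat.succ_mul] at hp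
    rw [show k + 2 = c.K + 1 by omega] at h2
    rw [h3, Nat.ModEq.eq_of_lt_of_lt h2 (by omega) (by omega)]
  | succ d ih =>
    intro k hk p hp hg
    have ih' := ih (k + 1) (by omega)
    have hr := c.r_two k
    have hr' := c.r_two (k + 1)
    have hs : p % c.r k < c.r k := Nat.mod_lt _ (by omega)
    generalize hss : p % c.r k = s at hs hg
    obtain ⟨T, t1, t2, t3⟩ := c.gw.test k s (by omega) hs
    have hL := c.L_pos k
    have hL1 := c.L_pos (k + 1)
    have hL2 := c.L_pos (k + 2)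
    have hc := c.col_lt hs
    have hG : (p / c.r k / c.r (k + 1) + 1) * c.L (k + 2) ≤ c.L c.K := by
      have h1 := c.node_le (k := k + 2) (Q := p * c.L k) (by omega)
        (by rw [Nat.succ_mul] at hp; omega)
      rwa [c.L_succ (k + 1), c.L_succ k, show c.r (k + 1) * (c.r k * c.L k) =
        c.L k * (c.r k * c.r (k + 1)) by ring, ← Nat.div_div_eq_div_mul, Nat.mul_div_cancel _ hL,
        ← Nat.div_div_eq_div_mul, show c.L k * (c.r k * c.r (k + 1)) = c.L (k + 2) by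
          rw [c.L_succ (k + 1), c.L_succ k]; ring] at h1
    generalize hGG : p / c.r k / c.r (k + 1) = G at hG
    have hpos : ∀ i, G * c.L (k + 2) + (i * c.L (k + 1) + s * c.L k) =
        ((G * c.r (k + 1) + i) * c.r k + s) * c.L k := by
      intro i
      rw [c.L_succ (k + 1), c.L_succ k]
      ring
    have key := t3 G hG (fun i => blk c.r a.y k G i s) ?_ ?_ ?_ (p / c.r k % c.r (k + 1))
      (Nat.mod_lt _ (by omega))
    · simp only [c.blk_eq, hpos] at key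
      rwa [← hGG, Nat.div_add_mod', ← hss, Nat.div_add_mod'] at key
    · intro i hi
      have hc' := c.col_lt hi
      change _ ≤ c.L (k + 2) at hc'
      obtain ⟨b, h1, h2, h3⟩ := a.cover_sg (k := k) (p := (G * c.r (k + 1) + i) * c.r k + s)
        (by omega) (by rw [Nat.succ_mul, ← hpos]; rw [Nat.succ_mul] at hG; omega)
        (by rw [Nat.mul_comm, Nat.mul_add_mod, Nat.mod_eq_of_lt hs]; exact hg)
      rw [← hpos] at h2 h3
      have h4 : b % c.L (k + 2) = i * c.L (k + 1) + s * c.L k := by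
        rw [← h2, Nat.mul_comm G, Nat.mul_add_mod, Nat.mod_eq_of_lt (by omega)]
      refine ⟨b / c.L (k + 2), c.node_le (by omega) (by omega), ?_⟩
      rw [c.blk_eq, c.blk_eq, h3, ← h4, Nat.div_add_mod']
    · intro D hD
      exact a.test_pass' (by omega) hs hg D (t1 D hD) (t2 D hD) G hG
    · refine ⟨c.C.image (fun a => a / c.L (k + 1) % c.r (k + 1)),
        Finset.card_image_le.trans c.hC, fun i hi hE => ?_⟩
      have hc' := c.col_lt hi
      change _ ≤ c.L (k + 2) at hc'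
      have e1 : (G * c.r (k + 1) + i) * c.L (k + 1) = G * c.L (k + 2) + i * c.L (k + 1) := by
        rw [c.L_succ (k + 1)]; ring
      have h1 := ih' (G * c.r (k + 1) + i) (by
        rw [Nat.succ_mul, e1]; rw [Nat.succ_mul] at hG; omega) (by
        rw [Nat.mul_comm, Nat.mul_add_mod, Nat.mod_eq_of_lt hi]
        exact c.good_of_not_mem (by omega) hE)
      rw [e1, sg_add_eq_iff] at h1
      rw [c.blk_eq, c.blk_eq, sg_add_eq_iff]
      intro t ht
      have := h1 (s * c.L k + t) (by omega)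
      simpa only [Nat.add_assoc] using this

theorem final (b : ℕ) (hb : b < c.L c.K) : a.y b = c.x b := by
  have hK := c.hK
  have h0 : c.L 0 = 1 := rfl
  have := a.vk (c.K - 1) 0 (by omega) b (by rw [h0]; omega) (fun p _ _ => c.not_broken_zero p)
  rw [h0, Nat.mul_one, sg_succ, sg_succ] at this
  simpa using this

end Arr

theorem list_core [Inhabited A] (W : List ℕ) (hW : ∀ Q ∈ W, c.IsAtom Q)
    (h : ∀ M J n, c.Adm M J n → W.flatMap (fun Q => sg (gz M J) (n Q) (n (Q + c.len Q))) =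
      sg (gz M J) (n 0) (n (c.L c.K))) :
    W.flatMap (fun Q => sg c.x Q (Q + c.len Q)) = sg c.x 0 (c.L c.K) := by
  obtain ⟨F, hF⟩ : ∃ F : ℕ → List A, F = fun Q => sg c.x Q (Q + c.len Q) := ⟨_, rfl⟩
  rw [← hF]
  obtain ⟨u1, -, u3⟩ := unflatten W F (fun t => (W.flatMap F).getD t default) (Nat.zero_le _)
    (sg_getD _ default).symm
  have hget : ∀ j (hj : j < W.length), W.getD j 0 = W[j] := fun j hj => by
    simp [List.getD_eq_getElem?_getD, List.getElem?_eq_getElem hj]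
  have hPs : ∀ j, j < W.length → ps W F 0 (j + 1) = ps W F 0 j + c.len (W.getD j 0) := by
    intro j hj
    rw [ps_succ W F 0 j hj, hget j hj, hF]
    simp
  let a : c.Arr :=
    { N := W.length
      Q := fun j => W.getD j 0
      P := ps W F 0
      y := fun t => (W.flatMap F).getD t default
      hQ := fun j hj => by rw [hget j hj]; exact hW _ (List.getElem_mem hj)
      P0 := ps_zero _ _ _
      Ps := hPs
      hy := fun j hj t ht => by
        have h1 := u3 j hj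
        rw [hPs j hj, ← hget j hj] at h1
        conv_lhs at h1 => rw [hF]
        exact ((sg_add_eq_iff _ _ _ _ _).1 h1 t ht).symm
      had := fun M J n hA => by
        obtain ⟨W0, hW0⟩ := c.exists_tile (Or.inl rfl) _ 0 c.bd_zero (Nat.zero_le _) le_rfl
        obtain ⟨v1, v2, v3⟩ := unflatten W _ _ (hW0.flat (fun _ => ()) n hA.mono).1 (h M J n hA)
        refine ⟨_, ps_zero _ _ _, v1, v2, fun j hj => ⟨?_, ?_⟩⟩
        · rw [ps_succ _ _ _ j hj]; omega
        · rw [hget j hj]; exact v3 j hj }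
  have h1 : (W.flatMap F).length = c.L c.K := u1.symm.trans a.PN
  rw [← sg_getD (W.flatMap F) default, h1, sg_eq_iff]
  exact ⟨rfl, fun t ht => a.final _ (by omega)⟩

end Ctx

theorem core {A : Type} [Inhabited A] {m : ℕ} {r h : ℕ → ℕ} {K : ℕ} {x : ℕ → A}
    (hm1 : ∀ k, m < h k) (hm2 : ∀ k, h k + m < r k) (hK : 1 ≤ K) (gw : GW m r h K x)
    (u v : List ℕ) (hu : u.length + 1 ≤ m) (huv : ∀ z ∈ v, z ∈ u) (hI : GIso u v)
    (φ : ℕ → List A) (hφ : ∀ z ∈ u, φ z ≠ []) (hin : u.flatMap φ <:+: sg x 0 (LL r K)) :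
    v.flatMap φ = u.flatMap φ := by
  classical
  obtain ⟨p, q, hpq⟩ := hin
  obtain ⟨s1, s2, s3⟩ := sg_split (Nat.zero_le _) hpq
  obtain ⟨s4, s5, s6⟩ := sg_split (Nat.zero_le _) s2
  simp only [Nat.zero_add] at s1 s2 s3 s4 s5 s6
  obtain ⟨u1, u2, u3⟩ := unflatten u φ x s4 s6
  generalize (p ++ u.flatMap φ).length = β at *
  generalize p.length = α at *
  let c : Ctx A := ⟨m, r, h, K, x, (Finset.range (u.length + 1)).image (ps u φ α), hm1, hm2, hK, gw,
    Finset.card_image_le.trans (by simpa using hu)⟩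
  have hC : ∀ j, j ≤ u.length → ps u φ α j ∈ c.C := fun j hj =>
    Finset.mem_image_of_mem _ (Finset.mem_range.2 (by omega))
  have hocc : ∀ z, ∃ a W, z ∈ u → a ∈ c.C ∧ a + (φ z).length ∈ c.C ∧ a + (φ z).length ≤ c.L c.K ∧
      φ z = sg x a (a + (φ z).length) ∧ c.Tile a (a + (φ z).length) W := by
    intro z
    by_cases hz : z ∈ u
    · obtain ⟨j, hj, rfl⟩ := List.getElem_of_mem hz
      have e := ps_succ u φ α j hj
      have h1 : ps u φ α j + (φ u[j]).length ≤ c.L c.K := by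
        rw [← e]; exact (u2 _).trans s1
      obtain ⟨W, hW⟩ := c.exists_tile (c.cut_bd (e ▸ hC (j + 1) hj) h1) _ _
        (c.cut_bd (hC j hj.le) (by omega)) (by omega) le_rfl
      exact ⟨_, W, fun _ => ⟨hC j hj.le, e ▸ hC (j + 1) hj, h1, e ▸ u3 j hj, hW⟩⟩
    · exact ⟨0, [], fun h => absurd h hz⟩
  choose oc ψ hoc using hocc
  have hα : α ∈ c.C := by simpa [ps_zero] using hC 0 (Nat.zero_le _)
  have hβ : β ∈ c.C := u1 ▸ hC u.length le_rfl
  obtain ⟨W1, hW1⟩ := c.exists_tile (c.cut_bd hα (s4.trans s1)) _ 0 c.bd_zero (Nat.zero_le _) le_rfl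
  obtain ⟨W2, hW2⟩ := c.exists_tile (Or.inl rfl) _ β (c.cut_bd hβ s1) s1 le_rfl
  have hid : ∀ Q, c.IsAtom Q → id Q < id (Q + c.len Q) := fun Q _ => by
    have := c.len_pos Q
    simp only [id]
    omega
  have main := c.list_core (W1 ++ v.flatMap ψ ++ W2) ?_ ?_
  · rw [List.flatMap_append, List.flatMap_append, List.flatMap_assoc] at main
    have e1 := (hW1.flat x id hid).2.2
    have e2 := (hW2.flat x id hid).2.2
    simp only [id] at e1 e2
    have e3 : v.flatMap (fun z => (ψ z).flatMap (fun Q => sg c.x Q (Q + c.len Q))) = v.flatMap φ := by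
      apply List.flatMap_congr
      intro z hz
      obtain ⟨-, -, -, g1, g2⟩ := hoc z (huv z hz)
      rw [g1]
      exact (g2.flat x id hid).2.2
    change W1.flatMap (fun Q => sg x Q (Q + c.len Q)) ++ _ ++
      W2.flatMap (fun Q => sg x Q (Q + c.len Q)) = sg x 0 (LL r K) at main
    rw [e1, e2, e3, ← s5, ← hpq] at main
    change _ ++ sg x β (LL r K) = _ at main
    rw [← s3] at main
    exact List.append_cancel_left (List.append_cancel_right main)
  · intro Q hQ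
    rcases List.mem_append.1 hQ with hQ | hQ
    · rcases List.mem_append.1 hQ with hQ | hQ
      · exact hW1.atom Q hQ
      · obtain ⟨z, hz, hQ⟩ := List.mem_flatMap.1 hQ
        exact (hoc z (huv z hz)).2.2.2.2.atom Q hQ
    · exact hW2.atom Q hQ
  · intro M J n hA
    rw [List.flatMap_append, List.flatMap_append, List.flatMap_assoc]
    obtain ⟨a1, -, a2⟩ := hW1.flat (gz M J) n hA.mono
    obtain ⟨a3, -, a4⟩ := hW2.flat (gz M J) n hA.mono
    rw [a2, a4]
    have e1 : v.flatMap (fun z => (ψ z).flatMap (fun Q => sg (gz M J) (n Q) (n (Q + c.len Q)))) =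
        v.flatMap (fun z => sg (gz M J) (n (oc z)) (n (oc z + (φ z).length))) := by
      apply List.flatMap_congr
      intro z hz
      exact ((hoc z (huv z hz)).2.2.2.2.flat _ n hA.mono).2.2
    obtain ⟨b1, b2⟩ := flatten_sg u (fun z => sg (gz M J) (n (oc z)) (n (oc z + (φ z).length)))
      (gz M J) (fun j => n (ps u φ α j)) (by
        intro j hj
        have e := ps_succ u φ α j hj
        have h1 : ps u φ α (j + 1) ≤ c.L c.K := (u2 _).trans s1
        obtain ⟨W, hW⟩ := c.exists_tile (c.cut_bd (hC (j + 1) hj) h1) _ _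
          (c.cut_bd (hC j hj.le) (by omega)) (by omega) le_rfl
        exact (hW.flat (fun _ => ()) n hA.mono).1) (by
        intro j hj
        have e := ps_succ u φ α j hj
        have h1 : ps u φ α (j + 1) ≤ c.L c.K := (u2 _).trans s1
        obtain ⟨g1, g2, g3, g4, -⟩ := hoc _ (List.getElem_mem hj)
        have g5 := u3 j hj
        rw [e] at g5 h1 ⊢
        exact c.sg_transfer hA g1 g2 (hC j hj.le) (e ▸ hC (j + 1) hj) g3 h1 (g4.symm.trans g5))
    rw [ps_zero, u1] at b1 b2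
    have htop := hA.top
    rw [e1, hI M J hA.chain _ (n α) (n β) ?_ b1 (by omega) b2, b2, sg_append _ a1 b1,
      sg_append _ (a1.trans b1) a3]
    intro z hz hnil
    obtain ⟨-, -, -, -, g2⟩ := hoc z hz
    have h1 := (g2.flat (gz M J) n hA.mono).2.1 (by
      have := List.length_pos_iff.2 (hφ z hz)
      omega)
    have h2 := congrArg List.length hnil
    simp only [sg_length, List.length_nil] at h2
    omega

end Pool.Agent.H541Z
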