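import Pool.Agent.H28Z.DaDefs

open Metric Set Filter Topology

noncomputable section

namespace Pool.Agent.H28Z.Da

open Classical in
/-- Extension by zero. -/
def h541ext (Ω : Set ℂ) : BoundedContinuousFunction Ω ℂ →ₗ[ℂ] (ℂ → ℂ) where
  toFun f := fun z => if h : z ∈ Ω then f ⟨z, h⟩ else 0
  map_add' f g := by
    funext z
    by_cases h : z ∈ Ω <;> simp [h]
  map_smul' c f := by
    funext z
    by_cases h : z ∈ Ω <;> simp [h]

theorem h541ext_apply (Ω : Set ℂ) (f : BoundedContinuousFunction Ω ℂ) (z : ℂ) (h : z ∈ Ω) :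
    h541ext Ω f z = f ⟨z, h⟩ := by
  simp [h541ext, h]

/-- The subspace. -/
def h541Y (Ω : Set ℂ) : Submodule ℂ (BoundedContinuousFunction Ω ℂ) where
  carrier := {f | DifferentiableOn ℂ (h541ext Ω f) Ω ∧
    ∀ ε : ℝ, 0 < ε → ∃ R : ℝ, ∀ z ∈ Ω, R ≤ ‖z‖ → ‖h541ext Ω f z‖ ≤ ε}
  zero_mem' := by
    refine ⟨?_, fun ε hε => ⟨0, fun z _ _ => ?_⟩⟩
    · rw [map_zero]; exact differentiableOn_const 0
    · rw [map_zero]; simpa using hε.le
  add_mem' := by
    rintro f g ⟨hf, hf'⟩ ⟨hg, hg'⟩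
    refine ⟨?_, fun ε hε => ?_⟩
    · rw [map_add]; exact hf.add hg
    · obtain ⟨R1, h1⟩ := hf' (ε / 2) (by positivity)
      obtain ⟨R2, h2⟩ := hg' (ε / 2) (by positivity)
      refine ⟨max R1 R2, fun z hz hR => ?_⟩
      rw [map_add]
      have a := h1 z hz ((le_max_left _ _).trans hR)
      have b := h2 z hz ((le_max_right _ _).trans hR)
      calc ‖(h541ext Ω f + h541ext Ω g) z‖ ≤ ‖h541ext Ω f z‖ + ‖h541ext Ω g z‖ := norm_add_le _ _
        _ ≤ ε := by linarith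
  smul_mem' := by
    rintro c f ⟨hf, hf'⟩
    refine ⟨?_, fun ε hε => ?_⟩
    · rw [map_smul]; exact hf.const_smul c
    · obtain ⟨R, h1⟩ := hf' (ε / (‖c‖ + 1)) (by positivity)
      refine ⟨R, fun z hz hR => ?_⟩
      rw [map_smul]
      have a := h1 z hz hR
      have hc : 0 < ‖c‖ + 1 := by positivity
      calc ‖(c • h541ext Ω f) z‖ = ‖c‖ * ‖h541ext Ω f z‖ := by simp
        _ ≤ (‖c‖ + 1) * (ε / (‖c‖ + 1)) := by
          apply mul_le_mul (by linarith) a (norm_nonneg _) hc.le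
        _ = ε := by field_simp

theorem h541ext_sub (Ω : Set ℂ) (f g : BoundedContinuousFunction Ω ℂ) (z : ℂ) (h : z ∈ Ω) :
    dist (h541ext Ω f z) (h541ext Ω g z) ≤ dist f g := by
  rw [h541ext_apply Ω f z h, h541ext_apply Ω g z h]
  exact BoundedContinuousFunction.dist_coe_le_dist _

theorem h541Y_closed (Ω : Set ℂ) (hΩ : IsOpen Ω) :
    IsClosed (h541Y Ω : Set (BoundedContinuousFunction Ω ℂ)) := by
  refine isClosed_of_closure_subset fun f hf => ?_
  obtain ⟨u, hu, hlim⟩ := mem_closure_iff_seq_limit.1 hf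
  have hU : TendstoUniformlyOn (fun n => h541ext Ω (u n)) (h541ext Ω f) atTop Ω := by
    rw [Metric.tendstoUniformlyOn_iff]
    intro ε hε
    have := (Metric.tendsto_nhds.1 hlim) ε hε
    filter_upwards [this] with n hn z hz
    rw [dist_comm] at hn
    exact (h541ext_sub Ω f (u n) z hz).trans_lt hn
  refine ⟨?_, fun ε hε => ?_⟩
  · exact hU.tendstoLocallyUniformlyOn.differentiableOn
      (Eventually.of_forall fun n => (hu n).1) hΩ
  · have := (Metric.tendsto_nhds.1 hlim) (ε / 2) (by positivity)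
    obtain ⟨n, hn⟩ := this.exists
    obtain ⟨R, hR⟩ := (hu n).2 (ε / 2) (by positivity)
    refine ⟨R, fun z hz hz' => ?_⟩
    have a := hR z hz hz'
    have b := h541ext_sub Ω (u n) f z hz
    rw [dist_eq_norm] at b
    have c : ‖h541ext Ω f z‖ ≤ ‖h541ext Ω (u n) z‖ + ‖h541ext Ω (u n) z - h541ext Ω f z‖ := by
      have := norm_sub_le (h541ext Ω (u n) z) (h541ext Ω (u n) z - h541ext Ω f z)
      simpa using this
    linarith

/-- Translation as a continuous map. -/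
def h541sh (Ω : Set ℂ) (τ : ℂ) (hτ : τ ∈ Adm Ω) : C(Ω, Ω) where
  toFun z := ⟨z.1 + τ, hτ z.1 z.2⟩
  continuous_toFun := by fun_prop

theorem h541ext_comp (Ω : Set ℂ) (τ : ℂ) (hτ : τ ∈ Adm Ω) (f : BoundedContinuousFunction Ω ℂ)
    (z : ℂ) (h : z ∈ Ω) :
    h541ext Ω (f.compContinuous (h541sh Ω τ hτ)) z = h541ext Ω f (z + τ) := by
  rw [h541ext_apply Ω _ z h, h541ext_apply Ω f (z + τ) (hτ z h)]
  rfl

theorem h541sh_mem (Ω : Set ℂ) (τ : ℂ) (hτ : τ ∈ Adm Ω) (f : BoundedContinuousFunction Ω ℂ)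
    (hf : f ∈ h541Y Ω) : f.compContinuous (h541sh Ω τ hτ) ∈ h541Y Ω := by
  refine ⟨?_, fun ε hε => ?_⟩
  · have h1 : DifferentiableOn ℂ (fun z => h541ext Ω f (z + τ)) Ω :=
      hf.1.comp (differentiableOn_id.add_const τ) (fun z hz => hτ z hz)
    exact h1.congr fun z hz => h541ext_comp Ω τ hτ f z hz
  · obtain ⟨R, hR⟩ := hf.2 ε hε
    refine ⟨R + ‖τ‖, fun z hz hz' => ?_⟩
    rw [h541ext_comp Ω τ hτ f z hz]
    refine hR _ (hτ z hz) ?_
    have := norm_sub_le (z + τ) τ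
    simp only [add_sub_cancel_right] at this
    linarith

/-- Translation as a linear map. -/
def h541trL (Ω : Set ℂ) (τ : ℂ) (hτ : τ ∈ Adm Ω) : h541Y Ω →ₗ[ℂ] h541Y Ω where
  toFun f := ⟨f.1.compContinuous (h541sh Ω τ hτ), h541sh_mem Ω τ hτ f.1 f.2⟩
  map_add' f g := by
    ext z; rfl
  map_smul' c f := by
    ext z; rfl

/-- Translation as a continuous linear map. -/
def h541trC (Ω : Set ℂ) (τ : ℂ) (hτ : τ ∈ Adm Ω) : h541Y Ω →L[ℂ] h541Y Ω :=
  (h541trL Ω τ hτ).mkContinuous 1 fun f => by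
    rw [one_mul]
    change ‖f.1.compContinuous (h541sh Ω τ hτ)‖ ≤ ‖f.1‖
    exact (BoundedContinuousFunction.norm_le (norm_nonneg _)).2 fun z =>
      f.1.norm_coe_le_norm _

theorem exists_trSetup (Ω : Set ℂ) (hΩ : IsOpen Ω) :
    ∃ (Y : Submodule ℂ (BoundedContinuousFunction Ω ℂ)) (e : Y →ₗ[ℂ] (ℂ → ℂ)) (tr : ℂ → Y →L[ℂ] Y),
      IsClosed (Y : Set (BoundedContinuousFunction Ω ℂ)) ∧ TrSetup Ω e tr := by
  classical
  refine ⟨h541Y Ω, (h541ext Ω).comp (h541Y Ω).subtype,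
    fun τ => if h : τ ∈ Adm Ω then h541trC Ω τ h else 0, h541Y_closed Ω hΩ, ?_⟩
  refine ⟨fun f => f.2.1, fun f z hz => ?_, fun f M hM h => ?_, fun f => f.2.2, ?_, ?_⟩
  · change ‖h541ext Ω f.1 z‖ ≤ ‖f.1‖
    rw [h541ext_apply Ω _ z hz]
    exact f.1.norm_coe_le_norm _
  · change ‖f.1‖ ≤ M
    refine (BoundedContinuousFunction.norm_le hM).2 fun z => ?_
    have := h z.1 z.2
    change ‖h541ext Ω f.1 z.1‖ ≤ M at this
    rwa [h541ext_apply Ω _ z.1 z.2] at this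
  · rintro F hF ⟨M, hM⟩ hv
    have hc : Continuous fun z : Ω => F z.1 := hF.continuousOn.restrict
    let g : BoundedContinuousFunction Ω ℂ :=
      BoundedContinuousFunction.ofNormedAddCommGroup (fun z : Ω => F z.1) hc M
        (fun z => hM z.1 z.2)
    have hg : ∀ z ∈ Ω, h541ext Ω g z = F z := fun z hz => by
      rw [h541ext_apply Ω _ z hz]; rfl
    refine ⟨⟨g, hF.congr hg, fun ε hε => ?_⟩, hg⟩
    obtain ⟨R, hR⟩ := hv ε hε
    exact ⟨R, fun z hz hz' => by rw [hg z hz]; exact hR z hz hz'⟩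
  · intro τ hτ f z hz
    simp only [dif_pos hτ]
    exact h541ext_comp Ω τ hτ f.1 z hz

end Pool.Agent.H28Z.Da
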