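import Mathlib

set_option autoImplicit false

namespace Pool.Agent.H541Z

/-- rows: two copies of a grid -/
abbrev Rows (p g : ℕ) : Type := Fin 2 × (Fin p → ZMod g)

/-- two rows on a common line in direction `w` -/
def OnL {p g : ℕ} (w : Fin p) (a b : Rows p g) : Prop := a.1 = b.1 ∧ ∀ j, j ≠ w → a.2 j = b.2 j

/-- each value occurs exactly once on each line in direction `w` -/
def GoodZ {p g : ℕ} (w : Fin p) (z : Rows p g → ZMod g) : Prop := ∀ a c, ∃! b, OnL w a b ∧ z b = c

theorem goodZ_dist {p g : ℕ} {α : Type} (z z' : Fin p → Rows p g → ZMod g)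
    (hz : ∀ w, GoodZ w (z w)) (hz' : ∀ w, GoodZ w (z' w)) (Y Y' : Rows p g → α)
    (h : ∀ w b, Y b = Y' b → z w b = z' w b) (a : Rows p g) (ha : ∀ w, z w a ≠ z' w a)
    (E : Finset (Rows p g)) (hE : ∀ b, b ∉ E → Y b = Y' b) : p ≤ E.card := by
  classical
  have h1 : ∀ w, ∃ b ∈ E, OnL w a b ∧ b ≠ a := by
    intro w
    obtain ⟨b, ⟨g1, g2⟩, -⟩ := hz w a (z' w a)
    have g3 : b ≠ a := by
      rintro rfl
      exact ha w g2
    refine ⟨b, ?_, g1, g3⟩
    by_contra g4
    obtain ⟨b', -, g5⟩ := hz' w a (z' w a)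
    exact g3 ((g5 b ⟨g1, (h w b (hE b g4)).symm.trans g2⟩).trans
      (g5 a ⟨⟨rfl, fun _ _ => rfl⟩, rfl⟩).symm)
  choose f hf using h1
  have h2 : Function.Injective f := by
    intro w w' hw
    by_contra hne
    apply (hf w).2.2
    refine Prod.ext (hf w).2.1.1.symm (funext fun j => ?_)
    by_cases hj : j = w
    · subst hj
      rw [hw]
      exact ((hf w').2.1.2 j hne).symm
    · exact ((hf w).2.1.2 j hj).symm
  have := Finset.card_le_card_of_injOn (s := Finset.univ) (t := E) f (fun w _ => (hf w).1) h2.injOn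
  simpa using this

open Classical in
theorem card_goodZ {p g : ℕ} [NeZero g] (w : Fin p) (l : Rows p g → ZMod g) :
    g.factorial ^ (2 * g ^ (p - 1)) ≤
      (Finset.univ.filter (fun σ : Rows p g → ZMod g => GoodZ w (fun b => l b + σ b))).card := by
  let F : (Fin 2 × ({j : Fin p // j ≠ w} → ZMod g) → Equiv.Perm (ZMod g)) → (Rows p g → ZMod g) :=
    fun π b => π (b.1, fun j => b.2 j.1) (b.2 w) - l b
  have h1 : Function.Injective F := by
    intro π π' h
    funext x
    ext c
    have := congrFun h (x.1, fun j => if hj : j = w then c else x.2 ⟨j, hj⟩)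
    simp only [F, sub_left_inj, dite_true] at this
    have e : (fun j : {j : Fin p // j ≠ w} => if hj : j.1 = w then c else x.2 ⟨j.1, hj⟩) = x.2 := by
      funext j
      rw [dif_neg j.2]
    rw [e] at this
    exact this
  have h2 := Finset.card_le_card_of_injOn (s := Finset.univ)
    (t := Finset.univ.filter (fun σ : Rows p g → ZMod g => GoodZ w (fun b => l b + σ b))) F (by
      intro π _
      simp only [Finset.coe_filter, Finset.mem_univ, true_and, Set.mem_ofPred_eq, F, add_sub_cancel]
      intro a c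
      refine ⟨(a.1, Function.update a.2 w ((π (a.1, fun j => a.2 j.1)).symm c)),
        ⟨⟨rfl, fun j hj => (Function.update_of_ne hj _ _).symm⟩, ?_⟩, ?_⟩
      · have e : (fun j : {j : Fin p // j ≠ w} =>
            Function.update a.2 w ((π (a.1, fun j => a.2 j.1)).symm c) j.1) = fun j => a.2 j.1 := by
          funext j
          exact Function.update_of_ne j.2 _ _
        simp only [e, Function.update_self, Equiv.apply_symm_apply]
      · rintro b ⟨⟨g1, g2⟩, g3⟩
        have e : (fun j : {j : Fin p // j ≠ w} => b.2 j.1) = fun j => a.2 j.1 := by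
          funext j
          exact (g2 j.1 j.2).symm
        simp only at g3
        rw [e, ← g1] at g3
        refine Prod.ext g1.symm (funext fun j => ?_)
        by_cases hj : j = w
        · subst hj
          simp only [Function.update_self]
          rw [← g3, Equiv.symm_apply_apply]
        · simp only [Function.update_of_ne hj]
          exact (g2 j hj).symm) h1.injOn
  refine le_trans (le_of_eq ?_) h2
  simp [Fintype.card_perm, ZMod.card, Fintype.card_subtype_compl]

theorem pow_self_le (g : ℕ) : g ^ g ≤ 4 ^ g * g.factorial := by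
  have h1 := Real.pow_div_factorial_le_exp (g : ℝ) (Nat.cast_nonneg g) g
  have h2 : Real.exp g ≤ 4 ^ g := by
    rw [← Real.exp_one_pow]
    exact pow_le_pow_left₀ (Real.exp_pos 1).le (Real.exp_one_lt_d9.le.trans (by norm_num)) g
  rw [div_le_iff₀ (by positivity)] at h1
  have h3 : (g : ℝ) ^ g ≤ 4 ^ g * g.factorial :=
    h1.trans (mul_le_mul_of_nonneg_right h2 (by positivity))
  exact_mod_cast h3

open Classical in
theorem averaging {p g : ℕ} [NeZero g] (hp : 1 ≤ p) {I ι : Type} [Fintype I] (dir : I → Fin p)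
    (X : Finset ι) (lab : ι → I → Rows p g → ZMod g) :
    ∃ σ : I → Rows p g → ZMod g, X.card ≤
      (X.filter (fun x => ∀ i, GoodZ (dir i) (fun b => lab x i b + σ i b))).card *
        4 ^ (2 * g ^ p * Fintype.card I) := by
  obtain ⟨σ, -, hσ⟩ := Finset.exists_max_image (Finset.univ : Finset (I → Rows p g → ZMod g))
    (fun σ => (X.filter (fun x => ∀ i, GoodZ (dir i) (fun b => lab x i b + σ i b))).card)
    Finset.univ_nonempty
  refine ⟨σ, ?_⟩
  generalize (X.filter (fun x => ∀ i, GoodZ (dir i) (fun b => lab x i b + σ i b))).card = N at hσ ⊢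
  have h1 := Finset.sum_card_bipartiteAbove_eq_sum_card_bipartiteBelow
    (s := X) (t := (Finset.univ : Finset (I → Rows p g → ZMod g)))
    (fun x σ => ∀ i, GoodZ (dir i) (fun b => lab x i b + σ i b))
  have h2 : X.card * (g.factorial ^ (2 * g ^ (p - 1))) ^ Fintype.card I ≤
      ∑ x ∈ X, (Finset.bipartiteAbove (fun x σ => ∀ i, GoodZ (dir i) (fun b => lab x i b + σ i b))
        (Finset.univ : Finset (I → Rows p g → ZMod g)) x).card := by
    rw [← smul_eq_mul]
    apply Finset.card_nsmul_le_sum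
    intro x _
    have e : Finset.bipartiteAbove (fun x σ => ∀ i, GoodZ (dir i) (fun b => lab x i b + σ i b))
        (Finset.univ : Finset (I → Rows p g → ZMod g)) x = Fintype.piFinset (fun i =>
          Finset.univ.filter (fun σ : Rows p g → ZMod g => GoodZ (dir i) (fun b => lab x i b + σ b))) := by
      ext σ
      simp [Finset.bipartiteAbove]
    rw [e, Fintype.card_piFinset, ← Finset.card_univ, ← Finset.prod_const]
    exact Finset.prod_le_prod' (fun i _ => card_goodZ _ _)
  have h3 : ∑ σ : I → Rows p g → ZMod g, (Finset.bipartiteBelow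
      (fun x σ => ∀ i, GoodZ (dir i) (fun b => lab x i b + σ i b)) X σ).card ≤
      (g ^ (2 * g ^ p)) ^ Fintype.card I * N := by
    have := Finset.sum_le_card_nsmul (Finset.univ : Finset (I → Rows p g → ZMod g)) _ N hσ
    simpa [Finset.bipartiteBelow, ZMod.card] using this
  have h4 : g ^ (2 * g ^ p) ≤ 4 ^ (2 * g ^ p) * g.factorial ^ (2 * g ^ (p - 1)) := by
    have e : 2 * g ^ p = g * (2 * g ^ (p - 1)) := by
      obtain ⟨q, rfl⟩ : ∃ q, p = q + 1 := ⟨p - 1, by omega⟩
      simp only [Nat.add_sub_cancel, pow_succ]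
      ring
    rw [e, pow_mul, pow_mul 4, ← mul_pow]
    exact Nat.pow_le_pow_left (pow_self_le g) _
  have h5 := Nat.pow_le_pow_left h4 (Fintype.card I)
  rw [mul_pow, ← pow_mul 4] at h5
  have h6 : 0 < (g.factorial ^ (2 * g ^ (p - 1))) ^ Fintype.card I := by positivity
  apply Nat.le_of_mul_le_mul_right _ h6
  calc _ ≤ _ := h2
    _ = _ := h1
    _ ≤ _ := h3
    _ ≤ _ := Nat.mul_le_mul_right N h5
    _ = _ := by ring

theorem exists_rows (p g : ℕ) [NeZero g] : ∃ (row : ℕ → Rows p g) (pos : Rows p g → ℕ),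
    (∀ b, pos b < 2 * g ^ p) ∧ (∀ b, row (pos b) = b) ∧ (∀ i, i < 2 * g ^ p → pos (row i) = i) ∧
      ∀ i, i < 2 * g ^ p → ((row i).1 = 0 ↔ i < g ^ p) := by
  have hc : Fintype.card (Fin p → ZMod g) = g ^ p := by simp [ZMod.card]
  have hg : 0 < g ^ p := pow_pos (Nat.pos_of_ne_zero (NeZero.ne g)) p
  let e : (Fin p → ZMod g) ≃ Fin (g ^ p) := Fintype.equivFinOfCardEq hc
  refine ⟨fun i => (if i < g ^ p then 0 else 1, e.symm ⟨i % g ^ p, Nat.mod_lt _ hg⟩),
    fun b => (e b.2).1 + b.1.1 * g ^ p, ?_, ?_, ?_, ?_⟩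
  · rintro ⟨η, v⟩
    have := (e v).2
    fin_cases η <;> simp <;> omega
  · rintro ⟨η, v⟩
    have := (e v).2
    fin_cases η
    · simp [this, Nat.mod_eq_of_lt this]
    · simp [Nat.mod_eq_of_lt this]
  · intro i hi
    by_cases h : i < g ^ p
    · simp [h, Nat.mod_eq_of_lt h]
    · simp only [h, if_false, Equiv.apply_symm_apply, Fin.val_one, Nat.one_mul]
      rw [Nat.mod_eq_sub_mod (by omega), Nat.mod_eq_of_lt (by omega)]
      omega
  · intro i _
    by_cases h : i < g ^ p <;> simp [h]

theorem exists_label (A : Type) [Fintype A] (n g J : ℕ) [NeZero g] (h : Fintype.card A ^ n ≤ g ^ J) :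
    ∃ γ : List A → Fin J → ZMod g, ∀ u v : List A, u.length = n → v.length = n → γ u = γ v → u = v := by
  classical
  have h1 : Fintype.card (List.Vector A n) ≤ Fintype.card (Fin J → ZMod g) := by
    simpa [ZMod.card] using h
  obtain ⟨f⟩ := Function.Embedding.nonempty_of_card_le h1
  refine ⟨fun u => if hu : u.length = n then f ⟨u, hu⟩ else 0, fun u v hu hv he => ?_⟩
  simp only [hu, hv, dite_true] at he
  exact congrArg Subtype.val (f.injective he)

end Pool.Agent.H541Z
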