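import Pool.Agent.H541Z.Skel
import Pool.Agent.H541Z.Data1

set_option autoImplicit false

namespace Pool.Agent.H541Z

/-- factor of a list -/
def sub {A : Type} [Inhabited A] (w : List A) (a n : ℕ) : List A :=
  sg (fun t => w.getD t default) a (a + n)

theorem sub_sg {A : Type} [Inhabited A] (x : ℕ → A) {a N b n : ℕ} (h : b + n ≤ N) :
    sub (sg x a (a + N)) b n = sg x (a + b) (a + b + n) := by
  unfold sub
  rw [sg_add_eq_iff]
  intro t ht
  have : b + t < N := by omega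
  simp [sg, List.getD_eq_getElem?_getD, this, Nat.add_assoc]

theorem sub_self {A : Type} [Inhabited A] (w : List A) : sub w 0 w.length = w := by
  unfold sub
  rw [Nat.zero_add]
  exact sg_getD w default

/-- parameters of the data part -/
structure DP (A : Type) where
  p : ℕ
  g : ℕ → ℕ
  J : ℕ → ℕ
  r : ℕ → ℕ
  ne : ∀ k, NeZero (g k)
  hp : 1 ≤ p
  hr : ∀ k, r k = 2 * g k ^ p
  row : ∀ k, ℕ → Rows p (g k)
  pos : ∀ k, Rows p (g k) → ℕ
  pos_lt : ∀ k b, pos k b < r k
  row_pos : ∀ k b, row k (pos k b) = b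
  pos_row : ∀ k i, i < r k → pos k (row k i) = i
  half : ∀ k i, i < r k → ((row k i).1 = 0 ↔ i < g k ^ p)
  γ : ∀ k, List A → Fin (J k) → ZMod (g (k + 1))
  hγ : ∀ k (u v : List A), u.length = LL r k → v.length = LL r k → γ k u = γ k v → u = v

namespace DP
variable {A : Type} [Inhabited A] (d : DP A)

instance neZero_g (k : ℕ) : NeZero (d.g k) := d.ne k

/-- index set of the masks -/
abbrev Idx (k : ℕ) : Type := Fin d.p × Fin (d.r k) × Fin (d.J k)

/-- masks -/
abbrev Msk (k : ℕ) : Type := d.Idx k → Rows d.p (d.g (k + 1)) → ZMod (d.g (k + 1))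

/-- one step of the construction -/
def step (k : ℕ) (U : List A → Prop) (σ : d.Msk k) (w : List A) : Prop :=
  w.length = LL d.r (k + 2) ∧
    (∀ i, i < d.r (k + 1) → U (sub w (i * LL d.r (k + 1)) (LL d.r (k + 1)))) ∧
    ∀ ι : d.Idx k, GoodZ ι.1 (fun b => d.γ k
      (sub w (d.pos (k + 1) b * LL d.r (k + 1) + ι.2.1 * LL d.r k) (LL d.r k)) ι.2.2 + σ ι b)

omit [Inhabited A] in
theorem r_pos (k : ℕ) : 0 < d.r k := by
  rw [d.hr]
  have := Nat.pos_of_ne_zero (NeZero.ne (d.g k))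
  positivity

omit [Inhabited A] in
theorem col_lt {k s : ℕ} (hs : s < d.r k) : s * LL d.r k + LL d.r k ≤ LL d.r (k + 1) := by
  rw [← Nat.succ_mul]
  exact Nat.mul_le_mul_right _ hs

theorem step_count [Finite A] (k : ℕ) (U : List A → Prop)
    (hU : ∀ w, U w → w.length = LL d.r (k + 1)) : ∃ σ : d.Msk k,
    {w | U w}.ncard ^ d.r (k + 1) ≤ {w | d.step k U σ w}.ncard *
      4 ^ (d.r (k + 1) * (d.p * (d.r k * d.J k))) := by
  classical
  have hfin : {w | U w}.Finite := (List.finite_length_eq A _).subset hU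
  have hL := (LL_chain d.r_pos).pos (k + 1)
  obtain ⟨σ, hσ⟩ := averaging d.hp (I := d.Idx k) (fun ι => ι.1)
    (Fintype.piFinset (fun _ : Rows d.p (d.g (k + 1)) => hfin.toFinset))
    (fun C ι b => d.γ k (sub (C b) (ι.2.1 * LL d.r k) (LL d.r k)) ι.2.2)
  refine ⟨σ, ?_⟩
  have e1 : (Fintype.piFinset (fun _ : Rows d.p (d.g (k + 1)) => hfin.toFinset)).card =
      {w | U w}.ncard ^ d.r (k + 1) := by
    rw [Fintype.card_piFinset, Finset.prod_const, Set.ncard_eq_toFinset_card _ hfin, d.hr (k + 1)]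
    simp [ZMod.card]
  have e2 : Fintype.card (d.Idx k) = d.p * (d.r k * d.J k) := by simp
  rw [e1, e2, ← d.hr (k + 1)] at hσ
  refine hσ.trans (Nat.mul_le_mul_right _ ?_)
  let Φ : (Rows d.p (d.g (k + 1)) → List A) → List A := fun C =>
    sg (fun t => (C (d.row (k + 1) (t / LL d.r (k + 1)))).getD (t % LL d.r (k + 1)) default) 0
      (0 + LL d.r (k + 2))
  have hΦ : ∀ C i b n, i < d.r (k + 1) → b + n ≤ LL d.r (k + 1) →
      sub (Φ C) (i * LL d.r (k + 1) + b) n = sub (C (d.row (k + 1) i)) b n := by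
    intro C i b n hi hb
    have := d.col_lt hi
    change _ ≤ LL d.r (k + 2) at this
    rw [sub_sg _ (by omega), Nat.zero_add]
    unfold sub
    rw [sg_add_eq_iff]
    intro t ht
    rw [Nat.add_assoc, Nat.mul_comm i, Nat.mul_add_div hL, Nat.mul_add_mod,
      Nat.div_eq_of_lt (by omega), Nat.mod_eq_of_lt (by omega), Nat.add_zero i]
  have hΦ' : ∀ C i, i < d.r (k + 1) → (∀ b, U (C b)) →
      sub (Φ C) (i * LL d.r (k + 1)) (LL d.r (k + 1)) = C (d.row (k + 1) i) := by
    intro C i hi hC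
    have := hΦ C i 0 _ hi (Nat.zero_add _).le
    rw [Nat.add_zero] at this
    rw [this, ← hU _ (hC (d.row (k + 1) i)), sub_self]
  rw [← Set.ncard_coe_finset]
  refine Set.ncard_le_ncard_of_injOn Φ ?_ ?_
    ((List.finite_length_eq A _).subset (fun w hw => hw.1))
  · intro C hC
    simp only [Finset.coe_filter, Fintype.mem_piFinset, Set.Finite.mem_toFinset,
      Set.mem_ofPred_eq] at hC
    refine ⟨by simp [Φ], fun i hi => ?_, fun ι => ?_⟩
    · rw [hΦ' C i hi hC.1]
      exact hC.1 _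
    · have := hC.2 ι
      simp only [hΦ C _ _ _ (d.pos_lt _ _) (d.col_lt ι.2.1.2), d.row_pos]
      exact this
  · intro C hC C' hC' he
    simp only [Finset.coe_filter, Fintype.mem_piFinset, Set.Finite.mem_toFinset,
      Set.mem_ofPred_eq] at hC hC'
    funext b
    have h1 := hΦ' C _ (d.pos_lt _ b) hC.1
    have h2 := hΦ' C' _ (d.pos_lt _ b) hC'.1
    rw [d.row_pos] at h1 h2
    rw [← h1, ← h2, he]

/-- a best mask -/
noncomputable def best (k : ℕ) (U : List A → Prop) : d.Msk k :=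
  Classical.epsilon (fun σ => {w | U w}.ncard ^ d.r (k + 1) ≤ {w | d.step k U σ w}.ncard *
      4 ^ (d.r (k + 1) * (d.p * (d.r k * d.J k))))

/-- valid blocks of level `k + 1` -/
def V : ℕ → List A → Prop
  | 0 => fun w => w.length = LL d.r 1
  | k + 1 => d.step k (V k) (d.best k (V k))

theorem V_length : ∀ k w, d.V k w → w.length = LL d.r (k + 1)
  | 0, _, h => h
  | _ + 1, _, h => h.1

theorem V_count [Finite A] (k : ℕ) : {w | d.V k w}.ncard ^ d.r (k + 1) ≤ {w | d.V (k + 1) w}.ncard *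
      4 ^ (d.r (k + 1) * (d.p * (d.r k * d.J k))) :=
  Classical.epsilon_spec (d.step_count k (d.V k) (d.V_length k))

theorem V_sub (x : ℕ → A) (K : ℕ) (hx : d.V K (sg x 0 (LL d.r (K + 1)))) : ∀ n k, k + n = K → ∀ G,
    (G + 1) * LL d.r (k + 1) ≤ LL d.r (K + 1) →
      d.V k (sg x (G * LL d.r (k + 1)) (G * LL d.r (k + 1) + LL d.r (k + 1))) := by
  intro n
  induction n with
  | zero =>
    intro k hk G hG
    obtain rfl : k = K := hk
    have hL := (LL_chain d.r_pos).pos (k + 1)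
    obtain rfl : G = 0 := by
      by_contra h
      have : 2 * LL d.r (k + 1) ≤ (G + 1) * LL d.r (k + 1) := Nat.mul_le_mul_right _ (by omega)
      omega
    simpa using hx
  | succ n ih =>
    intro k hk G hG
    have hr := d.r_pos (k + 1)
    have hL := (LL_chain d.r_pos).pos (k + 1)
    have h1 : (G / d.r (k + 1) + 1) * LL d.r (k + 2) ≤ LL d.r (K + 1) := by
      obtain ⟨t, ht⟩ := (LL_chain d.r_pos).dvd_of_le (show k + 2 ≤ K + 1 by omega)
      rw [ht, Nat.mul_comm _ t] at hG ⊢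
      apply Nat.mul_le_mul_right
      change _ ≤ t * (d.r (k + 1) * LL d.r (k + 1)) at hG
      rw [← Nat.mul_assoc] at hG
      exact (Nat.div_lt_iff_lt_mul hr).2 (Nat.le_of_mul_le_mul_right hG hL)
    have h2 := (ih (k + 1) (by omega) _ h1).2.1 (G % d.r (k + 1)) (Nat.mod_lt _ hr)
    rw [sub_sg _ (d.col_lt (Nat.mod_lt _ hr))] at h2
    have e : G / d.r (k + 1) * LL d.r (k + 1 + 1) + G % d.r (k + 1) * LL d.r (k + 1) =
        G * LL d.r (k + 1) := by
      conv_rhs => rw [← Nat.div_add_mod' G (d.r (k + 1))]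
      simp only [LL]
      ring
    rwa [e] at h2

theorem V_GT {m : ℕ} (hm : m < d.p) (x : ℕ → A) (K : ℕ) (hx : d.V K (sg x 0 (LL d.r (K + 1)))) :
    GT m d.r (fun k => d.g k ^ d.p) (K + 1) x := by
  classical
  intro k s hk hs
  obtain ⟨σ, hσ⟩ : ∃ σ : d.Msk k, σ = d.best k (d.V k) := ⟨_, rfl⟩
  have hequiv : ∀ (y : ℕ → List A) (w : Fin d.p) (j : Fin (d.J k)) (a : Rows d.p (d.g (k + 1)))
      (c : ZMod (d.g (k + 1))),
      (∃! i, i < d.r (k + 1) ∧ (i < d.r (k + 1) ∧ OnL w a (d.row (k + 1) i) ∧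
        d.γ k (y i) j + σ (w, ⟨s, hs⟩, j) (d.row (k + 1) i) = c)) ↔
      ∃! b, OnL w a b ∧ d.γ k (y (d.pos (k + 1) b)) j + σ (w, ⟨s, hs⟩, j) b = c := by
    intro y w j a c
    constructor
    · rintro ⟨i, ⟨h1, -, h2, h3⟩, hu⟩
      refine ⟨d.row (k + 1) i, ⟨h2, by rw [d.pos_row _ _ h1]; exact h3⟩, ?_⟩
      rintro b ⟨g1, g2⟩
      rw [← hu (d.pos (k + 1) b) ⟨d.pos_lt _ _, d.pos_lt _ _, by rw [d.row_pos]; exact g1,
        by rw [d.row_pos]; exact g2⟩, d.row_pos]
    · rintro ⟨b, ⟨g1, g2⟩, hu⟩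
      refine ⟨d.pos (k + 1) b, ⟨d.pos_lt _ _, d.pos_lt _ _, by rw [d.row_pos]; exact g1,
        by rw [d.row_pos]; exact g2⟩, ?_⟩
      rintro i ⟨h1, -, h2, h3⟩
      rw [← hu (d.row (k + 1) i) ⟨h2, by rw [d.pos_row _ _ h1]; exact h3⟩, d.pos_row _ _ h1]
  have hnode : ∀ G, (G + 1) * LL d.r (k + 2) ≤ LL d.r (K + 1) → ∀ w j,
      GoodZ w (fun b => d.γ k (blk d.r x k G (d.pos (k + 1) b) s) j + σ (w, ⟨s, hs⟩, j) b) := by
    intro G hG w j
    have h1 := (d.V_sub x K hx (K - (k + 1)) (k + 1) (by omega) G hG).2.2 (w, ⟨s, hs⟩, j)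
    rw [← hσ] at h1
    have e : ∀ b, sub (sg x (G * LL d.r (k + 1 + 1)) (G * LL d.r (k + 1 + 1) + LL d.r (k + 1 + 1)))
        (d.pos (k + 1) b * LL d.r (k + 1) + s * LL d.r k) (LL d.r k) =
        blk d.r x k G (d.pos (k + 1) b) s := by
      intro b
      have g1 := d.col_lt hs
      have g2 := d.col_lt (d.pos_lt (k + 1) b)
      rw [sub_sg _ (by omega)]
      unfold blk
      simp only [Nat.add_assoc]
    simp only [e] at h1
    exact h1
  refine ⟨{D | ∃ w a j c, D = fun i wd => i < d.r (k + 1) ∧ OnL w a (d.row (k + 1) i) ∧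
    d.γ k wd j + σ (w, ⟨s, hs⟩, j) (d.row (k + 1) i) = c}, ?_, ?_, ?_⟩
  · rintro D ⟨w, a, j, c, rfl⟩
    by_cases ha : a.1 = 0
    · left
      rintro i wd ⟨h1, h2, -⟩
      exact (d.half _ _ h1).1 (h2.1 ▸ ha)
    · right
      rintro i wd ⟨h1, h2, -⟩
      by_contra h3
      exact ha (h2.1 ▸ (d.half _ _ h1).2 (not_le.1 h3))
  · rintro D ⟨w, a, j, c, rfl⟩ G hG
    exact (hequiv (fun i => blk d.r x k G i s) w j a c).2 (hnode G hG w j a c)
  · rintro G hG y h1 h2 ⟨E, h3, h4⟩ i hi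
    by_contra hne
    have hlen : ∀ G i, (blk d.r x k G i s).length = LL d.r k := fun G i => by simp [blk]
    obtain ⟨G', -, g1⟩ := h1 i hi
    have g2 : d.γ k (y i) ≠ d.γ k (blk d.r x k G i s) := fun h =>
      hne (d.hγ k _ _ (by rw [g1, hlen]) (hlen _ _) h)
    obtain ⟨j, hj⟩ := Function.ne_iff.1 g2
    have := goodZ_dist
      (fun w b => d.γ k (y (d.pos (k + 1) b)) j + σ (w, ⟨s, hs⟩, j) b)
      (fun w b => d.γ k (blk d.r x k G (d.pos (k + 1) b) s) j + σ (w, ⟨s, hs⟩, j) b)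
      (fun w a c => (hequiv y w j a c).1 (h2 _ ⟨w, a, j, c, rfl⟩)) (fun w => hnode G hG w j)
      (fun b => y (d.pos (k + 1) b)) (fun b => blk d.r x k G (d.pos (k + 1) b) s)
      (fun w b h => by simp only [h]) (d.row (k + 1) i)
      (fun w => by simp only [d.pos_row _ _ hi]; exact fun h => hj (add_right_cancel h))
      (E.image (d.row (k + 1))) (fun b hb => h4 _ (d.pos_lt _ _) (fun h => hb (by
        rw [Finset.mem_image]; exact ⟨_, h, d.row_pos _ _⟩)))
    have h5 := Finset.card_image_le (s := E) (f := d.row (k + 1))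
    omega

end DP

theorem exists_good_words (m : ℕ) : ∃ (A : Type) (_ : Finite A) (_ : Inhabited A) (r h : ℕ → ℕ),
    (∀ k, m < h k) ∧ (∀ k, h k + m < r k) ∧ ∀ K, ∃ S : Set (List A),
      4 ^ LL r (K + 1) ≤ S.ncard ∧
      ∀ w ∈ S, ∃ x : ℕ → A, GW m r h (K + 1) x ∧ w = sg x 0 (LL r (K + 1)) := by
  obtain ⟨p, hp⟩ : ∃ p, p = m + 2 := ⟨_, rfl⟩
  obtain ⟨β, hβ⟩ : ∃ β, β = 2 * p + 4 := ⟨_, rfl⟩
  let g : ℕ → ℕ := fun k => 2 ^ (β * 2 ^ k)
  let h : ℕ → ℕ := fun k => g k ^ p
  let r : ℕ → ℕ := fun k => 2 * g k ^ p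
  let n : ℕ → ℕ := fun k => g k ^ (p - 1)
  let J : ℕ → ℕ := LL h
  have hX : ∀ k, β ≤ β * 2 ^ k := fun k => Nat.le_mul_of_pos_right _ (by positivity)
  have hg : ∀ k, m < g k := fun k => by
    have := hX k
    have := Nat.lt_two_pow_self (n := β * 2 ^ k)
    simp only [g]
    omega
  have hg0 : ∀ k, 0 < g k := fun k => by have := hg k; omega
  have hne : ∀ k, NeZero (g k) := fun k => ⟨(hg0 k).ne'⟩
  have hh : ∀ k, h k = n k * g k := fun k => by
    simp only [h, n]
    rw [← pow_succ]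
    congr 1
    omega
  have hn : ∀ k, g k ≤ n k := fun k => Nat.le_self_pow (by omega) _
  have hb : ∀ k, 2 * r (k + 2) ≤ 2 ^ (2 * n k) := by
    intro k
    have e : 2 * r (k + 2) = 2 ^ (2 + 4 * p * (β * 2 ^ k)) := by
      simp only [r, g]
      rw [← pow_mul, pow_add, pow_add]
      ring_nf
    rw [e]
    apply Nat.pow_le_pow_right (by omega)
    have h1 := hn k
    have h2 := hX k
    have h3 : ∀ X, 4 ≤ X → X * X ≤ 2 ^ X := by
      intro X hX
      induction X, hX using Nat.le_induction with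
      | base => norm_num
      | succ X hX ih => rw [pow_succ]; nlinarith
    have h4 := h3 (β * 2 ^ k) (by omega)
    simp only [g] at h1
    nlinarith
  have hLJ : ∀ k, LL r k = 2 ^ k * J k := by
    intro k
    induction k with
    | zero => rfl
    | succ k ih =>
      simp only [LL, J] at ih ⊢
      rw [ih]
      simp only [r, h]
      ring
  choose row pos h1 h2 h3 h4 using fun k => exists_rows p (g k)
  have hγ : ∀ k, ∃ γ : List (Fin (2 ^ (2 * β))) → Fin (J k) → ZMod (g (k + 1)),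
      ∀ u v, u.length = LL r k → v.length = LL r k → γ u = γ v → u = v := fun k =>
    exists_label _ _ _ _ (by
      rw [Fintype.card_fin, hLJ, ← pow_mul, ← pow_mul]
      apply le_of_eq
      congr 1
      ring)
  choose γ hγ using hγ
  have : Inhabited (Fin (2 ^ (2 * β))) := ⟨⟨0, by positivity⟩⟩
  let d : DP (Fin (2 ^ (2 * β))) :=
    ⟨p, g, J, r, hne, by omega, fun _ => rfl, row, pos, h1, h2, h3, h4, γ, hγ⟩
  have hcount : ∀ k, 2 ^ (8 * LL r (k + 1) + 8 * p * J (k + 1)) ≤ {w | d.V k w}.ncard := by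
    intro k
    induction k with
    | zero =>
      have e : {w | d.V 0 w}.ncard = Nat.card (List.Vector (Fin (2 ^ (2 * β))) (LL r 1)) := rfl
      rw [e, Nat.card_eq_fintype_card, card_vector, Fintype.card_fin, ← pow_mul, hLJ, hβ]
      apply le_of_eq
      congr 1
      ring
    | succ k ih =>
      have h5 := (Nat.pow_le_pow_left ih (r (k + 1))).trans (d.V_count k)
      change _ ≤ _ * 4 ^ (r (k + 1) * (p * (r k * J k))) at h5
      have e1 : (4 : ℕ) ^ (r (k + 1) * (p * (r k * J k))) = 2 ^ (8 * p * J (k + 2)) := by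
        rw [show (4 : ℕ) = 2 ^ 2 by norm_num, ← pow_mul]
        congr 1
        simp only [J, LL, r, h]
        ring
      have e2 : (2 ^ (8 * LL r (k + 1) + 8 * p * J (k + 1))) ^ r (k + 1) =
          2 ^ (8 * LL r (k + 2) + 8 * p * J (k + 2)) * 2 ^ (8 * p * J (k + 2)) := by
        rw [← pow_mul, ← pow_add]
        congr 1
        have e3 : LL r (k + 2) = r (k + 1) * LL r (k + 1) := rfl
        have e4 : J (k + 2) = h (k + 1) * J (k + 1) := rfl
        rw [e3, e4]
        simp only [r, h]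
        ring
      rw [e1, e2] at h5
      exact Nat.le_of_mul_le_mul_right h5 (by positivity)
  have : NeZero (r 0 * r 1) := ⟨by
    have := hg0 0
    have := hg0 1
    simp only [r]
    positivity⟩
  have hm : ∀ k, m < h k := fun k => by
    have := hg k
    have := Nat.le_self_pow (show p ≠ 0 by omega) (g k)
    simp only [h]
    omega
  refine ⟨(ZMod (r 0 * r 1) × Bool) × Fin (2 ^ (2 * β)), inferInstance, inferInstance, r, h, hm,
    fun k => by have := hm k; simp only [r, h] at this ⊢; omega, fun K => ?_⟩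
  let Ψ : List (Fin (2 ^ (2 * β))) → List ((ZMod (r 0 * r 1) × Bool) × Fin (2 ^ (2 * β))) :=
    fun w => sg (fun t => (skel r g (K + 1) t, w.getD t default)) 0 (LL r (K + 1))
  have hΨ : ∀ w, d.V K w → (Ψ w).map Prod.snd = w := by
    intro w hw
    simp only [Ψ, sg_map]
    have := d.V_length K w hw
    change _ = LL r _ at this
    rw [← this]
    exact sg_getD w default
  refine ⟨Ψ '' {w | d.V K w}, ?_, ?_⟩
  · rw [Set.InjOn.ncard_image (fun u hu v hv he => by rw [← hΨ u hu, he, hΨ v hv])]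
    refine le_trans ?_ (hcount K)
    rw [show (4 : ℕ) = 2 ^ 2 by norm_num, ← pow_mul]
    apply Nat.pow_le_pow_right (by omega)
    omega
  · rintro _ ⟨w, hw, rfl⟩
    have hn0 : ∀ k, 0 < n k := fun k => lt_of_lt_of_le (hg0 k) (hn k)
    refine ⟨_, ⟨?_, ?_⟩, rfl⟩
    · intro k a b hk ha _ _ he
      apply skel_sync hg (fun _ => rfl) hh hn0 hb (K + 1) k a b hk ha
      have := congrArg (List.map Prod.fst) he
      simpa only [sg_map] using this
    · refine GT.prod (skel_GT hg (fun _ => rfl) hh hn0 hb (K + 1)) (d.V_GT (by omega : m < p) _ K ?_)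
      have := d.V_length K w hw
      rw [← this, sg_getD]
      exact hw

end Pool.Agent.H541Z
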