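import Pool.Agent.H541Z.PartB
import Pool.Agent.H541Z.Core3
import Pool.Agent.H541Z.Data2

set_option autoImplicit false

namespace Pool.Agent.H541Z

/-- the list of letters of a nonempty word -/
def tl {α : Type} (w : FreeSemigroup α) : List α := w.head :: w.tail

theorem tl_mul {α : Type} (u v : FreeSemigroup α) : tl (u * v) = tl u ++ tl v := rfl

theorem tl_ne {α : Type} (u : FreeSemigroup α) : tl u ≠ [] := by simp [tl]

theorem tl_inj {α : Type} {u v : FreeSemigroup α} (h : tl u = tl v) : u = v := by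
  simp only [tl, List.cons.injEq] at h
  exact FreeSemigroup.ext h.1 h.2

theorem exists_tl {α : Type} {l : List α} (h : l ≠ []) : ∃ w, tl w = l := by
  obtain ⟨a, l, rfl⟩ := List.exists_cons_of_ne_nil h
  exact ⟨⟨a, l⟩, rfl⟩

theorem tl_lift {α β : Type} (φ : α → FreeSemigroup β) (u : FreeSemigroup α) :
    tl (FreeSemigroup.lift φ u) = (tl u).flatMap (fun z => tl (φ z)) := by
  induction u using FreeSemigroup.recOnMul with
  | ih1 x => simp [tl]
  | ih2 x y _ ih =>
    rw [map_mul, tl_mul, tl_mul, List.flatMap_append, ih]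
    simp [tl]

theorem coe_lift {α S : Type} [Semigroup S] (f : α → S) (u : FreeSemigroup α) :
    ((FreeSemigroup.lift f u : S) : WithOne S) = ((tl u).map (fun z => (f z : WithOne S))).prod := by
  induction u using FreeSemigroup.recOnMul with
  | ih1 x => simp [tl]
  | ih2 x y _ ih =>
    rw [map_mul, tl_mul, List.map_append, List.prod_append, WithOne.coe_mul, ih]
    simp [tl]

theorem mem_closure_pow {S : Type} [Semigroup S] (a : S) (n : ℕ) :
    ∃ s ∈ Subsemigroup.closure ({a} : Set S), (s : WithOne S) = (a : WithOne S) ^ (n + 1) := by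
  induction n with
  | zero => exact ⟨a, Subsemigroup.subset_closure rfl, by simp⟩
  | succ n ih =>
    obtain ⟨s, h1, h2⟩ := ih
    exact ⟨s * a, Subsemigroup.mul_mem _ h1 (Subsemigroup.subset_closure rfl), by
      rw [WithOne.coe_mul, h2, ← pow_succ]⟩

theorem pow_inj_of_infinite {S : Type} [Semigroup S] (a : S)
    (h : (Subsemigroup.closure ({a} : Set S) : Set S).Infinite) :
    Function.Injective (fun n : ℕ => (a : WithOne S) ^ n) := by
  by_contra hc
  have h1 : (Set.range (fun n : ℕ => (a : WithOne S) ^ n)).Finite := by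
    obtain ⟨i, j, hij, he⟩ : ∃ i j, i < j ∧ (a : WithOne S) ^ i = (a : WithOne S) ^ j := by
      obtain ⟨i, j, h1, h2⟩ := Function.not_injective_iff.1 hc
      rcases lt_or_gt_of_ne h2 with h | h
      · exact ⟨i, j, h, h1⟩
      · exact ⟨j, i, h, h1.symm⟩
    refine ((Set.finite_lt_nat j).image (fun n : ℕ => (a : WithOne S) ^ n)).subset ?_
    rintro _ ⟨n, rfl⟩
    induction n using Nat.strong_induction_on with
    | _ n ih =>
      by_cases hn : n < j
      · exact ⟨n, hn, rfl⟩
      · have := ih (i + (n - j)) (by omega)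
        simp only at this ⊢
        rwa [pow_add, he, ← pow_add, Nat.add_sub_cancel' (by omega)] at this
  apply h
  refine (h1.preimage (f := fun s : S => (s : WithOne S)) (fun _ _ _ _ h => WithOne.coe_inj.1 h)).subset ?_
  intro s hs
  induction hs using Subsemigroup.closure_induction with
  | mem x hx => exact ⟨1, by rw [hx]; simp⟩
  | mul x y _ _ hx hy =>
    obtain ⟨i, hi⟩ := hx
    obtain ⟨j, hj⟩ := hy
    exact ⟨i + j, by simp only at hi hj ⊢; rw [pow_add, hi, hj, WithOne.coe_mul]⟩

theorem perm_of_nonperiodic {S : Type} [Semigroup S] (a : S)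
    (h : (Subsemigroup.closure ({a} : Set S) : Set S).Infinite) (u v : FreeSemigroup ℕ)
    (huv : ∀ f : FreeSemigroup ℕ →ₙ* S, f u = f v) : (tl u).Perm (tl v) := by
  have hinj := pow_inj_of_infinite a h
  have key : ∀ e : ℕ → ℕ, ((tl u).map (fun z => e z + 1)).sum = ((tl v).map (fun z => e z + 1)).sum := by
    intro e
    choose s _ hs using mem_closure_pow a
    have h1 := congrArg (fun s : S => (s : WithOne S)) (huv (FreeSemigroup.lift (fun z => s (e z))))
    simp only [coe_lift, hs] at h1
    have h2 : ∀ l : List ℕ, (l.map (fun z => (a : WithOne S) ^ (e z + 1))).prod =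
        (a : WithOne S) ^ (l.map (fun z => e z + 1)).sum := by
      intro l
      induction l with
      | nil => simp
      | cons x l ih => rw [List.map_cons, List.prod_cons, ih, List.map_cons, List.sum_cons, ← pow_add]
    rw [h2, h2] at h1
    exact hinj h1
  rw [List.perm_iff_count]
  intro x
  have h3 : ∀ l : List ℕ, (l.map (fun z => (if z = x then 1 else 0) + 1)).sum =
      l.count x + (l.map (fun _ => 0 + 1)).sum := by
    intro l
    induction l with
    | nil => simp
    | cons y l ih =>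
      rw [List.map_cons, List.sum_cons, ih, List.map_cons, List.sum_cons, List.count_cons]
      by_cases hy : y = x <;> simp [hy] <;> omega
  have h4 := key (fun z => if z = x then 1 else 0)
  have h5 := key (fun _ => 0)
  rw [h3, h3] at h4
  omega

theorem giso_of_semigroup {S : Type} [Semigroup S]
    (hper : ∀ a : S, (Subsemigroup.closure ({a} : Set S) : Set S).Finite)
    (A : Set S) (hA : A.Finite) (hinf : (Subsemigroup.closure A : Set S).Infinite)
    (u v : FreeSemigroup ℕ) (hp : (tl u).Perm (tl v)) (huv : ∀ f : FreeSemigroup ℕ →ₙ* S, f u = f v) :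
    GIso (tl u) (tl v) := by
  obtain ⟨k, gen, hgen⟩ : ∃ (k : ℕ) (gen : Fin k → S), Set.range gen = A := by
    obtain ⟨k, f, -, hf⟩ := hA.fin_param
    exact ⟨k, f, hf⟩
  have hev : ∀ t : List (Fin k), t ≠ [] → ∃ s : S,
      (s : WithOne S) = ev (fun b => (gen b : WithOne S)) t := by
    intro t ht
    obtain ⟨w, rfl⟩ := exists_tl ht
    exact ⟨_, coe_lift gen w⟩
  apply giso_of_periodic (fun b => (gen b : WithOne S)) ?_ ?_ _ _ hp
  · intro φ hφ
    choose s hs using fun z => hev (φ z) (hφ z)
    have h1 := congrArg (fun s : S => (s : WithOne S)) (huv (FreeSemigroup.lift s))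
    simp only [coe_lift, hs] at h1
    have h2 : ∀ l : List ℕ, ev (fun b => (gen b : WithOne S)) (l.flatMap φ) =
        (l.map (fun z => ev (fun b => (gen b : WithOne S)) (φ z))).prod := by
      intro l
      induction l with
      | nil => simp [ev]
      | cons x l ih => rw [List.flatMap_cons, ev_append, ih, List.map_cons, List.prod_cons]
    rw [h2, h2, h1]
  · intro hfin
    apply hinf
    refine (hfin.preimage (f := fun s : S => (s : WithOne S)) (fun _ _ _ _ h => WithOne.coe_inj.1 h)).subset ?_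
    intro s hs
    induction hs using Subsemigroup.closure_induction with
    | mem x hx =>
      obtain ⟨b, rfl⟩ := hgen ▸ hx
      exact ⟨[b], by simp [ev]⟩
    | mul x y _ _ hx hy =>
      obtain ⟨i, hi⟩ := hx
      obtain ⟨j, hj⟩ := hy
      exact ⟨i ++ j, by simp only at hi hj ⊢; rw [ev_append, hi, hj, WithOne.coe_mul]⟩
  · intro t ht
    obtain ⟨s, hs⟩ := hev t ht
    choose f hf hf' using mem_closure_pow s
    obtain ⟨i, -, j, -, hne, he⟩ := Set.Infinite.exists_ne_map_eq_of_mapsTo (s := Set.univ) (f := f)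
      Set.infinite_univ (fun i _ => hf i) (hper s)
    have h1 : (s : WithOne S) ^ (i + 1) = (s : WithOne S) ^ (j + 1) := by rw [← hf', ← hf', he]
    rw [hs] at h1
    rcases lt_or_gt_of_ne hne with h | h
    · exact ⟨_, _, Nat.succ_lt_succ h, h1⟩
    · exact ⟨_, _, Nat.succ_lt_succ h, h1.symm⟩

theorem growth {A : Type} [Finite A] (L : Set (List A)) (hL : ∀ w ∈ L, ∀ u, u <:+: w → u ∈ L)
    (hbig : ∀ n, ∃ l, n ≤ l ∧ ∃ S : Set (List A), 4 ^ l ≤ S.ncard ∧ ∀ w ∈ S, w ∈ L ∧ w.length = l)
    (n : ℕ) (hn : 1 ≤ n) : 2 ^ n ≤ {w | w ∈ L ∧ w.length ≤ n}.ncard := by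
  classical
  obtain ⟨l, hl, S, h1, h2⟩ := hbig n
  have hfin : {w | w ∈ L ∧ w.length ≤ n}.Finite := (List.finite_length_le A n).subset (fun _ h => h.2)
  obtain ⟨q, hq⟩ : ∃ q, q = l / n + 1 := ⟨_, rfl⟩
  have h3 : S.ncard ≤ (Fintype.piFinset (fun _ : Fin q => hfin.toFinset)).card := by
    rw [← Set.ncard_coe_finset]
    refine Set.ncard_le_ncard_of_injOn (fun w (i : Fin q) => (w.drop (i * n)).take n) ?_ ?_
      (Finset.finite_toSet _)
    · intro w hw
      simp only [Finset.mem_coe, Fintype.mem_piFinset, Set.Finite.mem_toFinset, Set.mem_ofPred_eq]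
      intro i
      exact ⟨hL w (h2 w hw).1 _ ((List.take_prefix _ _).isInfix.trans (List.drop_suffix _ _).isInfix),
        by simp⟩
    · intro w hw w' hw' he
      apply List.ext_getElem?
      intro t
      by_cases ht : t < l
      · have h4 : t / n < q := by
          have := Nat.div_le_div_right (c := n) ht.le
          omega
        have h5 := congrArg (fun x : List A => x[t % n]?) (congrFun he ⟨t / n, h4⟩)
        have h6 := Nat.mod_lt t hn
        simpa [List.getElem?_take, h6, Nat.div_add_mod'] using h5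
      · rw [List.getElem?_eq_none (by rw [(h2 w hw).2]; omega),
          List.getElem?_eq_none (by rw [(h2 w' hw').2]; omega)]
  rw [Fintype.card_piFinset, Finset.prod_const, ← Set.ncard_eq_toFinset_card _ hfin] at h3
  simp only [Finset.card_univ, Fintype.card_fin] at h3
  have h4 : (2 ^ n) ^ q ≤ 4 ^ l := by
    rw [show (4 : ℕ) = 2 ^ 2 by norm_num, ← pow_mul, ← pow_mul]
    apply Nat.pow_le_pow_right (by omega)
    have := Nat.mul_div_le l n
    rw [hq, Nat.mul_succ]
    omega
  exact (Nat.pow_le_pow_iff_left (by rw [hq]; exact Nat.succ_ne_zero _)).1 (h4.trans (h1.trans h3))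

/-- the Rees congruence of a factorial language -/
def reesCon {A : Type} (L : Set (List A)) (hL : ∀ w ∈ L, ∀ u, u <:+: w → u ∈ L) :
    Con (FreeSemigroup A) where
  r u v := u = v ∨ (tl u ∉ L ∧ tl v ∉ L)
  iseqv := by
    refine ⟨fun _ => Or.inl rfl, fun h => h.imp Eq.symm And.symm, ?_⟩
    rintro x y z (rfl | h1) (rfl | h2)
    · exact Or.inl rfl
    · exact Or.inr h2
    · exact Or.inr h1
    · exact Or.inr ⟨h1.1, h2.2⟩
  mul' := by
    rintro w x y z (rfl | h1) (rfl | h2)
    · exact Or.inl rfl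
    · exact Or.inr ⟨fun h => h2.1 (hL _ h _ (by rw [tl_mul]; exact (List.suffix_append _ _).isInfix)),
        fun h => h2.2 (hL _ h _ (by rw [tl_mul]; exact (List.suffix_append _ _).isInfix))⟩
    · exact Or.inr ⟨fun h => h1.1 (hL _ h _ (by rw [tl_mul]; exact (List.prefix_append _ _).isInfix)),
        fun h => h1.2 (hL _ h _ (by rw [tl_mul]; exact (List.prefix_append _ _).isInfix))⟩
    · exact Or.inr ⟨fun h => h1.1 (hL _ h _ (by rw [tl_mul]; exact (List.prefix_append _ _).isInfix)),
        fun h => h1.2 (hL _ h _ (by rw [tl_mul]; exact (List.prefix_append _ _).isInfix))⟩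

theorem main (E : List (FreeSemigroup ℕ × FreeSemigroup ℕ))
    (hE : ∀ p ∈ E, (tl p.1).Perm (tl p.2) ∧ GIso (tl p.1) (tl p.2) ∧ GIso (tl p.2) (tl p.1)) :
    ∃ (T : Type) (_ : Semigroup T),
      (∀ p ∈ E, ∀ f : FreeSemigroup ℕ →ₙ* T, f p.1 = f p.2) ∧
      ∃ (k : ℕ) (g : Fin k → T),
        Subsemigroup.closure (Set.range g) = ⊤ ∧
        ∃ c : ℝ, 1 < c ∧ ∃ N : ℕ, ∀ n ≥ N,
          c ^ n ≤ (Nat.card {x : T | ∃ w : FreeSemigroup (Fin k),
            w.tail.length < n ∧ FreeSemigroup.lift g w = x} : ℝ) := by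
  classical
  obtain ⟨m, hm⟩ : ∃ m, ∀ p ∈ E, (tl p.1).length + 1 ≤ m :=
    ⟨(E.map (fun p => (tl p.1).length + 1)).sum, fun p hp =>
      List.le_sum_of_mem (List.mem_map_of_mem (f := fun p => (tl p.1).length + 1) hp)⟩
  obtain ⟨A, _, _, r, h, hm1, hm2, hS⟩ := exists_good_words m
  let L : Set (List A) := {w | ∃ K x, GW m r h (K + 1) x ∧ w <:+: sg x 0 (LL r (K + 1))}
  have hL : ∀ w ∈ L, ∀ u, u <:+: w → u ∈ L := by
    rintro w ⟨K, x, h1, h2⟩ u hu
    exact ⟨K, x, h1, hu.trans h2⟩
  have hid : ∀ u v : FreeSemigroup ℕ, (tl u).length + 1 ≤ m → (tl u).Perm (tl v) →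
      GIso (tl u) (tl v) → ∀ φ : ℕ → FreeSemigroup A, tl (FreeSemigroup.lift φ u) ∈ L →
      FreeSemigroup.lift φ u = FreeSemigroup.lift φ v := by
    rintro u v h1 h2 h3 φ ⟨K, x, h4, h5⟩
    apply tl_inj
    rw [tl_lift] at h5
    rw [tl_lift, tl_lift]
    exact (core hm1 hm2 (by omega) h4 _ _ h1 (fun z hz => h2.symm.subset hz) h3 _
      (fun z _ => tl_ne _) h5).symm
  have hgr := growth L hL (fun n => by
    obtain ⟨S, h1, h2⟩ := hS n
    refine ⟨LL r (n + 1), ?_, S, h1, fun w hw => ?_⟩
    · have : ∀ k, k < LL r k := by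
        intro k
        induction k with
        | zero => exact Nat.one_pos
        | succ k ih =>
          have h3 : 2 * LL r k ≤ r k * LL r k :=
            Nat.mul_le_mul_right _ (by have := hm1 k; have := hm2 k; omega)
          simp only [LL]
          omega
      have := this (n + 1)
      omega
    · obtain ⟨x, h3, rfl⟩ := h2 w hw
      exact ⟨⟨n, x, h3, List.infix_rfl⟩, by simp⟩)
  let c := reesCon L hL
  let π : FreeSemigroup A →ₙ* c.Quotient := ⟨fun w => (w : c.Quotient), fun _ _ => rfl⟩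
  have hπ : Function.Surjective π := fun x => Quot.exists_rep x
  have hπe : ∀ u v, π u = π v ↔ (u = v ∨ (tl u ∉ L ∧ tl v ∉ L)) := fun u v => c.eq
  refine ⟨c.Quotient, inferInstance, ?_, ?_⟩
  · intro p hp f
    obtain ⟨h1, h2, h3⟩ := hE p hp
    choose φ hφ using fun z => hπ (f (FreeSemigroup.of z))
    have e : f = π.comp (FreeSemigroup.lift φ) := by
      apply FreeSemigroup.hom_ext
      funext z
      simp [hφ]
    rw [e]
    simp only [MulHom.comp_apply, hπe]
    by_cases g1 : tl (FreeSemigroup.lift φ p.1) ∈ L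
    · exact Or.inl (hid _ _ (hm p hp) h1 h2 φ g1)
    · by_cases g2 : tl (FreeSemigroup.lift φ p.2) ∈ L
      · exact Or.inl (hid _ _ (h1.length_eq ▸ hm p hp) h1.symm h3 φ g2).symm
      · exact Or.inr ⟨g1, g2⟩
  · obtain ⟨k, ⟨e⟩⟩ := Finite.exists_equiv_fin A
    have hlift : ∀ w : FreeSemigroup A, FreeSemigroup.lift (fun i => π (FreeSemigroup.of (e.symm i)))
        (FreeSemigroup.map e w) = π w := by
      intro w
      induction w using FreeSemigroup.recOnMul with
      | ih1 x => simp
      | ih2 x y ih1 ih2 => rw [map_mul, map_mul, map_mul, ih1, ih2]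
    refine ⟨k, fun i => π (FreeSemigroup.of (e.symm i)), ?_, 3 / 2, by norm_num, 2, fun n hn => ?_⟩
    · rw [eq_top_iff]
      intro x _
      obtain ⟨w, rfl⟩ := hπ x
      induction w using FreeSemigroup.recOnMul with
      | ih1 x => exact Subsemigroup.subset_closure ⟨e x, by simp⟩
      | ih2 x y ih1 ih2 =>
        rw [map_mul]
        exact Subsemigroup.mul_mem _ (ih1 trivial) (ih2 trivial)
    · have h1 := hgr n (by omega)
      rw [Nat.card_coe_set_eq]
      have hfin : {x : c.Quotient | ∃ w : FreeSemigroup (Fin k), w.tail.length < n ∧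
          FreeSemigroup.lift (fun i => π (FreeSemigroup.of (e.symm i))) w = x}.Finite := by
        have g1 : {w : FreeSemigroup (Fin k) | w.tail.length < n}.Finite :=
          ((List.finite_length_le (Fin k) n).preimage (f := tl) (fun _ _ _ _ h => tl_inj h)).subset
            (fun w hw => by simpa [tl] using hw)
        exact (g1.image _).subset (fun x ⟨w, h1, h2⟩ => ⟨w, h1, h2⟩)
      have h2 : ({w | w ∈ L ∧ w.length ≤ n} \ {[]}).ncard ≤ {x : c.Quotient |
          ∃ w : FreeSemigroup (Fin k), w.tail.length < n ∧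
          FreeSemigroup.lift (fun i => π (FreeSemigroup.of (e.symm i))) w = x}.ncard := by
        refine Set.ncard_le_ncard_of_injOn (fun l => π ⟨l.headI, l.tail⟩) ?_ ?_ hfin
        · rintro l ⟨⟨-, g1⟩, g2⟩
          obtain ⟨a, l, rfl⟩ := List.exists_cons_of_ne_nil g2
          refine ⟨FreeSemigroup.map e ⟨a, l⟩, ?_, hlift _⟩
          have : (FreeSemigroup.map e ⟨a, l⟩).length = (⟨a, l⟩ : FreeSemigroup A).length :=
            FreeSemigroup.length_map _ _
          simp only [FreeSemigroup.length, List.length_cons] at this g1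
          omega
        · rintro l ⟨⟨g0, -⟩, g2⟩ l' ⟨-, g3⟩ he
          obtain ⟨a, l, rfl⟩ := List.exists_cons_of_ne_nil g2
          obtain ⟨a', l', rfl⟩ := List.exists_cons_of_ne_nil g3
          rcases (hπe _ _).1 he with g | g
          · exact congrArg tl g
          · exact absurd g0 g.1
      have h3 : {w | w ∈ L ∧ w.length ≤ n}.ncard ≤ ({w | w ∈ L ∧ w.length ≤ n} \ {[]}).ncard + 1 := by
        have := Set.ncard_le_ncard_sdiff_add_ncard {w | w ∈ L ∧ w.length ≤ n} (t := {[]})
          (Set.finite_singleton _)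
        simpa using this
      have h4 : ∀ n : ℕ, 2 ≤ n → (3 / 2 : ℝ) ^ n + 1 ≤ 2 ^ n := by
        intro n hn
        induction n, hn using Nat.le_induction with
        | base => norm_num
        | succ n _ ih =>
          have : (0 : ℝ) < (3 / 2) ^ n := by positivity
          rw [pow_succ, pow_succ]
          linarith
      have h5 := h4 n hn
      have h6 : ((2 ^ n : ℕ) : ℝ) ≤ ((_ + 1 : ℕ) : ℝ) := Nat.cast_le.2 (h1.trans (h3.trans
        (Nat.add_le_add_right h2 1)))
      push_cast at h6
      linarith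

end Pool.Agent.H541Z
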