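import Pool.Agent.H541Z.Ini

set_option autoImplicit false

namespace Pool.Agent.H541Z.Hls

open Filter Pool.Agent.H541Z.Ini

section alg
variable {M : Type*} [AddSemigroup M]

theorem corner2 {S : Set M} (hS : ∀ x ∈ S, ∀ y ∈ S, x + y ∈ S) {p q : M} (hp : IsMinI S p)
    (hq : IsMinI S q) :
    ∃ e ∈ S, e + e = e ∧ e + p = p ∧ p + e = e ∧ q + e = q ∧ e + q = e := by
  obtain ⟨y, hy, hy'⟩ := hp.linv hS hq.1
  obtain ⟨hpS, hpp, hmin⟩ := hp
  obtain ⟨hqS, hqq, hminq⟩ := hq
  have hh : p + y + p ∈ S := hS _ (hS _ hpS _ hy) _ hpS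
  have h1 : (p + y + p) + q + p = p := by
    calc (p + y + p) + q + p = (p + y + (p + p)) + q + p := by rw [hpp]
      _ = (p + y + p) + (p + q + p) := by simp only [add_assoc]
      _ = p := hy'
  have h2 : p + ((p + y + p) + q) = (p + y + p) + q := by
    calc p + ((p + y + p) + q) = ((p + p) + y + p) + q := by simp only [add_assoc]
      _ = (p + y + p) + q := by rw [hpp]
  have h3 : ((p + y + p) + q) + ((p + y + p) + q) = (p + y + p) + q := by
    calc ((p + y + p) + q) + ((p + y + p) + q)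
        = ((p + y + p) + q) + (p + ((p + y + p) + q)) := by rw [h2]
      _ = ((p + y + p) + q + p) + ((p + y + p) + q) := by simp only [add_assoc]
      _ = (p + y + p) + q := by rw [h1, h2]
  refine ⟨(p + y + p) + q, hS _ hh _ hqS, h3, h1, h2, ?_, by rw [add_assoc, hqq]⟩
  obtain ⟨z, _, hz⟩ := hminq _ hh
  have hz' : z + ((p + y + p) + q) = q := by rw [← add_assoc]; exact hz
  calc q + ((p + y + p) + q) = (z + ((p + y + p) + q)) + ((p + y + p) + q) := by rw [hz']
    _ = z + (((p + y + p) + q) + ((p + y + p) + q)) := by rw [add_assoc]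
    _ = q := by rw [h3, hz']

theorem exists_isMinI_in [TopologicalSpace M] [T2Space M] (hc : ∀ r : M, Continuous (· + r))
    (S : Set M) (hcomp : IsCompact S) (hS : ∀ x ∈ S, ∀ y ∈ S, x + y ∈ S)
    (L : Set M) (hLc : IsClosed L) (hLne : L.Nonempty) (hLS : L ⊆ S)
    (hL : ∀ x ∈ S, ∀ y ∈ L, x + y ∈ L) :
    ∃ p ∈ L, IsMinI S p := by
  have hne : S.Nonempty := hLne.mono hLS
  let T : Set (Set M) :=
    { N | IsClosed N ∧ N.Nonempty ∧ N ⊆ S ∧ ∀ x ∈ S, ∀ y ∈ N, x + y ∈ N }
  have hST : L ∈ T := ⟨hLc, hLne, hLS, hL⟩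
  have hz : ∃ N, N ⊆ L ∧ Minimal (· ∈ T) N := by
    refine zorn_superset_nonempty T (fun c hcs hc hcne => ?_) L hST
    refine ⟨⋂₀ c, ⟨isClosed_sInter fun t ht => (hcs ht).1, ?_, ?_, ?_⟩,
      fun s hs => Set.sInter_subset_of_mem hs⟩
    · have := hcne.coe_sort
      rw [Set.sInter_eq_iInter]
      exact IsCompact.nonempty_iInter_of_directed_nonempty_isCompact_isClosed _
        (DirectedOn.directed_val (IsChain.directedOn hc.symm)) (fun i => (hcs i.prop).2.1)
        (fun i => hcomp.of_isClosed_subset (hcs i.prop).1 (hcs i.prop).2.2.1)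
        (fun i => (hcs i.prop).1)
    · obtain ⟨t, ht⟩ := hcne
      exact (Set.sInter_subset_of_mem ht).trans (hcs ht).2.2.1
    · intro x hx y hy
      rw [Set.mem_sInter] at hy ⊢
      exact fun t ht => (hcs ht).2.2.2 x hx y (hy t ht)
  obtain ⟨N, hNL, hN⟩ := hz
  obtain ⟨Ncl, Nne, NS, Nid⟩ := hN.prop
  obtain ⟨p, hpN, hpp⟩ := exists_idempotent_in_compact_add_subsemigroup hc N Nne
    (hcomp.of_isClosed_subset Ncl NS) (fun x hx y hy => Nid x (NS hx) y hy)
  refine ⟨p, hNL hpN, NS hpN, hpp, fun x hx => ?_⟩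
  have hxp : x + p ∈ N := Nid x hx p hpN
  have key : (· + (x + p)) '' S = N := by
    apply hN.eq_of_subset
    · refine ⟨(hcomp.image (hc _)).isClosed, hne.image _, ?_, ?_⟩
      · rintro _ ⟨y, hy, rfl⟩
        exact hS _ hy _ (NS hxp)
      · rintro a ha _ ⟨y, hy, rfl⟩
        exact ⟨a + y, hS _ ha _ hy, add_assoc _ _ _⟩
    · rintro _ ⟨y, hy, rfl⟩
      exact Nid _ hy _ hxp
  rw [← key] at hpN
  obtain ⟨y, hy, hy'⟩ := hpN
  exact ⟨y, hy, by rw [add_assoc]; exact hy'⟩

end alg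

attribute [local instance] Ultrafilter.add Ultrafilter.addSemigroup

theorem map_add_of {α β : Type*} [Add α] [Add β] (f : α → β) (hf : ∀ a b, f (a + b) = f a + f b)
    (U V : Ultrafilter α) :
    Ultrafilter.map f (U + V) = Ultrafilter.map f U + Ultrafilter.map f V := by
  refine Ultrafilter.coe_inj.mp <| Filter.ext' fun p => ?_
  simp only [Ultrafilter.eventually_add, Ultrafilter.coe_map, Filter.eventually_map, hf]

theorem continuous_umap {α β : Type*} (f : α → β) :
    Continuous (Ultrafilter.map f : Ultrafilter α → Ultrafilter β) :=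
  ultrafilterBasis_is_basis.continuous_iff.2 <| Set.forall_mem_range.mpr fun s =>
    ultrafilter_isOpen_basic (f ⁻¹' s)

theorem add_pure_zero (U : Ultrafilter ℚ) : U + (pure 0 : Ultrafilter ℚ) = U := by
  refine Ultrafilter.coe_inj.mp <| Filter.ext' fun p => ?_
  simp only [Ultrafilter.eventually_add, Ultrafilter.coe_pure, Filter.eventually_pure, add_zero]

theorem pure_zero_add (U : Ultrafilter ℚ) : (pure 0 : Ultrafilter ℚ) + U = U := by
  refine Ultrafilter.coe_inj.mp <| Filter.ext' fun p => ?_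
  simp only [Ultrafilter.eventually_add, Ultrafilter.coe_pure, Filter.eventually_pure, zero_add]

/-- Dilation of an ultrafilter on the rationals. -/
def sg (k : ℚ) (U : Ultrafilter ℚ) : Ultrafilter ℚ := Ultrafilter.map (fun m => k * m) U

theorem sg_add (k : ℚ) (U V : Ultrafilter ℚ) : sg k (U + V) = sg k U + sg k V :=
  map_add_of _ (mul_add k) U V

theorem sg_sg (k l : ℚ) (U : Ultrafilter ℚ) : sg k (sg l U) = sg (k * l) U := by
  unfold sg
  rw [Ultrafilter.map_map]
  congr 1
  funext m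
  simp only [Function.comp, mul_assoc]

theorem sg_one (U : Ultrafilter ℚ) : sg 1 U = U := by
  unfold sg
  simp only [one_mul]
  exact Ultrafilter.map_id U

theorem eventually_sg (k : ℚ) (U : Ultrafilter ℚ) (P : ℚ → Prop) :
    (∀ᶠ m in (sg k U : Filter ℚ), P m) ↔ ∀ᶠ m in (U : Filter ℚ), P (k * m) := Iff.rfl

/-- Ultrafilters on the rationals concentrated on the integer multiples of every positive
integer. -/
def S0 : Set (Ultrafilter ℚ) :=
  {U | ∀ n : ℕ, ∀ᶠ m in (U : Filter ℚ), ∃ k : ℤ, m = ((n : ℚ) + 1) * k}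

theorem S0_closed : IsClosed S0 := by
  have : S0 = ⋂ n : ℕ, {U : Ultrafilter ℚ | {m : ℚ | ∃ k : ℤ, m = ((n : ℚ) + 1) * k} ∈ U} := by
    ext U
    simp only [S0, Set.mem_iInter]
    rfl
  rw [this]
  exact isClosed_iInter fun n => ultrafilter_isClosed_basic _

theorem S0_add : ∀ x ∈ S0, ∀ y ∈ S0, x + y ∈ S0 := by
  intro x hx y hy n
  rw [Ultrafilter.eventually_add]
  filter_upwards [hx n] with m ⟨k, hk⟩
  filter_upwards [hy n] with m' ⟨k', hk'⟩
  exact ⟨k + k', by rw [hk, hk']; push_cast; ring⟩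

theorem S0_sg (k : ℚ) {x : Ultrafilter ℚ} (hx : x ∈ S0) : sg k x ∈ S0 := by
  intro n
  rw [eventually_sg]
  have hd : 0 < (n + 1) * k.den := Nat.mul_pos (Nat.succ_pos n) k.den_pos
  filter_upwards [hx ((n + 1) * k.den - 1)] with m ⟨j, hj⟩
  refine ⟨k.num * j, ?_⟩
  have h1 : ((((n + 1) * k.den - 1 : ℕ) : ℚ) + 1) = ((n : ℚ) + 1) * k.den := by
    have h2 : (n + 1) * k.den - 1 + 1 = (n + 1) * k.den := by omega
    exact_mod_cast h2
  rw [hj, h1]
  push_cast
  rw [← Rat.mul_den_eq_num k]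
  ring

theorem min_sg {k : ℚ} (hk : k ≠ 0) {p : Ultrafilter ℚ} (hp : IsMinI S0 p) :
    IsMinI S0 (sg k p) := by
  refine ⟨S0_sg k hp.1, by rw [← sg_add, hp.2.1], fun x hx => ?_⟩
  obtain ⟨y, hy, hy'⟩ := hp.2.2 _ (S0_sg k⁻¹ hx)
  refine ⟨sg k y, S0_sg k hy, ?_⟩
  have h := congrArg (sg k) hy'
  rwa [sg_add, sg_add, sg_sg, mul_inv_cancel₀ hk, sg_one] at h

theorem exists_min_pos : ∃ p : Ultrafilter ℚ, IsMinI S0 p ∧
    ∀ B : ℚ, ∀ᶠ m in (p : Filter ℚ), B < m := by
  let L : Set (Ultrafilter ℚ) := S0 ∩ {U | ∀ B : ℚ, ∀ᶠ m in (U : Filter ℚ), B < m}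
  have hLc : IsClosed L := by
    refine S0_closed.inter ?_
    have : {U : Ultrafilter ℚ | ∀ B : ℚ, ∀ᶠ m in (U : Filter ℚ), B < m}
        = ⋂ B : ℚ, {U : Ultrafilter ℚ | {m : ℚ | B < m} ∈ U} := by
      ext U
      simp only [Set.mem_iInter]
      rfl
    rw [this]
    exact isClosed_iInter fun n => ultrafilter_isClosed_basic _
  have hle : ((hyperfilter ℕ : Ultrafilter ℕ) : Filter ℕ) ≤ atTop := by
    rw [← Nat.cofinite_eq_atTop]; exact hyperfilter_le_cofinite
  have hLne : L.Nonempty := by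
    refine ⟨Ultrafilter.map (fun k : ℕ => (k.factorial : ℚ)) (hyperfilter ℕ), fun n => ?_,
      fun B => ?_⟩
    · rw [Ultrafilter.coe_map, Filter.eventually_map]
      refine Filter.Eventually.filter_mono hle ?_
      filter_upwards [eventually_ge_atTop (n + 1)] with k hk
      obtain ⟨j, hj⟩ := Nat.dvd_factorial (Nat.succ_pos n) hk
      exact ⟨j, by rw [hj]; push_cast; ring⟩
    · rw [Ultrafilter.coe_map, Filter.eventually_map]
      refine Filter.Eventually.filter_mono hle ?_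
      obtain ⟨N, hN⟩ := exists_nat_gt B
      filter_upwards [eventually_ge_atTop N] with k hk
      have h1 : N ≤ k.factorial := hk.trans (Nat.self_le_factorial k)
      have h2 : (N : ℚ) ≤ k.factorial := by exact_mod_cast h1
      linarith
  obtain ⟨p, hpL, hp⟩ := exists_isMinI_in (M := Ultrafilter ℚ) Ultrafilter.continuous_add_left S0
    S0_closed.isCompact S0_add L hLc hLne Set.inter_subset_left (by
      intro x hx y hy
      refine ⟨S0_add x hx y hy.1, fun B => ?_⟩
      rw [Ultrafilter.eventually_add]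
      refine Filter.Eventually.of_forall fun m => ?_
      filter_upwards [hy.2 (B - m)] with m' hm'
      linarith)
  exact ⟨p, hp, hpL.2⟩

/-- The linear form `(x, y) ↦ a x + b y`. -/
def lin (a b : ℚ) (z : ℚ × ℚ) : ℚ := a * z.1 + b * z.2

theorem lin_add (a b : ℚ) (U V : Ultrafilter (ℚ × ℚ)) :
    Ultrafilter.map (lin a b) (U + V) = Ultrafilter.map (lin a b) U + Ultrafilter.map (lin a b) V :=
  map_add_of _ (fun x y => by simp only [lin, Prod.fst_add, Prod.snd_add]; ring) U V

/-- `V` is a van der Waerden type joining of `u` and `q`. -/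
def Gad (u q : Ultrafilter ℚ) (V : Ultrafilter (ℚ × ℚ)) : Prop :=
  (∀ r : ℚ, Ultrafilter.map (lin 1 r) V = u) ∧ Ultrafilter.map (lin 0 1) V = q

theorem Gad.add {u q q' : Ultrafilter ℚ} {V V' : Ultrafilter (ℚ × ℚ)} (hu : u + u = u)
    (h : Gad u q V) (h' : Gad u q' V') : Gad u (q + q') (V + V') :=
  ⟨fun r => by rw [lin_add, h.1, h'.1, hu], by rw [lin_add, h.2, h'.2]⟩

theorem Gad.lin_ne {u q : Ultrafilter ℚ} {V : Ultrafilter (ℚ × ℚ)} (h : Gad u q V) {a : ℚ}
    (ha : a ≠ 0) (b : ℚ) : Ultrafilter.map (lin a b) V = sg a u := by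
  rw [← h.1 (b / a), sg, Ultrafilter.map_map]
  congr 1
  funext z
  simp only [lin, Function.comp]
  field_simp

theorem exists_gad {u q : Ultrafilter ℚ} (hu : IsMinI S0 u) (hq : q ∈ S0) (hqq : q + q = q) :
    ∃ V, Gad u q V := by
  let D : Ultrafilter (ℚ × ℚ) := Ultrafilter.map (fun x => (x, 0)) u
  have hD1 : ∀ r, Ultrafilter.map (lin 1 r) D = u := by
    intro r
    simp only [D, Ultrafilter.map_map]
    have : (lin 1 r ∘ fun x : ℚ => (x, (0 : ℚ))) = id := by
      funext x; simp [lin]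
    rw [this, Ultrafilter.map_id]
  have hD0 : Ultrafilter.map (lin 0 1) D = pure 0 := by
    refine Ultrafilter.coe_inj.mp <| Filter.ext' fun p => ?_
    simp [D, lin]
  have hDD : D + D = D := by
    simp only [D]
    rw [← map_add_of _ (fun a b => by simp), hu.2.1]
  let L : Set (Ultrafilter (ℚ × ℚ)) := {V | Ultrafilter.map (lin 0 1) V = q} ∩
    ((⋂ r : ℚ, Ultrafilter.map (lin 1 r) ⁻¹' S0) ∩ {V | V + D = V})
  have hLc : IsClosed L :=
    (isClosed_eq (continuous_umap _) continuous_const).inter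
      ((isClosed_iInter fun r => S0_closed.preimage (continuous_umap _)).inter
        (isClosed_eq (Ultrafilter.continuous_add_left D) continuous_id))
  have hLne : L.Nonempty := by
    let W : Ultrafilter (ℚ × ℚ) := Ultrafilter.map (fun y => (0, y)) q
    refine ⟨W + D, ?_, ?_, ?_⟩
    · show Ultrafilter.map (lin 0 1) (W + D) = q
      rw [lin_add, hD0, add_pure_zero]
      simp only [W, Ultrafilter.map_map]
      have : (lin 0 1 ∘ fun x : ℚ => ((0 : ℚ), x)) = id := by
        funext x; simp [lin]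
      rw [this, Ultrafilter.map_id]
    · simp only [Set.mem_iInter, Set.mem_preimage]
      intro r
      rw [lin_add, hD1]
      refine S0_add _ ?_ _ hu.1
      have : Ultrafilter.map (lin 1 r) W = sg r q := by
        simp only [W, sg, Ultrafilter.map_map]
        congr 1
        funext x; simp [lin]
      rw [this]
      exact S0_sg r hq
    · show W + D + D = W + D
      rw [add_assoc, hDD]
  obtain ⟨V, ⟨hV1, hV2, hV3⟩, hVV⟩ := exists_idempotent_in_compact_add_subsemigroup
    (M := Ultrafilter (ℚ × ℚ)) Ultrafilter.continuous_add_left L hLne hLc.isCompact (by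
      rintro x ⟨hx1, hx2, hx3⟩ y ⟨hy1, hy2, hy3⟩
      refine ⟨?_, ?_, ?_⟩
      · show Ultrafilter.map (lin 0 1) (x + y) = q
        rw [lin_add, hx1, hy1, hqq]
      · simp only [Set.mem_iInter, Set.mem_preimage] at hx2 hy2 ⊢
        intro r
        rw [lin_add]
        exact S0_add _ (hx2 r) _ (hy2 r)
      · show x + y + D = x + y
        rw [add_assoc, hy3])
  simp only [Set.mem_iInter, Set.mem_preimage] at hV2
  refine ⟨D + V, fun r => ?_, ?_⟩
  · rw [lin_add, hD1]
    have h1 := congrArg (Ultrafilter.map (lin 1 r)) hVV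
    have h2 := congrArg (Ultrafilter.map (lin 1 r)) hV3
    rw [lin_add] at h1 h2
    rw [hD1] at h2
    obtain ⟨y, _, hy⟩ := hu.2.2 _ (hV2 r)
    rw [add_assoc, h2] at hy
    calc u + Ultrafilter.map (lin 1 r) V
        = y + Ultrafilter.map (lin 1 r) V + Ultrafilter.map (lin 1 r) V := by rw [hy]
      _ = u := by rw [add_assoc, h1, hy]
  · rw [lin_add, hD0, pure_zero_add]
    exact hV1

end Pool.Agent.H541Z.Hls
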