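import Pool.Agent.H541Z.Hls

set_option autoImplicit false

namespace Pool.Agent.H541Z.Hls

open Filter Pool.Agent.H541Z.Ini

attribute [local instance] Ultrafilter.add Ultrafilter.addSemigroup

theorem exists_V : ∃ V : Ultrafilter (ℚ × ℚ), ∃ a b c d e : Ultrafilter ℚ,
    Ultrafilter.map (lin 1 0) V = a ∧ Ultrafilter.map (lin 0 1) V = b ∧
    Ultrafilter.map (lin 1 1) V = c ∧ Ultrafilter.map (lin 2 1) V = d ∧
    Ultrafilter.map (lin 1 2) V = e ∧ c + b = b ∧ d + (e + b) = b ∧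
    (a + b) + (a + b) = a + b ∧ a + b ∈ S0 ∧ ∀ᶠ m in ((a + b : Ultrafilter ℚ) : Filter ℚ), 0 < m := by
  obtain ⟨p, hp, hpos⟩ := exists_min_pos
  have hp2 := min_sg (k := 2) (by norm_num) hp
  have hp3 := min_sg (k := 3) (by norm_num) hp
  have hpn := min_sg (k := -1) (by norm_num) hp
  obtain ⟨e1, e1S, e1e, e1a, e1b, e1c, e1d⟩ := corner2 S0_add hp hp3
  obtain ⟨e2, e2S, e2e, e2a, e2b, e2c, e2d⟩ := corner2 S0_add hp3 hp2
  obtain ⟨e3, e3S, e3e, e3a, e3b, e3c, e3d⟩ := corner2 S0_add hp2 hp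
  obtain ⟨e4, e4S, e4e, e4a, e4b, e4c, e4d⟩ := corner2 S0_add hp hpn
  obtain ⟨V1, hV1⟩ := exists_gad hp e1S e1e
  obtain ⟨V2, hV2⟩ := exists_gad hp e2S e2e
  obtain ⟨V3, hV3⟩ := exists_gad hp e3S e3e
  obtain ⟨V4, hV4⟩ := exists_gad hp e4S e4e
  have hd := hV1.add hp.2.1 hV2
  have ha := hV3.add hp.2.1 hV4
  generalize V1 + V2 = Vd at hd
  generalize V3 + V4 = Va at ha
  let g1 : ℚ × ℚ → ℚ × ℚ := fun z => (z.2, z.1)
  let g2 : ℚ × ℚ → ℚ × ℚ := fun z => (-z.1, 2 * z.1 + z.2)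
  have key : ∀ α β : ℚ, Ultrafilter.map (lin α β) (Ultrafilter.map g1 Va + Ultrafilter.map g2 Vd)
      = Ultrafilter.map (lin β α) Va + Ultrafilter.map (lin (2 * β - α) β) Vd := by
    intro α β
    rw [lin_add, Ultrafilter.map_map, Ultrafilter.map_map]
    congr 2
    · funext z; simp only [lin, g1, Function.comp]; ring
    · funext z; simp only [lin, g2, Function.comp]; ring
  have hpp := hp.2.1
  have hb : (p + sg 2 p) + ((e3 + e4) + sg (-1) p) + p = p := by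
    calc (p + sg 2 p) + ((e3 + e4) + sg (-1) p) + p
        = (p + (sg 2 p + e3)) + (e4 + sg (-1) p) + p := by simp only [add_assoc]
      _ = p := by rw [e3b, e3c, e4d, e4b, e4a]
  refine ⟨Ultrafilter.map g1 Va + Ultrafilter.map g2 Vd, (e3 + e4) + sg (-1) p, p + sg 2 p,
    p + p, p + (e1 + e2), sg 2 p + sg 3 p, ?_, ?_, ?_, ?_, ?_, ?_, ?_, ?_, ?_, ?_⟩
  · rw [key, ha.2, hd.lin_ne (by norm_num)]; norm_num
  · rw [key, ha.lin_ne (by norm_num), hd.lin_ne (by norm_num), sg_one]; norm_num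
  · rw [key, ha.lin_ne (by norm_num), hd.lin_ne (by norm_num), sg_one]
    norm_num [sg_one]
  · rw [key, ha.lin_ne (by norm_num), sg_one]
    norm_num [hd.2]
  · rw [key, ha.lin_ne (by norm_num), hd.lin_ne (by norm_num)]; norm_num
  · rw [hpp, ← add_assoc, hpp]
  · calc p + (e1 + e2) + (sg 2 p + sg 3 p + (p + sg 2 p))
        = (((p + e1) + (((e2 + sg 2 p) + sg 3 p))) + p) + sg 2 p := by simp only [add_assoc]
      _ = p + sg 2 p := by rw [e1b, e2d, e2a, e1d, e1a]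
  · calc ((e3 + e4) + sg (-1) p + (p + sg 2 p)) + ((e3 + e4) + sg (-1) p + (p + sg 2 p))
        = (e3 + e4) + sg (-1) p + (((p + sg 2 p) + ((e3 + e4) + sg (-1) p) + p) + sg 2 p) := by
          simp only [add_assoc]
      _ = (e3 + e4) + sg (-1) p + (p + sg 2 p) := by rw [hb]
  · exact S0_add _ (S0_add _ (S0_add _ e3S _ e4S) _ hpn.1) _ (S0_add _ hp.1 _ hp2.1)
  · rw [← add_assoc, Ultrafilter.eventually_add]
    refine Filter.Eventually.of_forall fun m => ?_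
    rw [eventually_sg]
    filter_upwards [hpos (-m / 2)] with x hx
    linarith

/-- Allowed consecutive coefficients. -/
def ok (s t : ℚ) : Prop :=
  (s = 0 ∧ (t = 0 ∨ t = 1)) ∨ (s = 1 ∧ (t = 0 ∨ t = 1 ∨ t = 2)) ∨ (s = 2 ∧ t = 1)

/-- One transition of the partial sums. -/
def tr (v : ℚ × ℚ) (z : ℚ × ℚ) (t : ℚ) : ℚ × ℚ := (z.1 + lin t z.2 v, t)

theorem exists_good {r : ℕ} (c : ℕ → Fin r) : ∃ col : Fin r, ∃ G : ℚ × ℚ → Prop, G (0, 0) ∧
    ∀ (F : Finset (ℚ × ℚ)), ∃ v : ℚ × ℚ, (∀ z ∈ F, G z) →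
      ∀ z ∈ F, (∀ t, ok z.2 t → G (tr v z t)) ∧
        (z.2 = 1 → ∃ n : ℕ, 0 < n ∧ z.1 + v.2 = n ∧ c n = col) := by
  obtain ⟨V, a, b, cc, d, e, ha, hb, hc, hd, he, hcb, hdeb, hRR, hRS, hRpos⟩ := exists_V
  obtain ⟨col, hcol⟩ : ∃ col : Fin r, ∀ᶠ (m : ℚ) in ((a + b : Ultrafilter ℚ) : Filter ℚ),
      ∃ n : ℕ, 0 < n ∧ m = (n : ℚ) ∧ c n = col := by
    refine (Ultrafilter.eventually_exists_iff (f := a + b)
      (P := fun (i : Fin r) (m : ℚ) => ∃ n : ℕ, 0 < n ∧ m = n ∧ c n = i)).1 ?_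
    filter_upwards [hRS 0, hRpos] with m ⟨k, hk⟩ hm
    have hk' : m = k := by simpa using hk
    have hk0 : 0 < k := by
      rw [hk'] at hm
      exact_mod_cast hm
    refine ⟨c k.toNat, k.toNat, by omega, ?_, rfl⟩
    rw [hk']
    have : ((k.toNat : ℕ) : ℤ) = k := Int.toNat_of_nonneg hk0.le
    exact_mod_cast this.symm
  let C : ℚ → Prop := fun m => ∃ n : ℕ, 0 < n ∧ m = n ∧ c n = col
  let Cs : ℚ → Prop := fun z => C z ∧ ∀ᶠ m in ((a + b : Ultrafilter ℚ) : Filter ℚ), C (z + m)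
  have hCs : ∀ z, (∀ᶠ m in ((a + b : Ultrafilter ℚ) : Filter ℚ), C (z + m)) →
      ∀ᶠ m in ((a + b : Ultrafilter ℚ) : Filter ℚ), Cs (z + m) := by
    intro z hz
    have h2 : ∀ᶠ m in (((a + b) + (a + b) : Ultrafilter ℚ) : Filter ℚ), C (z + m) := by
      rw [hRR]; exact hz
    rw [Ultrafilter.eventually_add] at h2
    filter_upwards [hz, h2] with m h1 h2
    refine ⟨h1, ?_⟩
    filter_upwards [h2] with m' hm'
    rwa [add_assoc]
  let G0 : ℚ → Prop := fun t => ∀ᶠ m in ((a + b : Ultrafilter ℚ) : Filter ℚ), Cs (t + m)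
  let G1 : ℚ → Prop := fun t => ∀ᶠ m in (b : Filter ℚ), Cs (t + m)
  let G2 : ℚ → Prop := fun t => ∀ᶠ m in ((e + b : Ultrafilter ℚ) : Filter ℚ), Cs (t + m)
  let G : ℚ × ℚ → Prop := fun z => (z.2 = 0 ∧ G0 z.1) ∨ (z.2 = 1 ∧ G1 z.1) ∨ (z.2 = 2 ∧ G2 z.1)
  have hmap : ∀ {α β : ℚ} {U : Ultrafilter ℚ}, Ultrafilter.map (lin α β) V = U →
      ∀ P : ℚ → Prop, (∀ᶠ m in (U : Filter ℚ), P m) → ∀ᶠ v in (V : Filter (ℚ × ℚ)),
        P (lin α β v) := by
    intro α β U hU P hP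
    rw [← hU] at hP
    exact hP
  have hstep : ∀ z, G z → ∀ᶠ v in (V : Filter (ℚ × ℚ)),
      (∀ t, ok z.2 t → G (tr v z t)) ∧ (z.2 = 1 → C (z.1 + v.2)) := by
    rintro ⟨x, s⟩ (⟨h0, hG⟩ | ⟨h1, hG⟩ | ⟨h2, hG⟩)
    · simp only at h0 hG
      subst h0
      have k1 := hG
      simp only [G0] at k1
      rw [Ultrafilter.eventually_add] at k1
      filter_upwards [hmap ha _ k1] with v k1
      refine ⟨?_, fun h => by norm_num at h⟩
      rintro t (⟨-, rfl | rfl⟩ | ⟨h, -⟩ | ⟨h, -⟩)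
      · refine Or.inl ⟨rfl, ?_⟩
        simpa [tr, lin] using hG
      · refine Or.inr (Or.inl ⟨rfl, ?_⟩)
        filter_upwards [k1] with m hm
        simpa only [tr, add_assoc] using hm
      · norm_num at h
      · norm_num at h
    · simp only at h1 hG
      subst h1
      have k1 : ∀ᶠ m in ((cc + b : Ultrafilter ℚ) : Filter ℚ), Cs (x + m) := by
        rw [hcb]; exact hG
      have k2 : ∀ᶠ m in ((d + (e + b) : Ultrafilter ℚ) : Filter ℚ), Cs (x + m) := by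
        rw [hdeb]; exact hG
      rw [Ultrafilter.eventually_add] at k1 k2
      filter_upwards [hmap hb _ hG, hmap hc _ k1, hmap hd _ k2] with v k0 k1 k2
      refine ⟨?_, fun _ => by simpa [lin] using k0.1⟩
      rintro t (⟨h, -⟩ | ⟨-, rfl | rfl | rfl⟩ | ⟨h, -⟩)
      · norm_num at h
      · exact Or.inl ⟨rfl, hCs _ k0.2⟩
      · refine Or.inr (Or.inl ⟨rfl, ?_⟩)
        filter_upwards [k1] with m hm
        simpa only [tr, add_assoc] using hm
      · refine Or.inr (Or.inr ⟨rfl, ?_⟩)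
        filter_upwards [k2] with m hm
        simpa only [tr, add_assoc] using hm
      · norm_num at h
    · simp only at h2 hG
      subst h2
      have k1 := hG
      simp only [G2] at k1
      rw [Ultrafilter.eventually_add] at k1
      filter_upwards [hmap he _ k1] with v k1
      refine ⟨?_, fun h => by norm_num at h⟩
      rintro t (⟨h, -⟩ | ⟨h, -⟩ | ⟨-, rfl⟩)
      · norm_num at h
      · norm_num at h
      · refine Or.inr (Or.inl ⟨rfl, ?_⟩)
        filter_upwards [k1] with m hm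
        simpa only [tr, add_assoc] using hm
  refine ⟨col, G, Or.inl ⟨rfl, ?_⟩, fun F => ?_⟩
  · exact hCs 0 (by simpa using hcol)
  · by_cases hF : ∀ z ∈ F, G z
    · have h1 := (Filter.eventually_all_finset F).2 fun z hz => hstep z (hF z hz)
      obtain ⟨v, hv⟩ := h1.exists
      exact ⟨v, fun _ => hv⟩
    · exact ⟨0, fun h => absurd h hF⟩

theorem main_rat {r : ℕ} (c : ℕ → Fin r) : ∃ y : ℕ → ℚ, ∃ col : Fin r,
    ∀ k : ℕ, ∀ a : ℕ → ℚ, ok 0 (a 0) → (∀ i, ok (a i) (a (i + 1))) → a k = 1 →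
      ∃ n : ℕ, 0 < n ∧ ∑ i ∈ Finset.range (k + 1), a i * y i = n ∧ c n = col := by
  classical
  obtain ⟨col, G, hG0, hG⟩ := exists_good c
  choose fv hf using hG
  let nx : Finset (ℚ × ℚ) → Finset (ℚ × ℚ) := fun F =>
    F.biUnion fun z => (({0, 1, 2} : Finset ℚ).filter (ok z.2)).image (tr (fv F) z)
  let st : ℕ → Finset (ℚ × ℚ) := fun n => nx^[n] {(0, 0)}
  have st0 : st 0 = {(0, 0)} := rfl
  have stS : ∀ n, st (n + 1) = nx (st n) := fun n => Function.iterate_succ_apply' _ _ _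
  have good : ∀ n, ∀ z ∈ st n, G z := by
    intro n
    induction n with
    | zero =>
      intro z hz
      rw [st0, Finset.mem_singleton] at hz
      rw [hz]; exact hG0
    | succ n ih =>
      intro z hz
      rw [stS] at hz
      simp only [nx, Finset.mem_biUnion, Finset.mem_image, Finset.mem_filter] at hz
      obtain ⟨z', hz', t, ⟨-, ht⟩, rfl⟩ := hz
      exact (hf _ ih z' hz').1 t ht
  have hmem : ∀ n z t, z ∈ st n → ok z.2 t → tr (fv (st n)) z t ∈ st (n + 1) := by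
    intro n z t hz ht
    rw [stS]
    simp only [nx, Finset.mem_biUnion, Finset.mem_image, Finset.mem_filter]
    refine ⟨z, hz, t, ⟨?_, ht⟩, rfl⟩
    rcases ht with ⟨-, rfl | rfl⟩ | ⟨-, rfl | rfl | rfl⟩ | ⟨-, rfl⟩ <;> simp
  let y : ℕ → ℚ := fun n => (fv (st n)).1 + (fv (st (n + 1))).2
  refine ⟨y, col, fun k a ha0 ha hak => ?_⟩
  have key : ∀ n, ∃ t : ℚ, (t, a n) ∈ st (n + 1) ∧
      ∑ i ∈ Finset.range (n + 1), a i * y i = t + a n * (fv (st (n + 1))).2 := by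
    intro n
    induction n with
    | zero =>
      refine ⟨_, hmem 0 (0, 0) (a 0) (by rw [st0]; exact Finset.mem_singleton_self _) ha0, ?_⟩
      simp only [y, lin, Finset.range_one, Finset.sum_singleton, zero_add]
      ring
    | succ n ih =>
      obtain ⟨t, ht, hs⟩ := ih
      refine ⟨_, hmem (n + 1) (t, a n) (a (n + 1)) ht (ha n), ?_⟩
      rw [Finset.sum_range_succ, hs]
      simp only [y, lin]
      ring
  obtain ⟨t, ht, hs⟩ := key k
  rw [hs, hak, one_mul]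
  exact (hf _ (good (k + 1)) _ ht).2 hak

end Pool.Agent.H541Z.Hls
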