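import Mathlib

set_option autoImplicit false

namespace Pool.Agent.H541Z.Ini

open Filter

section alg
variable {M : Type*} [AddSemigroup M]

/-- `p` is an idempotent of `S` lying in a minimal left ideal of `S`. -/
def IsMinI (S : Set M) (p : M) : Prop :=
  p ∈ S ∧ p + p = p ∧ ∀ x ∈ S, ∃ y ∈ S, y + x + p = p

theorem IsMinI.linv {S : Set M} (hS : ∀ x ∈ S, ∀ y ∈ S, x + y ∈ S) {p : M} (hp : IsMinI S p)
    {x : M} (hx : x ∈ S) : ∃ y ∈ S, (p + y + p) + (p + x + p) = p := by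
  obtain ⟨hpS, hpp, hmin⟩ := hp
  obtain ⟨y, hy, hy'⟩ := hmin (p + x) (hS _ hpS _ hx)
  refine ⟨y, hy, ?_⟩
  calc (p + y + p) + (p + x + p) = p + (y + ((p + p) + x) + p) := by simp only [add_assoc]
    _ = p := by rw [hpp, hy', hpp]

theorem IsMinI.right {S : Set M} (hS : ∀ x ∈ S, ∀ y ∈ S, x + y ∈ S) {p : M} (hp : IsMinI S p)
    {x : M} (hx : x ∈ S) : ∃ y ∈ S, p + x + y = p := by
  obtain ⟨y, hy, hy'⟩ := hp.linv hS hx
  obtain ⟨z, hz, hz'⟩ := hp.linv hS hy
  obtain ⟨hpS, hpp, hmin⟩ := hp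
  have h1 : p + x + p = p + z + p := by
    calc p + x + p = (p + p) + x + p := by rw [hpp]
      _ = p + (p + x + p) := by simp only [add_assoc]
      _ = ((p + z + p) + (p + y + p)) + (p + x + p) := by rw [hz']
      _ = (p + z + p) + ((p + y + p) + (p + x + p)) := by simp only [add_assoc]
      _ = p + z + (p + p) := by rw [hy']; simp only [add_assoc]
      _ = p + z + p := by rw [hpp]
  refine ⟨p + (p + y + p), hS _ hpS _ (hS _ (hS _ hpS _ hy) _ hpS), ?_⟩
  calc p + x + (p + (p + y + p)) = (p + x + p) + (p + y + p) := by simp only [add_assoc]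
    _ = p := by rw [h1, hz']

theorem IsMinI.corner {S : Set M} (hS : ∀ x ∈ S, ∀ y ∈ S, x + y ∈ S) {p q : M} (hp : IsMinI S p)
    (hq : IsMinI S q) : ∃ e ∈ S, e + p = p ∧ p + e = e ∧ q + e = q := by
  obtain ⟨y, hy, hy'⟩ := hp.linv hS hq.1
  obtain ⟨hpS, hpp, hmin⟩ := hp
  obtain ⟨hqS, hqq, hminq⟩ := hq
  have hh : p + y + p ∈ S := hS _ (hS _ hpS _ hy) _ hpS
  have h1 : (p + y + p) + q + p = p := by
    calc (p + y + p) + q + p = (p + y + (p + p)) + q + p := by rw [hpp]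
      _ = (p + y + p) + (p + q + p) := by simp only [add_assoc]
      _ = p := hy'
  have h2 : p + ((p + y + p) + q) = (p + y + p) + q := by
    calc p + ((p + y + p) + q) = ((p + p) + y + p) + q := by simp only [add_assoc]
      _ = (p + y + p) + q := by rw [hpp]
  refine ⟨(p + y + p) + q, hS _ hh _ hqS, h1, h2, ?_⟩
  obtain ⟨z, _, hz⟩ := hminq _ hh
  have h3 : ((p + y + p) + q) + ((p + y + p) + q) = (p + y + p) + q := by
    calc ((p + y + p) + q) + ((p + y + p) + q)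
        = ((p + y + p) + q) + (p + ((p + y + p) + q)) := by rw [h2]
      _ = ((p + y + p) + q + p) + ((p + y + p) + q) := by simp only [add_assoc]
      _ = (p + y + p) + q := by rw [h1, h2]
  have hz' : z + ((p + y + p) + q) = q := by rw [← add_assoc]; exact hz
  calc q + ((p + y + p) + q) = (z + ((p + y + p) + q)) + ((p + y + p) + q) := by rw [hz']
    _ = z + (((p + y + p) + q) + ((p + y + p) + q)) := by rw [add_assoc]
    _ = q := by rw [h3, hz']

theorem exists_isMinI [TopologicalSpace M] [T2Space M] (hc : ∀ r : M, Continuous (· + r))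
    (S : Set M) (hne : S.Nonempty) (hcomp : IsCompact S) (hS : ∀ x ∈ S, ∀ y ∈ S, x + y ∈ S) :
    ∃ p, IsMinI S p := by
  let T : Set (Set M) :=
    { N | IsClosed N ∧ N.Nonempty ∧ N ⊆ S ∧ ∀ x ∈ S, ∀ y ∈ N, x + y ∈ N }
  have hST : S ∈ T := ⟨hcomp.isClosed, hne, subset_rfl, hS⟩
  have hz : ∃ N, N ⊆ S ∧ Minimal (· ∈ T) N := by
    refine zorn_superset_nonempty T (fun c hcs hc hcne => ?_) S hST
    refine ⟨⋂₀ c, ⟨isClosed_sInter fun t ht => (hcs ht).1, ?_, ?_, ?_⟩,
      fun s hs => Set.sInter_subset_of_mem hs⟩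
    · have := hcne.coe_sort
      rw [Set.sInter_eq_iInter]
      exact IsCompact.nonempty_iInter_of_directed_nonempty_isCompact_isClosed _
        (DirectedOn.directed_val (IsChain.directedOn hc.symm)) (fun i => (hcs i.prop).2.1)
        (fun i => hcomp.of_isClosed_subset (hcs i.prop).1 (hcs i.prop).2.2.1)
        (fun i => (hcs i.prop).1)
    · obtain ⟨t, ht⟩ := hcne
      exact (Set.sInter_subset_of_mem ht).trans (hcs ht).2.2.1
    · intro x hx y hy
      rw [Set.mem_sInter] at hy ⊢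
      exact fun t ht => (hcs ht).2.2.2 x hx y (hy t ht)
  obtain ⟨N, _, hN⟩ := hz
  obtain ⟨Ncl, Nne, NS, Nid⟩ := hN.prop
  obtain ⟨p, hpN, hpp⟩ := exists_idempotent_in_compact_add_subsemigroup hc N Nne
    (hcomp.of_isClosed_subset Ncl NS) (fun x hx y hy => Nid x (NS hx) y hy)
  refine ⟨p, NS hpN, hpp, fun x hx => ?_⟩
  have hxp : x + p ∈ N := Nid x hx p hpN
  have key : (· + (x + p)) '' S = N := by
    apply hN.eq_of_subset
    · refine ⟨(hcomp.image (hc _)).isClosed, hne.image _, ?_, ?_⟩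
      · rintro _ ⟨y, hy, rfl⟩
        exact hS _ hy _ (NS hxp)
      · rintro a ha _ ⟨y, hy, rfl⟩
        exact ⟨a + y, hS _ ha _ hy, add_assoc _ _ _⟩
    · rintro _ ⟨y, hy, rfl⟩
      exact Nid _ hy _ hxp
  rw [← key] at hpN
  obtain ⟨y, hy, hy'⟩ := hpN
  exact ⟨y, hy, by rw [add_assoc]; exact hy'⟩

end alg

attribute [local instance] Ultrafilter.add Ultrafilter.addSemigroup

theorem map_add' (k : ℤ) (U V : Ultrafilter ℤ) :
    Ultrafilter.map (fun m => k * m) (U + V)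
      = Ultrafilter.map (fun m => k * m) U + Ultrafilter.map (fun m => k * m) V := by
  refine Ultrafilter.coe_inj.mp <| Filter.ext' fun p => ?_
  simp only [Ultrafilter.eventually_add, Ultrafilter.coe_map, Filter.eventually_map, mul_add]

/-- Ultrafilters on `ℤ` tending to `+∞` and to `0` three-adically. -/
def SS : Set (Ultrafilter ℤ) := {U | ∀ n : ℕ, ∀ᶠ m in (U : Filter ℤ), (n : ℤ) < m ∧ (3 : ℤ) ^ n ∣ m}

theorem SS_closed : IsClosed SS := by
  have : SS = ⋂ n : ℕ, {U : Ultrafilter ℤ | {m : ℤ | (n : ℤ) < m ∧ (3 : ℤ) ^ n ∣ m} ∈ U} := by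
    ext U
    simp only [SS, Set.mem_iInter]
    rfl
  rw [this]
  exact isClosed_iInter fun n => ultrafilter_isClosed_basic _

theorem SS_nonempty : SS.Nonempty := by
  refine ⟨Ultrafilter.map (fun k : ℕ => (3 : ℤ) ^ k) (hyperfilter ℕ), fun n => ?_⟩
  rw [Ultrafilter.coe_map, Filter.eventually_map]
  have h1 : ∀ᶠ k in (atTop : Filter ℕ), (n : ℤ) < (3 : ℤ) ^ k ∧ (3 : ℤ) ^ n ∣ (3 : ℤ) ^ k := by
    filter_upwards [eventually_ge_atTop n] with k hk
    refine ⟨?_, pow_dvd_pow _ hk⟩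
    have h2 : k < 3 ^ k := Nat.lt_pow_self (by norm_num)
    have h3 : n < 3 ^ k := lt_of_le_of_lt hk h2
    exact_mod_cast h3
  exact h1.filter_mono (by rw [← Nat.cofinite_eq_atTop]; exact hyperfilter_le_cofinite)

theorem SS_add : ∀ x ∈ SS, ∀ y ∈ SS, x + y ∈ SS := by
  intro x hx y hy n
  rw [Ultrafilter.eventually_add]
  filter_upwards [hx n] with m hm
  filter_upwards [hy n] with m' hm'
  refine ⟨?_, dvd_add hm.2 hm'.2⟩
  have : (0 : ℤ) ≤ n := Int.natCast_nonneg n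
  linarith [hm.1, hm'.1]

theorem SS_mul (k : ℤ) (hk : 1 ≤ k) {x : Ultrafilter ℤ} (hx : x ∈ SS) :
    Ultrafilter.map (fun m => k * m) x ∈ SS := by
  intro n
  rw [Ultrafilter.coe_map, Filter.eventually_map]
  filter_upwards [hx n] with m hm
  refine ⟨?_, Dvd.dvd.mul_left hm.2 k⟩
  have : (0 : ℤ) ≤ n := Int.natCast_nonneg n
  nlinarith [hm.1]

theorem SS_surj {x : Ultrafilter ℤ} (hx : x ∈ SS) :
    ∃ y ∈ SS, Ultrafilter.map (fun m => 3 * m) y = x := by
  refine ⟨Ultrafilter.map (fun m => m / 3) x, fun n => ?_, ?_⟩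
  · rw [Ultrafilter.coe_map, Filter.eventually_map]
    filter_upwards [hx (3 * n + 3)] with m hm
    obtain ⟨h1, c, rfl⟩ := hm
    have h2 : (3 : ℤ) ^ (3 * n + 3) * c = 3 * (3 ^ n * (3 ^ (2 * n + 2) * c)) := by ring
    rw [h2] at h1 ⊢
    rw [Int.mul_ediv_cancel_left _ (by norm_num)]
    refine ⟨?_, Dvd.intro _ rfl⟩
    push_cast at h1
    linarith
  · rw [Ultrafilter.map_map]
    refine Ultrafilter.coe_inj.mp ?_
    rw [Ultrafilter.coe_map]
    have : (fun m : ℤ => 3 * m) ∘ (fun m => m / 3) =ᶠ[(x : Filter ℤ)] id := by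
      filter_upwards [hx 1] with m hm
      have h3 : (3 : ℤ) ∣ m := by simpa using hm.2
      simp only [Function.comp, id]
      exact Int.mul_ediv_cancel' h3
    rw [Filter.map_congr this, Filter.map_id]

theorem mul3_inj {x y : Ultrafilter ℤ}
    (h : Ultrafilter.map (fun m => 3 * m) x = Ultrafilter.map (fun m => 3 * m) y) : x = y := by
  have h2 := congrArg (Ultrafilter.map (fun m : ℤ => m / 3)) h
  rw [Ultrafilter.map_map, Ultrafilter.map_map] at h2
  have h3 : ((fun m : ℤ => m / 3) ∘ fun m => 3 * m) = id := by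
    funext m
    simp only [Function.comp, id]
    exact Int.mul_ediv_cancel_left _ (by norm_num)
  rwa [h3, Ultrafilter.map_id, Ultrafilter.map_id] at h2

theorem exists_pXW : ∃ p ∈ SS, ∃ X ∈ SS, ∃ W ∈ SS, p + X + W + p = p ∧
    p + Ultrafilter.map (fun m => 3 * m) X + Ultrafilter.map (fun m => 2 * m) p
      + Ultrafilter.map (fun m => 3 * m) W + p = p := by
  obtain ⟨p, hp⟩ := exists_isMinI (M := Ultrafilter ℤ) Ultrafilter.continuous_add_left SS
    SS_nonempty SS_closed.isCompact SS_add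
  have hp3 : IsMinI SS (Ultrafilter.map (fun m => 3 * m) p) := by
    refine ⟨SS_mul 3 (by norm_num) hp.1, by rw [← map_add', hp.2.1], fun x hx => ?_⟩
    obtain ⟨x', hx', rfl⟩ := SS_surj hx
    obtain ⟨y, hy, hy'⟩ := hp.2.2 x' hx'
    exact ⟨_, SS_mul 3 (by norm_num) hy, by rw [← map_add', ← map_add', hy']⟩
  have hp2S := SS_mul 2 (by norm_num) hp.1
  have hp2 : Ultrafilter.map (fun m => 2 * m) p + Ultrafilter.map (fun m => 2 * m) p
      = Ultrafilter.map (fun m => 2 * m) p := by rw [← map_add', hp.2.1]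
  obtain ⟨e, heS, hep, hpe, h3e⟩ := hp.corner SS_add hp3
  obtain ⟨y, hy, hy'⟩ := hp.right SS_add hp2S
  obtain ⟨X, hX, hX'⟩ := SS_surj (SS_add _ hp.1 _ hp2S)
  obtain ⟨W, hW, hW'⟩ := SS_surj (SS_add _ hy _ heS)
  have hPQ : (p + Ultrafilter.map (fun m => 2 * m) p) + (y + e) = e := by
    rw [← add_assoc, hy', hpe]
  refine ⟨p, hp.1, X, hX, W, hW, ?_, ?_⟩
  · apply mul3_inj
    rw [map_add', map_add', map_add', hX', hW', add_assoc _ (p + _), hPQ, h3e, hp3.2.1]
  · rw [hX', hW']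
    generalize Ultrafilter.map (fun m : ℤ => 2 * m) p = p2 at *
    calc p + (p + p2) + p2 + (y + e) + p = ((p + p) + (p2 + p2)) + (y + e) + p := by
          simp only [add_assoc]
      _ = p := by rw [hp.2.1, hp2, hPQ, hep]

end Pool.Agent.H541Z.Ini
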