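import Pool.Agent.H541Z.Ini

set_option autoImplicit false

namespace Pool.Agent.H541Z.Ini

open Filter

attribute [local instance] Ultrafilter.add Ultrafilter.addSemigroup

/-- One transition of the partial sums: from partial sum `z.1` with current coefficient `z.2`
to the next coefficient `b`. -/
def tr (u x w : ℤ) (z : ℤ × ℤ) (b : ℤ) : ℤ × ℤ :=
  (z.1 + z.2 * u + (2 * b - z.2) * x + (2 * z.2 - b) * w, b)

theorem exists_good {r : ℕ} (c : ℤ → Fin r) : ∃ col : Fin r, ∃ G : ℤ × ℤ → Prop, G (0, 1) ∧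
    ∀ (F : Finset (ℤ × ℤ)) (B : ℤ), ∃ u x w : ℤ, (∀ z ∈ F, G z) →
      0 < u ∧ 0 < x ∧ 0 < w ∧ x + B < w ∧ ∀ z ∈ F, G (tr u x w z 1) ∧ G (tr u x w z 2) ∧
        (z.2 = 1 → c (z.1 + (u - x + 2 * w)) = col) := by
  obtain ⟨p, hp, X, hX, W, hW, ha, hb⟩ := exists_pXW
  have ha2 := congrArg (Ultrafilter.map (fun m : ℤ => 2 * m)) ha
  rw [map_add', map_add', map_add'] at ha2
  set p2 := Ultrafilter.map (fun m : ℤ => 2 * m) p with hp2
  set X2 := Ultrafilter.map (fun m : ℤ => 2 * m) X with hX2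
  set W2 := Ultrafilter.map (fun m : ℤ => 2 * m) W with hW2
  set X3 := Ultrafilter.map (fun m : ℤ => 3 * m) X with hX3
  set W3 := Ultrafilter.map (fun m : ℤ => 3 * m) W with hW3
  set Xn := Ultrafilter.map (fun m : ℤ => (-1) * m) X with hXn
  obtain ⟨R1, hR1⟩ : ∃ R1, R1 = p + (Xn + W2) := ⟨_, rfl⟩
  obtain ⟨R2, hR2⟩ : ∃ R2, R2 = p2 + (W3 + R1) := ⟨_, rfl⟩
  have e11 : R1 = p + (X + (W + R1)) := by
    calc R1 = (p + X + W + p) + (Xn + W2) := by rw [ha, hR1]
      _ = p + (X + (W + R1)) := by rw [hR1]; simp only [add_assoc]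
  have e12 : R1 = p + (X3 + R2) := by
    calc R1 = (p + X3 + p2 + W3 + p) + (Xn + W2) := by rw [hb, hR1]
      _ = p + (X3 + R2) := by rw [hR2, hR1]; simp only [add_assoc]
  have e22 : R2 = p2 + (X2 + (W2 + R2)) := by
    calc R2 = (p2 + X2 + W2 + p2) + (W3 + R1) := by rw [ha2, hR2]
      _ = p2 + (X2 + (W2 + R2)) := by rw [hR2]; simp only [add_assoc]
  obtain ⟨col, hcol⟩ : ∃ col : Fin r, ∀ᶠ m in (R1 : Filter ℤ), c m = col := by
    have h := (Ultrafilter.eventually_exists_iff (f := R1) (P := fun (i : Fin r) m => c m = i)).1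
      (Filter.Eventually.of_forall fun m => ⟨c m, rfl⟩)
    exact h
  let G1 : ℤ → Prop := fun t => ∀ᶠ m in (R1 : Filter ℤ), c (t + m) = col
  let G2 : ℤ → Prop := fun t => ∀ᶠ m in (R2 : Filter ℤ), c (t + m) = col
  let G : ℤ × ℤ → Prop := fun z => (z.2 = 1 ∧ G1 z.1) ∨ (z.2 = 2 ∧ G2 z.1)
  have hstep : ∀ z, G z → ∀ᶠ u in (p : Filter ℤ), ∀ᶠ x in (X : Filter ℤ), ∀ᶠ w in (W : Filter ℤ),
      G (tr u x w z 1) ∧ G (tr u x w z 2) ∧ (z.2 = 1 → c (z.1 + (u - x + 2 * w)) = col) := by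
    rintro ⟨t, a⟩ (⟨h1, hG⟩ | ⟨h2, hG⟩)
    · simp only at h1 hG
      subst h1
      have k1 : ∀ᶠ m in ((p + (X + (W + R1)) : Ultrafilter ℤ) : Filter ℤ), c (t + m) = col := by
        rw [← e11]; exact hG
      have k2 : ∀ᶠ m in ((p + (X3 + R2) : Ultrafilter ℤ) : Filter ℤ), c (t + m) = col := by
        rw [← e12]; exact hG
      have k3 : ∀ᶠ m in ((p + (Xn + W2) : Ultrafilter ℤ) : Filter ℤ), c (t + m) = col := by
        rw [← hR1]; exact hG
      simp only [Ultrafilter.eventually_add, hX3, hXn, hW2, Ultrafilter.coe_map,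
        Filter.eventually_map] at k1 k2 k3
      filter_upwards [k1, k2, k3] with u k1 k2 k3
      filter_upwards [k1, k2, k3] with x k1 k2 k3
      filter_upwards [k1, k3] with w k1 k3
      refine ⟨Or.inl ⟨rfl, ?_⟩, Or.inr ⟨rfl, ?_⟩, fun _ => ?_⟩
      · filter_upwards [k1] with m hm
        rw [← hm]; congr 1; simp only [tr]; ring
      · filter_upwards [k2] with m hm
        rw [← hm]; congr 1; simp only [tr]; ring
      · rw [← k3]; congr 1; ring
    · simp only at h2 hG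
      subst h2
      have k1 : ∀ᶠ m in ((p2 + (W3 + R1) : Ultrafilter ℤ) : Filter ℤ), c (t + m) = col := by
        rw [← hR2]; exact hG
      have k2 : ∀ᶠ m in ((p2 + (X2 + (W2 + R2)) : Ultrafilter ℤ) : Filter ℤ),
          c (t + m) = col := by
        rw [← e22]; exact hG
      simp only [Ultrafilter.eventually_add, hp2, hX2, hW3, hW2, Ultrafilter.coe_map,
        Filter.eventually_map] at k1 k2
      filter_upwards [k1, k2] with u k1 k2
      filter_upwards [k2] with x k2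
      filter_upwards [k1, k2] with w k1 k2
      refine ⟨Or.inl ⟨rfl, ?_⟩, Or.inr ⟨rfl, ?_⟩, fun h => by norm_num at h⟩
      · filter_upwards [k1] with m hm
        rw [← hm]; congr 1; simp only [tr]; ring
      · filter_upwards [k2] with m hm
        rw [← hm]; congr 1; simp only [tr]; ring
  refine ⟨col, G, Or.inl ⟨rfl, ?_⟩, fun F B => ?_⟩
  · filter_upwards [hcol] with m hm
    simpa using hm
  · by_cases hF : ∀ z ∈ F, G z
    · have h1 := (Filter.eventually_all_finset F).2 fun z hz => hstep z (hF z hz)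
      obtain ⟨u, hu0, hu⟩ := ((hp 0).and h1).exists
      have h2 := (Filter.eventually_all_finset F).2 hu
      obtain ⟨x, hx0, hx⟩ := ((hX 0).and h2).exists
      have h3 := (Filter.eventually_all_finset F).2 hx
      obtain ⟨w, hw0, hw⟩ := ((hW (x + B).toNat).and h3).exists
      refine ⟨u, x, w, fun _ => ⟨by simpa using hu0.1, by simpa using hx0.1, ?_, ?_, hw⟩⟩
      · exact lt_of_le_of_lt (Int.natCast_nonneg _) hw0.1
      · exact lt_of_le_of_lt (Int.self_le_toNat _) hw0.1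
    · exact ⟨0, 0, 0, fun h => absurd h hF⟩

theorem main_int {r : ℕ} (c : ℤ → Fin r) : ∃ y : ℕ → ℤ, (∀ n, 0 < y n) ∧ ∃ col : Fin r,
    ∀ k : ℕ, ∀ a : ℕ → ℤ, (∀ i, a i = 1 ∨ a i = 2) → a 0 = 1 → a k = 1 →
      c (∑ i ∈ Finset.range (k + 1), a i * y i) = col := by
  classical
  obtain ⟨col, G, hG0, hG⟩ := exists_good c
  choose fu fx fw hf using hG
  let nx : Finset (ℤ × ℤ) × ℤ → Finset (ℤ × ℤ) × ℤ := fun s =>
    (s.1.image (fun z => tr (fu s.1 s.2) (fx s.1 s.2) (fw s.1 s.2) z 1) ∪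
      s.1.image (fun z => tr (fu s.1 s.2) (fx s.1 s.2) (fw s.1 s.2) z 2), fw s.1 s.2)
  let st : ℕ → Finset (ℤ × ℤ) × ℤ := fun n => nx^[n] ({(0, 1)}, 0)
  have st0 : st 0 = ({(0, 1)}, 0) := rfl
  have stS : ∀ n, st (n + 1) = nx (st n) := fun n => Function.iterate_succ_apply' _ _ _
  have good : ∀ n, ∀ z ∈ (st n).1, G z := by
    intro n
    induction n with
    | zero =>
      intro z hz
      rw [st0, Finset.mem_singleton] at hz
      rw [hz]; exact hG0
    | succ n ih =>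
      intro z hz
      rw [stS] at hz
      have h := (hf (st n).1 (st n).2 ih).2.2.2.2
      simp only [nx, Finset.mem_union, Finset.mem_image] at hz
      rcases hz with ⟨z', hz', rfl⟩ | ⟨z', hz', rfl⟩
      · exact (h z' hz').1
      · exact (h z' hz').2.1
  let u : ℕ → ℤ := fun n => fu (st n).1 (st n).2
  let x : ℕ → ℤ := fun n => fx (st n).1 (st n).2
  let w : ℕ → ℤ := fun n => fw (st n).1 (st n).2
  have hfn := fun n => hf (st n).1 (st n).2 (good n)
  let y : ℕ → ℤ := fun n => match n with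
    | 0 => u 0 - x 0 + 2 * w 0
    | n + 1 => 2 * x n - w n + (u (n + 1) - x (n + 1) + 2 * w (n + 1))
  refine ⟨y, fun n => ?_, col, fun k a ha ha0 hak => ?_⟩
  · cases n with
    | zero =>
      obtain ⟨h1, h2, h3, h4, -⟩ := hfn 0
      have h5 : (st 0).2 = 0 := rfl
      show 0 < fu (st 0).1 (st 0).2 - fx (st 0).1 (st 0).2 + 2 * fw (st 0).1 (st 0).2
      linarith
    | succ n =>
      obtain ⟨h1, h2, h3, h4, -⟩ := hfn (n + 1)
      obtain ⟨-, h6, -⟩ := hfn n
      have h5 : (st (n + 1)).2 = fw (st n).1 (st n).2 := by rw [stS]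
      show 0 < 2 * fx (st n).1 (st n).2 - fw (st n).1 (st n).2 +
        (fu (st (n + 1)).1 (st (n + 1)).2 - fx (st (n + 1)).1 (st (n + 1)).2 +
          2 * fw (st (n + 1)).1 (st (n + 1)).2)
      linarith
  · have key : ∀ n, ∃ t : ℤ, (t, a n) ∈ (st n).1 ∧
        ∑ i ∈ Finset.range (n + 1), a i * y i = t + a n * (u n - x n + 2 * w n) := by
      intro n
      induction n with
      | zero =>
        refine ⟨0, by rw [st0, ha0]; exact Finset.mem_singleton_self _, ?_⟩
        simp [y]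
      | succ n ih =>
        obtain ⟨t, ht, hs⟩ := ih
        refine ⟨(tr (u n) (x n) (w n) (t, a n) (a (n + 1))).1, ?_, ?_⟩
        · rw [stS]
          simp only [nx, Finset.mem_union, Finset.mem_image]
          rcases ha (n + 1) with h | h
          · left; exact ⟨_, ht, by rw [h]; rfl⟩
          · right; exact ⟨_, ht, by rw [h]; rfl⟩
        · rw [Finset.sum_range_succ, hs]
          simp only [tr, y]
          ring
    obtain ⟨t, ht, hs⟩ := key k
    rw [hs, hak, one_mul]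
    exact ((hfn k).2.2.2.2 _ ht).2.2 hak

end Pool.Agent.H541Z.Ini
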