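import Pool.Agent.H541Z.Seg

set_option autoImplicit false

namespace Pool.Agent.H541Z

section
variable {B : Type} [LinearOrder B] {N : Type} [Monoid N]

/-- value of a word -/
def ev (gen : B → N) (w : List B) : N := (w.map gen).prod

omit [LinearOrder B] in
theorem ev_append (gen : B → N) (u v : List B) : ev gen (u ++ v) = ev gen u * ev gen v := by
  simp [ev]

/-- smaller at the first difference -/
def FD (w' w : List B) : Prop :=
  ∃ (p : List B) (c c' : B) (s s' : List B), w' = p ++ c :: s ∧ w = p ++ c' :: s' ∧ c < c'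

theorem FD.lt {w' w : List B} (h : FD w' w) : w' < w := by
  obtain ⟨p, c, c', s, s', rfl, rfl, hc⟩ := h
  exact List.Lex.append_left _ (List.Lex.rel hc) p

/-- shortlex irreducible words -/
def Irr (gen : B → N) (w : List B) : Prop :=
  (∀ w', ev gen w' = ev gen w → w.length ≤ w'.length) ∧
    ∀ w', ev gen w' = ev gen w → w'.length = w.length → ¬ FD w' w

theorem Irr.fac {gen : B → N} {w u : List B} (h : Irr gen w) (hu : u <:+: w) : Irr gen u := by
  obtain ⟨p, q, rfl⟩ := hu
  constructor
  · intro w' hw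
    have := h.1 (p ++ w' ++ q) (by simp only [ev_append, hw])
    simp only [List.length_append] at this
    omega
  · rintro w' hw hl ⟨p', c, c', s, s', rfl, rfl, hc⟩
    refine h.2 (p ++ (p' ++ c :: s) ++ q) (by simp only [ev_append] at hw ⊢; rw [hw]) ?_
      ⟨p ++ p', c, c', s ++ q, s' ++ q, by simp, by simp, hc⟩
    simp only [List.length_append] at hl ⊢
    omega

theorem exists_irr [Finite B] (gen : B → N) (w : List B) : ∃ u, Irr gen u ∧ ev gen u = ev gen w := by
  classical
  have hex : ∃ n, ∃ u : List B, u.length = n ∧ ev gen u = ev gen w := ⟨_, w, rfl, rfl⟩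
  have hfin : {u : List B | u.length = Nat.find hex ∧ ev gen u = ev gen w}.Finite :=
    (List.finite_length_eq B (Nat.find hex)).subset (fun u hu => hu.1)
  obtain ⟨u, hu, hmin⟩ := Set.exists_min_image _ id hfin (Nat.find_spec hex)
  refine ⟨u, ⟨?_, ?_⟩, hu.2⟩
  · intro w' hw'
    rw [hu.1]
    exact Nat.find_min' hex ⟨w', rfl, hw'.trans hu.2⟩
  · intro w' hw' hl hfd
    exact absurd (hmin w' ⟨hl.trans hu.1, hw'.trans hu.2⟩) (not_le.2 hfd.lt)

theorem irr_all_lengths [Finite B] (gen : B → N) (hinf : (Set.range (ev gen)).Infinite) (n : ℕ) :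
    ∃ w, Irr gen w ∧ w.length = n := by
  by_contra hc
  apply hinf
  refine ((List.finite_length_lt B n).image (ev gen)).subset ?_
  rintro _ ⟨w, rfl⟩
  obtain ⟨u, hu, he⟩ := exists_irr gen w
  refine ⟨u, ?_, he⟩
  by_contra hl
  simp only [Set.mem_ofPred_eq, not_lt] at hl
  exact hc ⟨u.take n, hu.fac (List.take_prefix n u).isInfix, by simp [hl]⟩

end

/-- factorial languages with words of every length -/
def Fac {B : Type} (L : Set (List B)) : Prop :=
  (∀ w ∈ L, ∀ u, u <:+: w → u ∈ L) ∧ ∀ n, ∃ w ∈ L, w.length = n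

theorem exists_min_fac {B : Type} [Finite B] (L0 : Set (List B)) (h0 : Fac L0) :
    ∃ L, L ⊆ L0 ∧ Fac L ∧ ∀ w ∈ L, ∃ n, ∀ u ∈ L, n ≤ u.length → w <:+: u := by
  obtain ⟨L, hL0, hmin⟩ := zorn_superset_nonempty {L | Fac L} (by
    intro c hc hch hne
    refine ⟨⋂₀ c, ⟨?_, ?_⟩, fun s hs => Set.sInter_subset_of_mem hs⟩
    · intro w hw u hu s hs
      exact (hc hs).1 w (hw s hs) u hu
    · intro n
      by_contra hcon
      have h1 : ∀ w : List B, w.length = n → ∃ s ∈ c, w ∉ s := by
        intro w hw
        by_contra h2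
        push Not at h2
        exact hcon ⟨w, fun s hs => h2 s hs, hw⟩
      have h3 : ∀ F : Set (List B), F.Finite → (∀ w ∈ F, w.length = n) →
          ∃ s ∈ c, ∀ w ∈ F, w ∉ s := by
        intro F hF
        induction F, hF using Set.Finite.induction_on with
        | empty => intro _; obtain ⟨s, hs⟩ := hne; exact ⟨s, hs, by simp⟩
        | @insert a F _ _ ih =>
          intro hF
          obtain ⟨s, hs, h4⟩ := ih (fun w hw => hF w (Set.mem_insert_of_mem _ hw))
          obtain ⟨s', hs', h5⟩ := h1 a (hF a (Set.mem_insert _ _))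
          rcases hch.total hs hs' with h6 | h6
          · refine ⟨s, hs, ?_⟩
            rintro w (rfl | hw)
            · exact fun h => h5 (h6 h)
            · exact h4 w hw
          · refine ⟨s', hs', ?_⟩
            rintro w (rfl | hw)
            · exact h5
            · exact fun h => h4 w hw (h6 h)
      obtain ⟨s, hs, h4⟩ := h3 _ (List.finite_length_eq B n) (fun w hw => hw)
      obtain ⟨w, hw, hl⟩ := (hc hs).2 n
      exact h4 w hl hw) L0 h0
  have hF : Fac L := hmin.prop
  refine ⟨L, hL0, hF, fun w hw => ?_⟩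
  by_contra hcon
  push Not at hcon
  have h1 : Fac {u | u ∈ L ∧ ¬ w <:+: u} := by
    constructor
    · intro a ha u hu
      exact ⟨hF.1 a ha.1 u hu, fun h => ha.2 (h.trans hu)⟩
    · intro n
      obtain ⟨u, hu, hl, hw'⟩ := hcon n
      refine ⟨u.take n, ⟨hF.1 u hu _ (List.take_prefix n u).isInfix, fun h => hw' ?_⟩, by simp [hl]⟩
      exact h.trans (List.take_prefix n u).isInfix
  have h2 := hmin.le_of_le (y := {u | u ∈ L ∧ ¬ w <:+: u}) h1 (fun u hu => hu.1)
  exact (h2 hw).2 List.infix_rfl

theorem exists_good {B : Type} [Finite B] [LinearOrder B] (L0 : Set (List B)) (h0 : Fac L0)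
    (hper : ∀ t : List B, t ≠ [] → ∃ n, (List.replicate n t).flatten ∉ L0) :
    ∃ (Good : List B → Prop) (c c' : B), c < c' ∧ Good [] ∧ (∀ g, Good g → g ∈ L0) ∧
      ∀ ζ g d, Good ζ → Good g → (d = c ∨ d = c') → ∃ y, Good (ζ ++ d :: y ++ g) := by
  classical
  obtain ⟨L, hL0, hF, hUR⟩ := exists_min_fac L0 h0
  have hext : ∀ w ∈ L, ∃ b, w ++ [b] ∈ L := by
    intro w hw
    obtain ⟨n, hn⟩ := hUR w hw
    obtain ⟨u, hu, hl⟩ := hF.2 (n + 1)
    obtain ⟨u', b, rfl⟩ : ∃ u' b, u = u' ++ [b] := by
      rcases List.eq_nil_or_concat u with h | ⟨u', b, h⟩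
      · subst h; simp at hl
      · exact ⟨u', b, by simpa using h⟩
    have hu' : u' ∈ L := hF.1 _ hu _ (List.prefix_append _ _).isInfix
    obtain ⟨p, q, hpq⟩ := hn u' hu' (by simp at hl; omega)
    cases q with
    | nil => exact ⟨b, hF.1 _ hu _ ⟨p, [], by simp [← hpq]⟩⟩
    | cons a q => exact ⟨a, hF.1 _ hu _ ⟨p, q ++ [b], by simp [← hpq]⟩⟩
  have hRS : ∃ c c' : B, c < c' ∧ ∀ n, ∃ u : List B, n ≤ u.length ∧ u ++ [c] ∈ L ∧ u ++ [c'] ∈ L := by
    by_contra hcon
    push Not at hcon
    have h1 : ∀ p : B × B, ∃ n, ∀ u : List B, n ≤ u.length → u ++ [p.1] ∈ L → u ++ [p.2] ∈ L →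
        p.1 = p.2 := by
      rintro ⟨a, b⟩
      rcases lt_trichotomy a b with h | h | h
      · obtain ⟨n, hn⟩ := hcon a b h
        exact ⟨n, fun u h1 h2 h3 => absurd h3 (hn u h1 h2)⟩
      · exact ⟨0, fun _ _ _ _ => h⟩
      · obtain ⟨n, hn⟩ := hcon b a h
        exact ⟨n, fun u h1 h2 h3 => absurd h2 (hn u h1 h3)⟩
    choose f hf using h1
    obtain ⟨n, hn⟩ := (Set.finite_range f).bddAbove
    have huniq : ∀ u : List B, n ≤ u.length → ∀ a b, u ++ [a] ∈ L → u ++ [b] ∈ L → a = b :=
      fun u hu a b ha hb => hf (a, b) u ((hn ⟨(a, b), rfl⟩).trans hu) ha hb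
    have hnil : [] ∈ L := by
      obtain ⟨w, hw, hl⟩ := hF.2 0
      rwa [List.length_eq_zero_iff.1 hl] at hw
    choose nx hnx using hext
    let seq : ℕ → {w // w ∈ L} := fun k => Nat.rec ⟨[], hnil⟩ (fun _ w => ⟨w.1 ++ [nx w.1 w.2], hnx _ _⟩) k
    let s : ℕ → B := fun k => nx (seq k).1 (seq k).2
    have hseq : ∀ k, (seq k).1 = sg s 0 k := by
      intro k
      induction k with
      | zero => simp [seq, sg]
      | succ k ih =>
        rw [← sg_append s (Nat.zero_le k) (Nat.le_succ k), sg_succ, ← ih]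
    have hs : ∀ a b, a ≤ b → sg s a b ∈ L := by
      intro a b hab
      refine hF.1 _ (seq b).2 _ ⟨sg s 0 a, [], ?_⟩
      rw [hseq, List.append_nil, sg_append s (Nat.zero_le a) hab]
    have hfin : (Set.range (fun i => sg s i (i + n))).Finite :=
      (List.finite_length_eq B n).subset (by rintro _ ⟨i, rfl⟩; simp)
    obtain ⟨i, j, hij, he⟩ : ∃ i j, i < j ∧ sg s i (i + n) = sg s j (j + n) := by
      obtain ⟨i, -, j, -, hne, he⟩ := Set.Infinite.exists_ne_map_eq_of_mapsTo (s := Set.univ)
        (f := fun i => sg s i (i + n)) Set.infinite_univ (fun i _ => Set.mem_range_self i) hfin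
      rcases lt_or_gt_of_ne hne with h | h
      · exact ⟨i, j, h, he⟩
      · exact ⟨j, i, h, he.symm⟩
    have hper' : ∀ t, s (i + t) = s (j + t) := by
      intro t
      induction t using Nat.strong_induction_on with
      | _ t ih =>
        by_cases ht : t < n
        · exact (sg_add_eq_iff _ _ _ _ _).1 he t ht
        · have e1 : sg s i (i + t) = sg s j (j + t) := (sg_add_eq_iff _ _ _ _ _).2 ih
          apply huniq (sg s i (i + t)) (by simp; omega)
          · rw [← sg_succ s (i + t), sg_append s (by omega) (by omega)]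
            exact hs _ _ (by omega)
          · rw [e1, ← sg_succ s (j + t), sg_append s (by omega) (by omega)]
            exact hs _ _ (by omega)
    obtain ⟨k, hk⟩ := hper (sg s i j) (by
      intro h
      have := congrArg List.length h
      simp at this
      omega)
    apply hk
    apply hL0
    have h2 : ∀ k, (List.replicate k (sg s i j)).flatten = sg s i (i + k * (j - i)) := by
      intro k
      induction k with
      | zero => simp [sg_self]
      | succ k ih =>
        rw [List.replicate_succ, List.flatten_cons, ih]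
        have e1 : sg s i (i + k * (j - i)) = sg s j (j + k * (j - i)) :=
          (sg_add_eq_iff _ _ _ _ _).2 (fun t _ => hper' t)
        rw [e1, sg_append s hij.le (by omega)]
        congr 1
        rw [Nat.succ_mul]
        omega
    rw [h2]
    exact hs _ _ (by omega)
  obtain ⟨c, c', hcc, hRS⟩ := hRS
  let Good : List B → Prop := fun g =>
    ∀ n, ∃ u : List B, n ≤ u.length ∧ u ++ g ++ [c] ∈ L ∧ u ++ g ++ [c'] ∈ L
  have hG1 : ∀ g, Good g → g ++ [c] ∈ L ∧ g ++ [c'] ∈ L := by
    intro g hg
    obtain ⟨u, -, h1, h2⟩ := hg 0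
    exact ⟨hF.1 _ h1 _ ⟨u, [], by simp⟩, hF.1 _ h2 _ ⟨u, [], by simp⟩⟩
  have hG2 : ∀ u g, Good (u ++ g) → Good g := by
    intro u g h n
    obtain ⟨u', h1, h2, h3⟩ := h n
    exact ⟨u' ++ u, by simp; omega, by simpa using h2, by simpa using h3⟩
  have hG3 : ∀ g, Good g → ∃ b, Good (b :: g) := by
    intro g hg
    by_contra hcon
    push Not at hcon
    have h1 : ∀ b, ∃ n, ∀ u : List B, n ≤ u.length → u ++ (b :: g) ++ [c] ∈ L →
        u ++ (b :: g) ++ [c'] ∉ L := by
      intro b
      have := hcon b
      simp only [Good] at this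
      push Not at this
      exact this
    choose f hf using h1
    obtain ⟨n, hn⟩ := (Set.finite_range f).bddAbove
    obtain ⟨u, hu, h2, h3⟩ := hg (n + 1)
    obtain ⟨u', b, rfl⟩ : ∃ u' b, u = u' ++ [b] := by
      rcases List.eq_nil_or_concat u with h | ⟨u', b, h⟩
      · subst h; simp at hu
      · exact ⟨u', b, by simpa using h⟩
    have := hn ⟨b, rfl⟩
    exact hf b u' (by simp at hu; omega) (by simpa using h2) (by simpa using h3)
  have hG4 : ∀ g, Good g → ∀ n, ∃ u : List B, u.length = n ∧ Good (u ++ g) := by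
    intro g hg n
    induction n with
    | zero => exact ⟨[], rfl, hg⟩
    | succ n ih =>
      obtain ⟨u, h1, h2⟩ := ih
      obtain ⟨b, hb⟩ := hG3 _ h2
      exact ⟨b :: u, by simp [h1], hb⟩
  refine ⟨Good, c, c', hcc, fun n => by simpa using hRS n, fun g hg =>
    hL0 (hF.1 _ (hG1 g hg).1 _ (List.prefix_append _ _).isInfix), ?_⟩
  intro ζ g d hζ hg hd
  have h1 : ζ ++ [d] ∈ L := by
    rcases hd with rfl | rfl
    · exact (hG1 ζ hζ).1
    · exact (hG1 ζ hζ).2
  obtain ⟨n, hn⟩ := hUR _ h1
  obtain ⟨u, hu, h2⟩ := hG4 g hg n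
  have h3 : u ∈ L := hF.1 _ (hG1 _ h2).1 _ ⟨[], g ++ [c], by simp⟩
  obtain ⟨p, y, rfl⟩ := hn u h3 hu.ge
  exact ⟨y, hG2 p _ (by simpa using h2)⟩

theorem zimin_map {B : Type} (Good : List B → Prop) (c c' : B) (h0 : Good [])
    (hG : ∀ ζ g d, Good ζ → Good g → (d = c ∨ d = c') → ∃ y, Good (ζ ++ d :: y ++ g))
    {M : ℕ → ℕ} (hM : Chain M) (J : ℕ) (fi : ℕ → B) (hfi : ∀ n, fi n = c ∨ fi n = c') :
    ∃ φ : ℕ → List B, (∀ n, ∃ y, φ n = fi n :: y) ∧ Good ((sg (gz M J) 0 (M J - 1)).flatMap φ) := by
  classical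
  have main : ∀ j, j ≤ J → ∃ φ : ℕ → List B, (∀ n, ∃ y, φ n = fi n :: y) ∧
      Good ((sg (gz M J) 0 (M j - 1)).flatMap φ) := by
    intro j
    induction j with
    | zero => intro _; exact ⟨fun n => [fi n], fun n => ⟨[], rfl⟩, by simpa [hM.zero, sg_self] using h0⟩
    | succ j ih =>
      intro hj
      obtain ⟨φ, hφ, hg⟩ := ih (by omega)
      obtain ⟨q, hq⟩ := hM.dvd j
      have hp := hM.pos j
      have hq0 : 0 < q := by
        have := hM.pos (j + 1)
        rw [hq] at this
        exact Nat.pos_of_mul_pos_left this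
      have hMJ : M (j + 1) ≤ M J := Nat.le_of_dvd (hM.pos _) (hM.dvd_of_le hj)
      have hseg : ∀ e, sg (gz M J) (M j * e) (M j * e + (M j - 1)) = sg (gz M J) 0 (M j - 1) := by
        intro e
        have := gz_G1 hM (J := J) (j := j) (a := M j * e) (a' := 0) (n := M j - 1) (by omega) ?_
          ((Nat.modEq_zero_iff_dvd).2 (Dvd.intro _ rfl))
        · simpa using this
        · rw [not_cross_iff hp (Nat.le_add_right _ _), Nat.mul_add_div hp, Nat.mul_div_cancel_left _ hp,
            Nat.div_eq_of_lt (by omega)]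
          rfl
      have hsmall : ∀ z ∈ sg (gz M J) 0 (M j - 1), z < M j := by
        intro z hz
        obtain ⟨t, -, h2, rfl⟩ := mem_sg.1 hz
        exact lt_of_le_of_lt (Nat.mod_le _ _) (by omega)
      have inner : ∀ i, i < q → ∃ φ' : ℕ → List B, (∀ n, ∃ y, φ' n = fi n :: y) ∧
          (∀ n, n < M j → φ' n = φ n) ∧
          Good ((sg (gz M J) (M j * (q - 1 - i)) (M j * q - 1)).flatMap φ') := by
        intro i
        induction i with
        | zero =>
          intro _
          refine ⟨φ, hφ, fun _ _ => rfl, ?_⟩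
          have e1 : M j * q - 1 = M j * (q - 1 - 0) + (M j - 1) := by
            obtain ⟨q', rfl⟩ : ∃ q', q = q' + 1 := ⟨q - 1, by omega⟩
            simp [Nat.mul_succ]
            omega
          rw [e1, hseg]
          exact hg
        | succ i ih2 =>
          intro hi
          obtain ⟨φ', h1, h2, h3⟩ := ih2 (by omega)
          obtain ⟨e, he⟩ : ∃ e, q - 1 - (i + 1) = e := ⟨_, rfl⟩
          have he1 : q - 1 - i = e + 1 := by omega
          rw [he]
          rw [he1] at h3
          have hlt : M j * (e + 1) < M j * q := Nat.mul_lt_mul_of_pos_left (by omega) hp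
          have hn0 : M j * (e + 1) = M j * e + M j := Nat.mul_succ _ _
          have hgz : gz M J (M j * e + (M j - 1)) = M j * (e + 1) := by
            have e2 : M j * e + (M j - 1) + 1 = M j * (e + 1) := by omega
            unfold gz
            rw [e2, lv_eq hM (j := j) (by omega) (Dvd.intro _ rfl), Nat.mod_eq_of_lt (by omega)]
            intro hd
            have := Nat.le_of_dvd (by omega) hd
            omega
          have hg' : Good ((sg (gz M J) 0 (M j - 1)).flatMap φ') := by
            rw [List.flatMap_congr (g := φ) (fun z hz => h2 z (hsmall z hz))]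
            exact hg
          obtain ⟨y, hy⟩ := hG _ _ (fi (M j * (e + 1))) hg' h3 (hfi _)
          refine ⟨Function.update φ' (M j * (e + 1)) (fi (M j * (e + 1)) :: y), ?_, ?_, ?_⟩
          · intro n
            by_cases hn : n = M j * (e + 1)
            · subst hn; exact ⟨y, by simp⟩
            · rw [Function.update_of_ne hn]; exact h1 n
          · intro n hn
            rw [Function.update_of_ne (by omega)]
            exact h2 n hn
          · rw [← sg_append (gz M J) (b := M j * e + (M j - 1)) (by omega) (by omega),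
              ← sg_append (gz M J) (a := M j * e + (M j - 1)) (b := M j * e + (M j - 1) + 1) (by omega)
                (by omega), sg_succ, hgz, hseg, List.flatMap_append, List.flatMap_append,
              List.flatMap_singleton, Function.update_self]
            have e3 : M j * e + (M j - 1) + 1 = M j * (e + 1) := by omega
            rw [e3, List.flatMap_congr (g := φ') (l := sg (gz M J) 0 (M j - 1)),
              List.flatMap_congr (g := φ') (l := sg (gz M J) (M j * (e + 1)) (M j * q - 1))]
            · simpa using hy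
            · intro z hz
              obtain ⟨t, h4, h5, rfl⟩ := mem_sg.1 hz
              apply Function.update_of_ne
              intro h6
              rw [← hgz] at h6
              have h7 := gz_inj hM (j := j) (by omega) (by omega) h6.symm (by rw [e3]; exact Dvd.intro _ rfl)
              have := Nat.ModEq.eq_of_lt_of_lt h7 (by omega) (by omega)
              omega
            · intro z hz
              have := hsmall z hz
              exact Function.update_of_ne (by omega) _ _
      obtain ⟨φ', h1, -, h3⟩ := inner (q - 1) (by omega)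
      refine ⟨φ', h1, ?_⟩
      rw [hq]
      simpa using h3
  exact main J le_rfl

theorem first_diff {α : Type} : ∀ (l1 l2 : List α), l1.length = l2.length → l1 ≠ l2 →
    ∃ (p : List α) (a b : α) (s s' : List α), l1 = p ++ a :: s ∧ l2 = p ++ b :: s' ∧ a ≠ b
  | [], [], _, h => absurd rfl h
  | [], _ :: _, h, _ => by simp at h
  | _ :: _, [], h, _ => by simp at h
  | a :: l1, b :: l2, h, hne => by
    by_cases hab : a = b
    · subst hab
      obtain ⟨p, c, d, s, s', rfl, rfl, hcd⟩ := first_diff l1 l2 (by simpa using h)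
        (fun h => hne (by rw [h]))
      exact ⟨a :: p, c, d, s, s', rfl, rfl, hcd⟩
    · exact ⟨[], a, b, l1, l2, rfl, rfl, hab⟩

theorem giso_of_periodic {B : Type} [Finite B] [LinearOrder B] {N : Type} [Monoid N] (gen : B → N)
    (hinf : (Set.range (ev gen)).Infinite)
    (hper : ∀ t : List B, t ≠ [] → ∃ a b, a < b ∧ ev gen t ^ a = ev gen t ^ b)
    (u v : List ℕ) (huv : u.Perm v)
    (hid : ∀ φ : ℕ → List B, (∀ z, φ z ≠ []) → ev gen (u.flatMap φ) = ev gen (v.flatMap φ)) :
    GIso u v := by
  classical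
  obtain ⟨Good, c, c', hcc, h0, hG0, hG⟩ := exists_good {w | Irr gen w}
    ⟨fun w hw u hu => Irr.fac hw hu, irr_all_lengths gen hinf⟩ (by
      intro t ht
      obtain ⟨a, b, hab, he⟩ := hper t ht
      refine ⟨b, fun h => ?_⟩
      have hev : ∀ k, ev gen (List.replicate k t).flatten = ev gen t ^ k := by
        intro k
        induction k with
        | zero => simp [ev]
        | succ k ih => rw [List.replicate_succ, List.flatten_cons, ev_append, ih, pow_succ']
      have := h.1 (List.replicate a t).flatten (by rw [hev, hev, he])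
      simp only [List.length_flatten, List.map_replicate, List.sum_replicate, smul_eq_mul] at this
      have h2 : 0 < t.length := List.length_pos_iff.2 ht
      have := Nat.le_of_mul_le_mul_right this h2
      omega)
  intro M J hM χ a0 b0 hχ hab hb hu
  by_contra hne
  have hperm : (u.flatMap χ).Perm (v.flatMap χ) := huv.flatMap_right χ
  obtain ⟨p, a, b, s, s', h1, h2, hne'⟩ := first_diff _ _ hperm.length_eq (Ne.symm hne)
  obtain ⟨φ, hφ, hg⟩ := zimin_map Good c c' h0 hG hM J (fun n => if n = a then c' else c)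
    (fun n => by by_cases h : n = a <;> simp [h])
  have hI : Irr gen ((u.flatMap χ).flatMap φ) := by
    refine Irr.fac (hG0 _ hg) ?_
    rw [hu, ← sg_append (gz M J) (b := b0) (Nat.zero_le _) (by omega),
      ← sg_append (gz M J) (b := a0) (Nat.zero_le _) hab, List.flatMap_append, List.flatMap_append]
    exact ⟨_, _, rfl⟩
  let φ' : ℕ → List B := fun z => if z ∈ u then (χ z).flatMap φ else [c]
  have hφ' : ∀ z, φ' z ≠ [] := by
    intro z
    by_cases hz : z ∈ u
    · simp only [φ', if_pos hz]
      obtain ⟨x, l, hx⟩ := List.exists_cons_of_ne_nil (hχ z hz)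
      obtain ⟨y, hy⟩ := hφ x
      rw [hx, List.flatMap_cons, hy]
      simp
    · simp [φ', hz]
  have e1 : u.flatMap φ' = (u.flatMap χ).flatMap φ := by
    rw [List.flatMap_assoc]
    exact List.flatMap_congr (fun z hz => by simp [φ', hz])
  have e2 : v.flatMap φ' = (v.flatMap χ).flatMap φ := by
    rw [List.flatMap_assoc]
    exact List.flatMap_congr (fun z hz => by simp [φ', huv.symm.subset hz])
  have h3 := hid φ' hφ'
  rw [e1, e2] at h3
  refine hI.2 _ h3.symm (hperm.flatMap_right φ).length_eq.symm ?_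
  obtain ⟨y, hy⟩ := hφ a
  obtain ⟨y', hy'⟩ := hφ b
  rw [if_pos rfl] at hy
  rw [if_neg hne'.symm] at hy'
  refine ⟨p.flatMap φ, c, c', y' ++ s'.flatMap φ, y ++ s.flatMap φ, ?_, ?_, hcc⟩
  · rw [h2]; simp [hy']
  · rw [h1]; simp [hy]

end Pool.Agent.H541Z
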