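import Mathlib

set_option autoImplicit false

namespace Pool.Agent.H541Z

/-- the segment `f a, …, f (b-1)` -/
def sg {α : Type} (f : ℕ → α) (a b : ℕ) : List α := (List.range (b - a)).map (fun t => f (a + t))

section
variable {α β : Type}

@[simp] theorem sg_length (f : ℕ → α) (a b : ℕ) : (sg f a b).length = b - a := by
  simp [sg]

theorem sg_self (f : ℕ → α) (a : ℕ) : sg f a a = [] := by simp [sg]

theorem sg_eq_iff (f g : ℕ → α) (a b c d : ℕ) :
    sg f a b = sg g c d ↔ b - a = d - c ∧ ∀ t, t < b - a → f (a + t) = g (c + t) := by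
  constructor
  · intro h
    have hl : b - a = d - c := by simpa using congrArg List.length h
    refine ⟨hl, fun t ht => ?_⟩
    have h1 : (sg f a b)[t]? = (sg g c d)[t]? := by rw [h]
    have ht' : t < d - c := hl ▸ ht
    simp only [sg, List.getElem?_map, List.getElem?_range ht, List.getElem?_range ht',
      Option.map_some, Option.some.injEq] at h1
    exact h1
  · rintro ⟨hl, h⟩
    unfold sg
    rw [← hl]
    apply List.map_congr_left
    intro t ht
    exact h t (List.mem_range.1 ht)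

theorem sg_add_eq_iff (f g : ℕ → α) (a c n : ℕ) :
    sg f a (a + n) = sg g c (c + n) ↔ ∀ t, t < n → f (a + t) = g (c + t) := by
  rw [sg_eq_iff]
  simp

theorem sg_append (f : ℕ → α) {a b c : ℕ} (h1 : a ≤ b) (h2 : b ≤ c) :
    sg f a b ++ sg f b c = sg f a c := by
  unfold sg
  have : c - a = (b - a) + (c - b) := by omega
  rw [this, List.range_add, List.map_append, List.map_map]
  congr 1
  apply List.map_congr_left
  intro t _
  simp only [Function.comp]
  congr 1
  omega

theorem sg_split {f : ℕ → α} {a c : ℕ} {l1 l2 : List α} (hac : a ≤ c) (h : l1 ++ l2 = sg f a c) :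
    a + l1.length ≤ c ∧ l1 = sg f a (a + l1.length) ∧ l2 = sg f (a + l1.length) c := by
  have hl : l1.length + l2.length = c - a := by simpa using congrArg List.length h
  have h1 : a + l1.length ≤ c := by omega
  rw [← sg_append f (Nat.le_add_right a l1.length) h1] at h
  have := List.append_inj h (by simp)
  exact ⟨h1, this.1, this.2⟩

theorem sg_map (f : ℕ → α) (g : α → β) (a b : ℕ) : (sg f a b).map g = sg (fun t => g (f t)) a b := by
  simp [sg, Function.comp_def]

theorem mem_sg {f : ℕ → α} {a b : ℕ} {y : α} : y ∈ sg f a b ↔ ∃ t, a ≤ t ∧ t < b ∧ f t = y := by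
  simp only [sg, List.mem_map, List.mem_range]
  constructor
  · rintro ⟨t, ht, rfl⟩
    exact ⟨a + t, by omega, by omega, rfl⟩
  · rintro ⟨t, h1, h2, rfl⟩
    exact ⟨t - a, by omega, by congr 1; omega⟩

theorem sg_succ (f : ℕ → α) (a : ℕ) : sg f a (a + 1) = [f a] := by simp [sg]

theorem sg_getD (l : List α) (d : α) : sg (fun t => l.getD t d) 0 l.length = l := by
  apply List.ext_getElem
  · simp
  · intro n h1 h2
    simp [sg, List.getD_eq_getElem?_getD, List.getElem?_eq_getElem h2]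

/-- partial sums of lengths -/
def ps (W : List α) (F : α → List β) (a j : ℕ) : ℕ := a + ((W.take j).flatMap F).length

theorem ps_zero (W : List α) (F : α → List β) (a : ℕ) : ps W F a 0 = a := by simp [ps]

theorem ps_succ (W : List α) (F : α → List β) (a j : ℕ) (hj : j < W.length) :
    ps W F a (j + 1) = ps W F a j + (F W[j]).length := by
  unfold ps
  rw [List.take_add_one, List.getElem?_eq_getElem hj, List.flatMap_append, List.length_append,
    Option.toList_some, List.flatMap_singleton, Nat.add_assoc]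

theorem unflatten (W : List α) (F : α → List β) (f : ℕ → β) {a b : ℕ} (hab : a ≤ b)
    (h : W.flatMap F = sg f a b) :
    ps W F a W.length = b ∧ (∀ j, ps W F a j ≤ b) ∧
      ∀ j (hj : j < W.length), F W[j] = sg f (ps W F a j) (ps W F a (j + 1)) := by
  refine ⟨?_, ?_, ?_⟩
  · unfold ps
    rw [List.take_length, h, sg_length]
    omega
  · intro j
    have h2 : (W.take j).flatMap F ++ (W.drop j).flatMap F = sg f a b := by
      rw [← List.flatMap_append, List.take_append_drop, h]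
    exact (sg_split hab h2).1
  · intro j hj
    have h2 : (W.take j).flatMap F ++ (F W[j] ++ (W.drop (j + 1)).flatMap F) = sg f a b := by
      rw [← List.flatMap_cons, ← List.flatMap_append, ← List.drop_eq_getElem_cons hj,
        List.take_append_drop, h]
    obtain ⟨h3, -, h4⟩ := sg_split hab h2
    obtain ⟨-, h5, -⟩ := sg_split h3 h4.symm.symm
    rw [ps_succ W F a j hj]
    exact h5

theorem flatten_sg (W : List α) (F : α → List β) (f : ℕ → β) (N : ℕ → ℕ)
    (hN : ∀ j, j < W.length → N j ≤ N (j + 1))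
    (h : ∀ j (hj : j < W.length), F W[j] = sg f (N j) (N (j + 1))) :
    N 0 ≤ N W.length ∧ W.flatMap F = sg f (N 0) (N W.length) := by
  induction W generalizing N with
  | nil => simp [sg_self]
  | cons a W ih =>
    have := ih (fun j => N (j + 1)) (fun j hj => hN (j + 1) (by simpa using hj))
      (fun j hj => h (j + 1) (by simpa using hj))
    have h0 := h 0 (by simp)
    have h1 := hN 0 (by simp)
    simp only [List.getElem_cons_zero] at h0
    refine ⟨le_trans h1 this.1, ?_⟩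
    rw [List.flatMap_cons, this.2, h0]
    exact sg_append f h1 this.1

end

/-- a multiple of `μ` lies in `(a, b]` -/
def Cross (μ a b : ℕ) : Prop := ∃ n, a < n ∧ n ≤ b ∧ μ ∣ n

theorem not_cross_iff {μ a b : ℕ} (hμ : 0 < μ) (hab : a ≤ b) : ¬ Cross μ a b ↔ a / μ = b / μ := by
  constructor
  · intro h
    by_contra hne
    have hlt : a / μ < b / μ := lt_of_le_of_ne (Nat.div_le_div_right hab) hne
    refine h ⟨μ * (b / μ), ?_, Nat.mul_div_le b μ, Dvd.intro _ rfl⟩
    calc a < μ * (a / μ + 1) := Nat.lt_mul_div_succ a hμ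
      _ ≤ μ * (b / μ) := Nat.mul_le_mul_left μ hlt
  · rintro h ⟨n, h1, h2, ⟨q, rfl⟩⟩
    have h3 : q ≤ b / μ := (Nat.le_div_iff_mul_le hμ).2 (by rw [Nat.mul_comm]; exact h2)
    have h4 : a / μ < q := (Nat.div_lt_iff_lt_mul hμ).2 (by rw [Nat.mul_comm]; exact h1)
    omega

theorem cross_self {μ : ℕ} (hμ : 0 < μ) (a : ℕ) : Cross μ a (a + μ) := by
  by_contra h
  rw [not_cross_iff hμ (Nat.le_add_right _ _), Nat.add_div_right _ hμ] at h
  omega

theorem Cross.mono {μ ν a b a' b' : ℕ} (h : Cross μ a b) (hd : ν ∣ μ) (ha : a' ≤ a) (hb : b ≤ b') :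
    Cross ν a' b' := by
  obtain ⟨n, h1, h2, h3⟩ := h
  exact ⟨n, by omega, by omega, hd.trans h3⟩

theorem Cross.shift {μ a a' n : ℕ} (h : Cross μ a (a + n)) (hm : a ≡ a' [MOD μ]) :
    Cross μ a' (a' + n) := by
  obtain ⟨c, h1, h2, h3⟩ := h
  refine ⟨a' + (c - a), by omega, by omega, ?_⟩
  have : a' + (c - a) ≡ a + (c - a) [MOD μ] := (hm.symm).add_right _
  have h4 : a + (c - a) = c := by omega
  rw [h4] at this
  exact (Nat.modEq_zero_iff_dvd).1 (this.trans ((Nat.modEq_zero_iff_dvd).2 h3))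

/-- a divisibility chain of positive moduli starting at one -/
structure Chain (M : ℕ → ℕ) : Prop where
  zero : M 0 = 1
  pos : ∀ j, 0 < M j
  dvd : ∀ j, M j ∣ M (j + 1)

theorem Chain.dvd_of_le {M : ℕ → ℕ} (hM : Chain M) {i j : ℕ} (h : i ≤ j) : M i ∣ M j := by
  induction h with
  | refl => exact dvd_rfl
  | step _ ih => exact ih.trans (hM.dvd _)

/-- level of `n` in the chain -/
def lv (M : ℕ → ℕ) (J n : ℕ) : ℕ := Nat.findGreatest (fun j => M j ∣ n) J

/-- the generalised Zimin word of a chain of moduli -/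
def gz (M : ℕ → ℕ) (J t : ℕ) : ℕ := (t + 1) % M (lv M J (t + 1) + 1)

theorem lv_dvd {M : ℕ → ℕ} (hM : Chain M) (J n : ℕ) : M (lv M J n) ∣ n :=
  Nat.findGreatest_spec (P := fun j => M j ∣ n) (Nat.zero_le J) (by rw [hM.zero]; exact one_dvd n)

theorem lv_ge {M : ℕ → ℕ} {J n j : ℕ} (hj : j ≤ J) (h : M j ∣ n) : j ≤ lv M J n :=
  Nat.le_findGreatest hj h

theorem lv_le (M : ℕ → ℕ) (J n : ℕ) : lv M J n ≤ J := Nat.findGreatest_le J

theorem lv_lt {M : ℕ → ℕ} (hM : Chain M) {J n j : ℕ} (h : ¬ M j ∣ n) : lv M J n < j := by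
  by_contra hc
  exact h ((hM.dvd_of_le (not_lt.1 hc)).trans (lv_dvd hM J n))

theorem lv_eq {M : ℕ → ℕ} (hM : Chain M) {J n j : ℕ} (hj : j ≤ J) (h1 : M j ∣ n)
    (h2 : ¬ M (j + 1) ∣ n) : lv M J n = j := by
  have := lv_ge hj h1
  have := lv_lt (J := J) hM h2
  omega

theorem not_dvd_lv {M : ℕ → ℕ} {J n : ℕ} (h : lv M J n < J) : ¬ M (lv M J n + 1) ∣ n := by
  intro hd
  have := lv_ge (J := J) (by omega : lv M J n + 1 ≤ J) hd
  omega

theorem gz_congr {M : ℕ → ℕ} (hM : Chain M) {J j t t' : ℕ} (hj : j ≤ J) (h1 : ¬ M j ∣ t + 1)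
    (h2 : t ≡ t' [MOD M j]) : gz M J t = gz M J t' := by
  have hl := lv_lt (J := J) hM h1
  have h3 : t + 1 ≡ t' + 1 [MOD M (lv M J (t + 1) + 1)] :=
    (h2.add_right 1).of_dvd (hM.dvd_of_le (by omega))
  have h4 : t + 1 ≡ t' + 1 [MOD M (lv M J (t + 1))] := h3.of_dvd (hM.dvd _)
  have h5 : lv M J (t' + 1) = lv M J (t + 1) := by
    apply lv_eq hM (lv_le _ _ _)
    · exact (h4.dvd_iff dvd_rfl).1 (lv_dvd hM J _)
    · rw [← h3.dvd_iff dvd_rfl]
      exact not_dvd_lv (by omega)
  unfold gz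
  rw [h5]
  exact h3

theorem gz_G1 {M : ℕ → ℕ} (hM : Chain M) {J j a a' n : ℕ} (hj : j ≤ J)
    (h1 : ¬ Cross (M j) a (a + n)) (h2 : a ≡ a' [MOD M j]) :
    sg (gz M J) a (a + n) = sg (gz M J) a' (a' + n) := by
  rw [sg_add_eq_iff]
  intro t ht
  apply gz_congr hM hj
  · intro hd
    exact h1 ⟨a + t + 1, by omega, by omega, hd⟩
  · exact h2.add_right t

theorem gz_inj {M : ℕ → ℕ} (hM : Chain M) {J j t t' : ℕ} (ht : t + 1 < M J) (ht' : t' + 1 < M J)
    (h : gz M J t = gz M J t') (hd : M j ∣ t + 1) : t ≡ t' [MOD M (j + 1)] := by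
  have hn : ¬ M J ∣ t + 1 := fun hd => absurd (Nat.le_of_dvd (by omega) hd) (by omega)
  have hn' : ¬ M J ∣ t' + 1 := fun hd => absurd (Nat.le_of_dvd (by omega) hd) (by omega)
  have hl := lv_lt (J := J) hM hn
  have hl' := lv_lt (J := J) hM hn'
  have key : ∀ s, lv M J (s + 1) < J → M (lv M J (s + 1)) ∣ gz M J s ∧
      ¬ M (lv M J (s + 1) + 1) ∣ gz M J s := by
    intro s hs
    unfold gz
    refine ⟨(Nat.dvd_mod_iff (hM.dvd _)).2 (lv_dvd hM J _), ?_⟩
    rw [Nat.dvd_mod_iff dvd_rfl]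
    exact not_dvd_lv hs
  have k1 := key t hl
  have k2 := key t' hl'
  have hll : lv M J (t + 1) = lv M J (t' + 1) := by
    rcases lt_trichotomy (lv M J (t + 1)) (lv M J (t' + 1)) with hc | hc | hc
    · exact absurd (h ▸ (hM.dvd_of_le (by omega)).trans k2.1) k1.2
    · exact hc
    · exact absurd (h ▸ (hM.dvd_of_le (by omega)).trans k1.1) k2.2
  have hjJ : j ≤ J := by
    by_contra hc
    exact hn ((hM.dvd_of_le (by omega)).trans hd)
  have hjl := lv_ge hjJ hd
  have h3 : t + 1 ≡ t' + 1 [MOD M (lv M J (t + 1) + 1)] := by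
    unfold gz at h
    rw [← hll] at h
    exact h
  exact Nat.ModEq.add_right_cancel' 1 (h3.of_dvd (hM.dvd_of_le (by omega)))

theorem gz_G2 {M : ℕ → ℕ} (hM : Chain M) {J j a a' n : ℕ} (ha : a + n < M J) (ha' : a' + n < M J)
    (h : sg (gz M J) a (a + n) = sg (gz M J) a' (a' + n)) (hc : Cross (M j) a (a + n)) :
    a ≡ a' [MOD M (j + 1)] := by
  obtain ⟨c, h1, h2, h3⟩ := hc
  rw [sg_add_eq_iff] at h
  have h4 := h (c - a - 1) (by omega)
  have h5 : a + (c - a - 1) + 1 = c := by omega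
  have := gz_inj hM (j := j) (by omega) (by omega) h4 (by rw [h5]; exact h3)
  exact Nat.ModEq.add_right_cancel' _ this

/-- every segment of a generalised Zimin word is rigid for the identity `u = v` -/
def GIso (u v : List ℕ) : Prop :=
  ∀ (M : ℕ → ℕ) (J : ℕ), Chain M → ∀ (χ : ℕ → List ℕ) (a b : ℕ), (∀ z ∈ u, χ z ≠ []) → a ≤ b →
    b < M J → u.flatMap χ = sg (gz M J) a b → v.flatMap χ = u.flatMap χ

end Pool.Agent.H541Z
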