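import Pool.Agent.H541Z.Core1

set_option autoImplicit false

namespace Pool.Agent.H541Z

/-- the test property alone -/
def GT {A : Type} (m : ℕ) (r h : ℕ → ℕ) (K : ℕ) (x : ℕ → A) : Prop :=
  ∀ k s, k + 2 ≤ K → s < r k → ∃ T : Set (ℕ → List A → Prop),
    (∀ D ∈ T, (∀ i w, D i w → i < h (k + 1)) ∨ (∀ i w, D i w → h (k + 1) ≤ i)) ∧
    (∀ D ∈ T, ∀ G, (G + 1) * LL r (k + 2) ≤ LL r K →
      ∃! i, i < r (k + 1) ∧ D i (blk r x k G i s)) ∧
    (∀ G, (G + 1) * LL r (k + 2) ≤ LL r K → ∀ y : ℕ → List A,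
      (∀ i, i < r (k + 1) → ∃ G', (G' + 1) * LL r (k + 2) ≤ LL r K ∧ y i = blk r x k G' i s) →
      (∀ D ∈ T, ∃! i, i < r (k + 1) ∧ D i (y i)) →
      (∃ E : Finset ℕ, E.card ≤ m ∧ ∀ i, i < r (k + 1) → i ∉ E → y i = blk r x k G i s) →
      ∀ i, i < r (k + 1) → y i = blk r x k G i s)

theorem list_prod_ext {α β : Type} : ∀ (l l' : List (α × β)), l.map Prod.fst = l'.map Prod.fst →
    l.map Prod.snd = l'.map Prod.snd → l = l'
  | [], [], _, _ => rfl
  | [], _ :: _, h, _ => by simp at h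
  | _ :: _, [], h, _ => by simp at h
  | a :: l, b :: l', h1, h2 => by
    simp only [List.map_cons, List.cons.injEq] at h1 h2
    rw [list_prod_ext l l' h1.2 h2.2, Prod.ext h1.1 h2.1]

theorem blk_map {α β : Type} (r : ℕ → ℕ) (x : ℕ → α) (f : α → β) (k G i s : ℕ) :
    (blk r x k G i s).map f = blk r (fun t => f (x t)) k G i s := sg_map _ _ _ _

theorem GT.prod {α β : Type} {m : ℕ} {r h : ℕ → ℕ} {K : ℕ} {x : ℕ → α} {z : ℕ → β}
    (hx : GT m r h K x) (hz : GT m r h K z) : GT m r h K (fun t => (x t, z t)) := by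
  intro k s hk hs
  obtain ⟨T1, a1, a2, a3⟩ := hx k s hk hs
  obtain ⟨T2, b1, b2, b3⟩ := hz k s hk hs
  refine ⟨{D | ∃ D1 ∈ T1, D = fun i w => D1 i (w.map Prod.fst)} ∪
    {D | ∃ D2 ∈ T2, D = fun i w => D2 i (w.map Prod.snd)}, ?_, ?_, ?_⟩
  · rintro D (⟨D1, h1, rfl⟩ | ⟨D1, h1, rfl⟩)
    · exact (a1 D1 h1).imp (fun h i w => h i _) (fun h i w => h i _)
    · exact (b1 D1 h1).imp (fun h i w => h i _) (fun h i w => h i _)
  · rintro D (⟨D1, h1, rfl⟩ | ⟨D1, h1, rfl⟩) G hG
    · simp only [blk_map]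
      exact a2 D1 h1 G hG
    · simp only [blk_map]
      exact b2 D1 h1 G hG
  · rintro G hG y h1 h2 ⟨E, h3, h4⟩ i hi
    apply list_prod_ext
    · rw [blk_map]
      refine a3 G hG (fun i => (y i).map Prod.fst) ?_ ?_ ⟨E, h3, ?_⟩ i hi
      · intro i hi
        obtain ⟨G', g1, g2⟩ := h1 i hi
        exact ⟨G', g1, by simp only [g2, blk_map]⟩
      · intro D hD
        exact h2 _ (Or.inl ⟨D, hD, rfl⟩)
      · intro i hi hE
        simp only [h4 i hi hE, blk_map]
    · rw [blk_map]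
      refine b3 G hG (fun i => (y i).map Prod.snd) ?_ ?_ ⟨E, h3, ?_⟩ i hi
      · intro i hi
        obtain ⟨G', g1, g2⟩ := h1 i hi
        exact ⟨G', g1, by simp only [g2, blk_map]⟩
      · intro D hD
        exact h2 _ (Or.inr ⟨D, hD, rfl⟩)
      · intro i hi hE
        simp only [h4 i hi hE, blk_map]

theorem sg_block_iff {α : Type} (y y' : ℕ → α) (a a' r L : ℕ) (hL : 0 < L) :
    sg y a (a + r * L) = sg y' a' (a' + r * L) ↔
      ∀ s, s < r → sg y (a + s * L) (a + s * L + L) = sg y' (a' + s * L) (a' + s * L + L) := by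
  simp only [sg_add_eq_iff]
  constructor
  · intro h s hs t ht
    rw [Nat.add_assoc, Nat.add_assoc]
    apply h
    have : (s + 1) * L ≤ r * L := Nat.mul_le_mul_right _ hs
    rw [Nat.succ_mul] at this
    omega
  · intro h t ht
    have := h (t / L) ((Nat.div_lt_iff_lt_mul hL).2 ht) (t % L) (Nat.mod_lt _ hL)
    rwa [Nat.add_assoc, Nat.add_assoc, Nat.div_add_mod'] at this

/-- the extra bit of the skeleton -/
def EB (r g : ℕ → ℕ) : ℕ → ℕ → ℕ → Bool
  | 0, _, _ => false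
  | f + 1, k, p => Nat.testBit (2 * (p / r k / r (k + 1) % r (k + 2)) + (EB r g f (k + 1) (p / r k)).toNat)
      (p % r k / g k)

/-- the skeleton word -/
def skel (r g : ℕ → ℕ) (K : ℕ) (P : ℕ) : ZMod (r 0 * r 1) × Bool := ((P : ZMod (r 0 * r 1)), EB r g K 0 P)

section
variable {m : ℕ} {r g h n : ℕ → ℕ} (hg : ∀ k, m < g k) (hr : ∀ k, r k = 2 * h k)
  (hh : ∀ k, h k = n k * g k) (hn : ∀ k, 0 < n k) (hb : ∀ k, 2 * r (k + 2) ≤ 2 ^ (2 * n k))
include hg hr hh hn hb

omit hb in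
theorem skel_r_pos (k : ℕ) : 0 < r k := by
  rw [hr, hh]
  have h1 : 0 < g k := by have := hg k; omega
  have := hn k
  positivity

theorem sk1 (K : ℕ) : ∀ k, k ≤ K → ∀ p p',
    (sg (skel r g K) (p * LL r k) (p * LL r k + LL r k) =
      sg (skel r g K) (p' * LL r k) (p' * LL r k + LL r k) ↔
      p ≡ p' [MOD r k * r (k + 1)] ∧ EB r g (K - k) k p = EB r g (K - k) k p') := by
  have hrp := skel_r_pos hg hr hh hn
  intro k
  induction k with
  | zero =>
    intro _ p p'
    simp only [LL, Nat.mul_one, sg_succ, List.cons.injEq, and_true, skel, Prod.mk.injEq,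
      ZMod.natCast_eq_natCast_iff, Nat.sub_zero, Nat.zero_add]
  | succ k ih =>
    intro hk p p'
    have hL := (LL_chain hrp).pos k
    have e0 : ∀ p s, p * LL r (k + 1) + s * LL r k = (p * r k + s) * LL r k := by
      intro p s
      simp only [LL]
      ring
    have e1 : K - k = (K - (k + 1)) + 1 := by omega
    have e2 : ∀ p s, s < r k → EB r g (K - k) k (p * r k + s) =
        Nat.testBit (2 * (p / r (k + 1) % r (k + 2)) + (EB r g (K - (k + 1)) (k + 1) p).toNat)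
          (s / g k) := by
      intro p s hs
      rw [e1]
      simp only [EB]
      rw [Nat.mul_comm p, Nat.mul_add_div (hrp k), Nat.div_eq_of_lt hs, Nat.add_zero,
        Nat.mul_add_mod, Nat.mod_eq_of_lt hs]
    have e3 : ∀ p, 2 * (p / r (k + 1) % r (k + 2)) + (EB r g (K - (k + 1)) (k + 1) p).toNat <
        2 ^ (2 * n k) := by
      intro p
      have h1 := Nat.mod_lt (p / r (k + 1)) (hrp (k + 2))
      have h2 := hb k
      have h3 := Bool.toNat_le (EB r g (K - (k + 1)) (k + 1) p)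
      omega
    change sg _ _ (_ + r k * LL r k) = sg _ _ (_ + r k * LL r k) ↔ _
    rw [sg_block_iff _ _ _ _ _ _ hL]
    simp only [e0, ih (by omega)]
    constructor
    · intro H
      have h1 : p ≡ p' [MOD r (k + 1)] := by
        have := (H 0 (hrp k)).1
        rw [Nat.add_zero, Nat.add_zero, Nat.mul_comm (r k)] at this
        exact Nat.ModEq.mul_right_cancel' (hrp k).ne' this
      have h2 : 2 * (p / r (k + 1) % r (k + 2)) + (EB r g (K - (k + 1)) (k + 1) p).toNat =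
          2 * (p' / r (k + 1) % r (k + 2)) + (EB r g (K - (k + 1)) (k + 1) p').toNat := by
        apply Nat.eq_of_testBit_eq
        intro i
        by_cases hi : i < 2 * n k
        · have h3 : i * g k < r k := by
            rw [hr, hh, ← Nat.mul_assoc]
            exact Nat.mul_lt_mul_of_pos_right hi (by have := hg k; omega)
          have := (H _ h3).2
          rwa [e2 _ _ h3, e2 _ _ h3, Nat.mul_div_cancel _ (by have := hg k; omega)] at this
        · have h4 : 2 ^ (2 * n k) ≤ 2 ^ i := Nat.pow_le_pow_right (by omega) (by omega)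
          rw [Nat.testBit_lt_two_pow (lt_of_lt_of_le (e3 p) h4),
            Nat.testBit_lt_two_pow (lt_of_lt_of_le (e3 p') h4)]
      have h3 := Bool.toNat_le (EB r g (K - (k + 1)) (k + 1) p)
      have h4 := Bool.toNat_le (EB r g (K - (k + 1)) (k + 1) p')
      constructor
      · unfold Nat.ModEq at h1 ⊢
        rw [Nat.mod_mul, Nat.mod_mul, h1]
        congr 2
        change p / r (k + 1) % r (k + 2) = p' / r (k + 1) % r (k + 2)
        omega
      · have : (EB r g (K - (k + 1)) (k + 1) p).toNat = (EB r g (K - (k + 1)) (k + 1) p').toNat := by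
          omega
        revert this
        cases EB r g (K - (k + 1)) (k + 1) p <;> cases EB r g (K - (k + 1)) (k + 1) p' <;> simp
    · rintro ⟨h1, h2⟩ s hs
      constructor
      · rw [Nat.mul_comm (r k)]
        exact ((h1.of_dvd (Dvd.intro _ rfl)).mul_right' _).add_right _
      · have h3 : p / r (k + 1) % r (k + 2) = p' / r (k + 1) % r (k + 2) := by
          unfold Nat.ModEq at h1
          rw [← Nat.mod_mul_right_div_self, ← Nat.mod_mul_right_div_self, h1]
        rw [e2 _ _ hs, e2 _ _ hs, h2, h3]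

theorem sk2 (K : ℕ) : ∀ k, k ≤ K → ∀ a b, LL r k ∣ a →
    sg (skel r g K) a (a + LL r k) = sg (skel r g K) b (b + LL r k) → LL r k ∣ b := by
  have hrp := skel_r_pos hg hr hh hn
  intro k
  induction k with
  | zero => intro _ a b _ _; exact one_dvd b
  | succ k ih =>
    intro hk a b ha he
    have hL := (LL_chain hrp).pos k
    have h1 := (sg_block_iff _ _ _ _ _ _ hL).1 he 0 (hrp k)
    simp only [Nat.zero_mul, Nat.add_zero] at h1
    obtain ⟨p', rfl⟩ := ih (by omega) a b (((LL_chain hrp).dvd k).trans ha) h1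
    obtain ⟨p, rfl⟩ := ha
    have e : LL r (k + 1) * p = (r k * p) * LL r k := by simp only [LL]; ring
    rw [e, Nat.mul_comm _ p'] at h1
    have h2 := ((sk1 hg hr hh hn hb K k (by omega) _ _).1 h1).1
    have h3 : r k ∣ p' := ((h2.of_dvd (Dvd.intro _ rfl)).dvd_iff dvd_rfl).1 (Dvd.intro _ rfl)
    simp only [LL]
    rw [Nat.mul_comm (r k)]
    exact Nat.mul_dvd_mul_left _ h3

theorem skel_sync (K k a b : ℕ) (hk : k ≤ K) (ha : LL r k ∣ a)
    (he : sg (skel r g K) a (a + LL r k) = sg (skel r g K) b (b + LL r k)) :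
    a ≡ b [MOD LL r (k + 2)] := by
  obtain ⟨p', rfl⟩ := sk2 hg hr hh hn hb K k hk a b ha he
  obtain ⟨p, rfl⟩ := ha
  rw [Nat.mul_comm _ p, Nat.mul_comm _ p'] at he ⊢
  have h2 := ((sk1 hg hr hh hn hb K k hk _ _).1 he).1
  have e : LL r (k + 2) = r k * r (k + 1) * LL r k := by simp only [LL]; ring
  rw [e]
  exact h2.mul_right' _

theorem skel_GT (K : ℕ) : GT m r h K (skel r g K) := by
  classical
  have hrp := skel_r_pos hg hr hh hn
  intro k s hk hs
  have hblk : ∀ G i, blk r (skel r g K) k G i s =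
      sg (skel r g K) (((G * r (k + 1) + i) * r k + s) * LL r k)
        (((G * r (k + 1) + i) * r k + s) * LL r k + LL r k) := by
    intro G i
    have : G * LL r (k + 2) + i * LL r (k + 1) + s * LL r k =
        ((G * r (k + 1) + i) * r k + s) * LL r k := by
      simp only [LL]; ring
    unfold blk
    rw [this]
  let bit : ℕ → ℕ → Bool := fun G i => EB r g (K - k) k ((G * r (k + 1) + i) * r k + s)
  let bitP : List (ZMod (r 0 * r 1) × Bool) → Prop := fun w =>
    ∃ p, w = sg (skel r g K) (p * LL r k) (p * LL r k + LL r k) ∧ EB r g (K - k) k p = true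
  have hbit : ∀ G i, bitP (blk r (skel r g K) k G i s) ↔ bit G i = true := by
    intro G i
    rw [hblk]
    constructor
    · rintro ⟨p, h1, h2⟩
      exact ((sk1 hg hr hh hn hb K k (by omega) _ _).1 h1).2.trans h2
    · intro h1
      exact ⟨_, rfl, h1⟩
  have hgrp : ∀ G i i', i < r (k + 1) → i' < r (k + 1) → i / g (k + 1) = i' / g (k + 1) →
      bit G i = bit G i' := by
    intro G i i' hi hi' he
    obtain ⟨f, hf⟩ : ∃ f, K - k = f + 2 := ⟨K - k - 2, by omega⟩
    have e1 : ∀ q, (q * r k + s) / r k = q := fun q => by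
      rw [Nat.mul_comm q, Nat.mul_add_div (hrp k), Nat.div_eq_of_lt hs, Nat.add_zero]
    have e2 : ∀ q, (q * r k + s) % r k = s := fun q => by
      rw [Nat.mul_comm q, Nat.mul_add_mod, Nat.mod_eq_of_lt hs]
    have e3 : ∀ i, i < r (k + 1) → (G * r (k + 1) + i) / r (k + 1) = G := fun i hi => by
      rw [Nat.mul_comm G, Nat.mul_add_div (hrp _), Nat.div_eq_of_lt hi, Nat.add_zero]
    have e4 : ∀ i, i < r (k + 1) → (G * r (k + 1) + i) % r (k + 1) = i := fun i hi => by
      rw [Nat.mul_comm G, Nat.mul_add_mod, Nat.mod_eq_of_lt hi]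
    simp only [bit, hf, EB, e1, e2, e3 i hi, e3 i' hi', e4 i hi, e4 i' hi', he]
  have hbe : ∀ G G' i, blk r (skel r g K) k G' i s = blk r (skel r g K) k G i s ↔
      bit G' i = bit G i := by
    intro G G' i
    rw [hblk, hblk, sk1 hg hr hh hn hb K k (by omega)]
    refine and_iff_right ?_
    apply Nat.ModEq.add_right
    rw [Nat.mul_comm (r k)]
    apply Nat.ModEq.mul_right'
    apply Nat.ModEq.add_right
    exact ((Nat.modEq_zero_iff_dvd).2 (Dvd.intro_left _ rfl)).trans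
      ((Nat.modEq_zero_iff_dvd).2 (Dvd.intro_left _ rfl)).symm
  have huniq : ∀ (i1 i2 : ℕ) (P : ℕ → Prop), i1 ≠ i2 → i1 < r (k + 1) → i2 < r (k + 1) →
      ((∃! i, i < r (k + 1) ∧ ((i = i1 ∧ P i) ∨ (i = i2 ∧ ¬ P i))) ↔ (P i1 ↔ P i2)) := by
    intro i1 i2 P h12 h1 h2
    constructor
    · rintro ⟨i, hi, hu⟩
      constructor
      · intro g1
        by_contra g2
        exact h12 ((hu i1 ⟨h1, Or.inl ⟨rfl, g1⟩⟩).trans (hu i2 ⟨h2, Or.inr ⟨rfl, g2⟩⟩).symm)
      · intro g2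
        rcases hi.2 with ⟨rfl, g⟩ | ⟨rfl, g⟩
        · exact g
        · exact absurd g2 g
    · intro hP
      by_cases g1 : P i1
      · refine ⟨i1, ⟨h1, Or.inl ⟨rfl, g1⟩⟩, ?_⟩
        rintro i ⟨-, ⟨rfl, -⟩ | ⟨rfl, g⟩⟩
        · rfl
        · exact absurd (hP.1 g1) g
      · refine ⟨i2, ⟨h2, Or.inr ⟨rfl, fun g => g1 (hP.2 g)⟩⟩, ?_⟩
        rintro i ⟨-, ⟨rfl, g⟩ | ⟨rfl, -⟩⟩
        · exact absurd g g1
        · rfl
  have hgp : 0 < g (k + 1) := by have := hg (k + 1); omega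
  refine ⟨{D | ∃ i1 i2, i1 ≠ i2 ∧ i1 < r (k + 1) ∧ i2 < r (k + 1) ∧ i1 / g (k + 1) = i2 / g (k + 1) ∧
    D = fun i w => (i = i1 ∧ bitP w) ∨ (i = i2 ∧ ¬ bitP w)}, ?_, ?_, ?_⟩
  · rintro D ⟨i1, i2, -, -, -, h4, rfl⟩
    have e : ∀ i, i < h (k + 1) ↔ i / g (k + 1) < n (k + 1) := fun i => by
      rw [hh, Nat.div_lt_iff_lt_mul hgp]
    by_cases h5 : i1 < h (k + 1)
    · left
      rintro i w (⟨rfl, -⟩ | ⟨rfl, -⟩)
      · exact h5
      · rw [e, ← h4, ← e]; exact h5
    · right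
      rintro i w (⟨rfl, -⟩ | ⟨rfl, -⟩)
      · omega
      · rw [e, h4, ← e] at h5; omega
  · rintro D ⟨i1, i2, h1, h2, h3, h4, rfl⟩ G -
    rw [huniq i1 i2 (fun i => bitP (blk r (skel r g K) k G i s)) h1 h2 h3, hbit, hbit,
      hgrp G i1 i2 h2 h3 h4]
  · rintro G - y h1 h2 ⟨E, h3, h4⟩ i hi
    have h5 : E.card < (Finset.Ico (i / g (k + 1) * g (k + 1)) (i / g (k + 1) * g (k + 1) + g (k + 1))).card := by
      rw [Nat.card_Ico]
      have := hg (k + 1)
      omega
    obtain ⟨i2, g1, g2⟩ := Finset.exists_mem_notMem_of_card_lt_card h5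
    rw [Finset.mem_Ico] at g1
    have g3 : i2 / g (k + 1) = i / g (k + 1) :=
      Nat.div_eq_of_lt_le g1.1 (by rw [Nat.succ_mul]; exact g1.2)
    have e : ∀ i, i < r (k + 1) ↔ i / g (k + 1) < 2 * n (k + 1) := fun i => by
      rw [hr, hh, Nat.div_lt_iff_lt_mul hgp, Nat.mul_assoc]
    have g4 : i2 < r (k + 1) := by rw [e, g3, ← e]; exact hi
    by_cases g5 : i = i2
    · exact g5 ▸ h4 i2 g4 g2
    · have g6 := (huniq i i2 (fun i => bitP (y i)) g5 hi g4).1
        (h2 _ ⟨i, i2, g5, hi, g4, g3.symm, rfl⟩)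
      obtain ⟨G', -, g7⟩ := h1 i hi
      simp only [h4 i2 g4 g2, g7, hbit] at g6
      rw [g7, hbe, hgrp G i i2 hi g4 g3.symm]
      exact Bool.eq_iff_iff.2 g6

end

end Pool.Agent.H541Z
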