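import Pool.Agent.H541Z.Hls

set_option autoImplicit false

namespace Pool.Agent.H541Z.Sq

open Filter Pool.Agent.H541Z.Ini Pool.Agent.H541Z.Hls

attribute [local instance] Ultrafilter.add Ultrafilter.addSemigroup

theorem uext {α : Type*} {U V : Ultrafilter α}
    (h : ∀ P : α → Prop, (∀ᶠ m in (U : Filter α), P m) ↔ ∀ᶠ m in (V : Filter α), P m) : U = V :=
  Ultrafilter.coe_inj.mp <| Filter.ext' h

theorem closed_all {α : Type*} {S : Set (Ultrafilter α)} (hS : IsClosed S)
    (h : ∀ z, (pure z : Ultrafilter α) ∈ S) (W : Ultrafilter α) : W ∈ S :=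
  denseRange_pure.induction_on W hS h

theorem closed_mem {α : Type*} {S : Set (Ultrafilter α)} (hS : IsClosed S) {W : Ultrafilter α}
    (h : ∀ᶠ z in (W : Filter α), (pure z : Ultrafilter α) ∈ S) : W ∈ S :=
  hS.mem_of_tendsto (Ultrafilter.tendsto_pure_self W) h

theorem pure_add {α : Type*} [Add α] (z : α) (V : Ultrafilter α) :
    (pure z : Ultrafilter α) + V = Ultrafilter.map (fun w => z + w) V :=
  uext fun P => by
    simp only [Ultrafilter.eventually_add, Ultrafilter.coe_pure, Filter.eventually_pure,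
      Ultrafilter.coe_map, Filter.eventually_map]

theorem exists_min_pos_int : ∃ u : Ultrafilter ℤ, IsMinI Set.univ u ∧
    ∀ B : ℤ, ∀ᶠ m in (u : Filter ℤ), B < m := by
  let L : Set (Ultrafilter ℤ) := {U | ∀ B : ℤ, ∀ᶠ m in (U : Filter ℤ), B < m}
  have hLc : IsClosed L := by
    have : L = ⋂ B : ℤ, {U : Ultrafilter ℤ | {m : ℤ | B < m} ∈ U} := by
      ext U
      simp only [L, Set.mem_iInter]
      rfl
    rw [this]
    exact isClosed_iInter fun n => ultrafilter_isClosed_basic _
  have hLne : L.Nonempty :=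
    ⟨Ultrafilter.of atTop, fun B => (eventually_gt_atTop B).filter_mono (Ultrafilter.of_le _)⟩
  obtain ⟨p, hpL, hp⟩ := exists_isMinI_in (M := Ultrafilter ℤ) Ultrafilter.continuous_add_left
    Set.univ isCompact_univ (fun _ _ _ _ => trivial) L hLc hLne (Set.subset_univ _) (by
      intro x _ y hy B
      rw [Ultrafilter.eventually_add]
      refine Filter.Eventually.of_forall fun m => ?_
      filter_upwards [hy (B - m)] with m' hm'
      linarith)
  exact ⟨p, hp, hpL⟩

/-- Linear gadget inside a closed left ideal. -/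
theorem gad_in {u : Ultrafilter ℤ} (hu : IsMinI Set.univ u) (I : Set (Ultrafilter (ℤ × ℤ)))
    (hIc : IsClosed I) (hIne : I.Nonempty) (hI : ∀ W, ∀ V ∈ I, W + V ∈ I) :
    ∃ G ∈ I, ∀ r : ℤ, Ultrafilter.map (fun z : ℤ × ℤ => z.1 + r * z.2) G + u = u := by
  let D : Ultrafilter (ℤ × ℤ) := Ultrafilter.map (fun x => (x, 0)) u
  have hadd : ∀ (r : ℤ) (U V : Ultrafilter (ℤ × ℤ)),
      Ultrafilter.map (fun z : ℤ × ℤ => z.1 + r * z.2) (U + V)
        = Ultrafilter.map (fun z : ℤ × ℤ => z.1 + r * z.2) U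
          + Ultrafilter.map (fun z : ℤ × ℤ => z.1 + r * z.2) V := fun r U V =>
    map_add_of _ (fun a b => by simp only [Prod.fst_add, Prod.snd_add]; ring) U V
  have hD1 : ∀ r : ℤ, Ultrafilter.map (fun z : ℤ × ℤ => z.1 + r * z.2) D = u := by
    intro r
    refine uext fun P => ?_
    simp [D]
  obtain ⟨V, ⟨G, hG, rfl⟩, hVV⟩ := exists_idempotent_in_compact_add_subsemigroup
    (M := Ultrafilter (ℤ × ℤ)) Ultrafilter.continuous_add_left ((· + D) '' I) (hIne.image _)
    (hIc.isCompact.image (Ultrafilter.continuous_add_left D)) (by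
      rintro x - _ ⟨y, hy, rfl⟩
      exact ⟨x + y, hI _ _ hy, add_assoc _ _ _⟩)
  refine ⟨D + G, hI _ _ hG, fun r => ?_⟩
  have h1 := congrArg (Ultrafilter.map (fun z : ℤ × ℤ => z.1 + r * z.2)) hVV
  simp only [hadd, hD1] at h1
  rw [hadd, hD1]
  generalize Ultrafilter.map (fun z : ℤ × ℤ => z.1 + r * z.2) G = g at h1
  obtain ⟨y, -, hy⟩ := hu.2.2 g trivial
  rw [add_assoc] at hy
  calc u + g + u = y + (g + u) + (g + u) := by rw [hy, add_assoc]
    _ = u := by rw [add_assoc, h1, hy]

/-- The colour of `t + p` is `C`. -/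
def A {r : ℕ} (c : ℤ → Fin r) (t : ℤ) (C : Fin r) (p : Ultrafilter ℤ) : Prop :=
  ∀ᶠ m in (p : Filter ℤ), c (t + m) = C

theorem exists_A {r : ℕ} (c : ℤ → Fin r) (t : ℤ) (p : Ultrafilter ℤ) : ∃ C, A c t C p :=
  (Ultrafilter.eventually_exists_iff (f := p) (P := fun (C : Fin r) m => c (t + m) = C)).1
    (Filter.Eventually.of_forall fun _ => ⟨_, rfl⟩)

theorem A_unique {r : ℕ} {c : ℤ → Fin r} {t : ℤ} {p : Ultrafilter ℤ} {C C' : Fin r}
    (h : A c t C p) (h' : A c t C' p) : C = C' := by
  obtain ⟨m, h1, h2⟩ := (Filter.Eventually.and h h').exists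
  rw [← h1, ← h2]

theorem A_add {r : ℕ} {c : ℤ → Fin r} {t : ℤ} {p q : Ultrafilter ℤ} {C : Fin r} :
    A c t C (p + q) ↔ ∀ᶠ m in (p : Filter ℤ), A c (t + m) C q := by
  simp only [A, Ultrafilter.eventually_add, add_assoc]

theorem exists_uV {r : ℕ} (c : ℤ → Fin r) {u : Ultrafilter ℤ} (hu : IsMinI Set.univ u) :
    ∃ V : Ultrafilter (ℤ × ℤ), (∀ x, ∃ y, y + x + V = V) ∧
      Ultrafilter.map Prod.snd V + u = Ultrafilter.map Prod.snd V ∧
      ∀ᶠ z in (V : Filter (ℤ × ℤ)), ∃ C, A c z.1 C u ∧ A c (z.1 + z.2 ^ 2) C u := by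
  have hsnd : ∀ U V : Ultrafilter (ℤ × ℤ), Ultrafilter.map Prod.snd (U + V)
      = Ultrafilter.map Prod.snd U + Ultrafilter.map Prod.snd V :=
    map_add_of _ (fun _ _ => rfl)
  have hfst : ∀ U V : Ultrafilter (ℤ × ℤ), Ultrafilter.map Prod.fst (U + V)
      = Ultrafilter.map Prod.fst U + Ultrafilter.map Prod.fst V :=
    map_add_of _ (fun _ _ => rfl)
  let K : Set (Ultrafilter (ℤ × ℤ)) := {V | (∀ x, ∃ y, y + x + V = V) ∧
    Ultrafilter.map Prod.snd V + u = Ultrafilter.map Prod.snd V}
  have hKne : K.Nonempty := by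
    obtain ⟨V, hV1, hV2⟩ := exists_isMinI_in (M := Ultrafilter (ℤ × ℤ))
      Ultrafilter.continuous_add_left Set.univ isCompact_univ (fun _ _ _ _ => trivial)
      {V | Ultrafilter.map Prod.snd V + u = Ultrafilter.map Prod.snd V}
      (isClosed_eq ((Ultrafilter.continuous_add_left u).comp (continuous_umap _))
        (continuous_umap _))
      ⟨Ultrafilter.map (fun x => (0, x)) u, by
        have : Ultrafilter.map Prod.snd (Ultrafilter.map (fun x : ℤ => ((0 : ℤ), x)) u) = u :=
          uext fun P => by simp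
        simp only [Set.mem_ofPred_eq, this, hu.2.1]⟩ (Set.subset_univ _) (by
        intro x _ y hy
        simp only [Set.mem_ofPred_eq] at hy ⊢
        rw [hsnd, add_assoc, hy])
    exact ⟨V, fun x => (hV2.2.2 x trivial).imp fun y hy => hy.2, hV1⟩
  have hKadd : ∀ W, ∀ V ∈ K, W + V ∈ K := by
    intro W V hV
    refine ⟨fun x => ?_, by rw [hsnd, add_assoc, hV.2]⟩
    obtain ⟨y, hy⟩ := hV.1 (x + W)
    refine ⟨W + y, ?_⟩
    calc W + y + x + (W + V) = W + (y + (x + W) + V) := by simp only [add_assoc]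
      _ = W + V := by rw [hy]
  let sh : ℤ → ℤ × ℤ → ℤ × ℤ := fun j z => (z.1 + 2 * j * z.2, z.2)
  have hsh : ∀ j (U V : Ultrafilter (ℤ × ℤ)), Ultrafilter.map (sh j) (U + V)
      = Ultrafilter.map (sh j) U + Ultrafilter.map (sh j) V := fun j =>
    map_add_of _ (fun a b => by
      simp only [sh, Prod.fst_add, Prod.snd_add, Prod.mk_add_mk, Prod.mk.injEq, and_true]; ring)
  have hKsh : ∀ j, ∀ V ∈ K, Ultrafilter.map (sh j) V ∈ K := by
    intro j V hV
    refine ⟨fun x => ?_, ?_⟩
    · obtain ⟨y, hy⟩ := hV.1 (Ultrafilter.map (sh (-j)) x)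
      refine ⟨Ultrafilter.map (sh j) y, ?_⟩
      have h := congrArg (Ultrafilter.map (sh j)) hy
      rw [hsh, hsh, Ultrafilter.map_map] at h
      have h2 : sh j ∘ sh (-j) = id := by
        funext z; simp only [sh, Function.comp, id]; ext <;> simp
      rwa [h2, Ultrafilter.map_id] at h
    · have : Ultrafilter.map Prod.snd (Ultrafilter.map (sh j) V) = Ultrafilter.map Prod.snd V :=
        rfl
      rw [this]; exact hV.2
  have hCadd : ∀ W, ∀ V ∈ closure K, W + V ∈ closure K := by
    intro W V hV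
    refine closed_all (S := {W | W + V ∈ closure K})
      (isClosed_closure.preimage (Ultrafilter.continuous_add_left V)) (fun z => ?_) W
    simp only [Set.mem_ofPred_eq, pure_add]
    refine map_mem_closure (continuous_umap _) hV fun V' hV' => ?_
    rw [← pure_add]; exact hKadd _ _ hV'
  have hCsh : ∀ j, ∀ V ∈ closure K, Ultrafilter.map (sh j) V ∈ closure K := fun j V hV =>
    map_mem_closure (continuous_umap _) hV (hKsh j)
  let th : ℤ × ℤ → ℤ × ℤ := fun z => (z.1 - z.2 ^ 2, z.2)
  obtain ⟨G, hG, hG'⟩ := gad_in hu {G | Ultrafilter.map th G ∈ closure K}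
    (isClosed_closure.preimage (continuous_umap _)) (by
      obtain ⟨V, hV⟩ := hKne
      refine ⟨Ultrafilter.map (fun z => (z.1 + z.2 ^ 2, z.2)) V, ?_⟩
      have : Ultrafilter.map th (Ultrafilter.map (fun z : ℤ × ℤ => (z.1 + z.2 ^ 2, z.2)) V) = V :=
        uext fun P => by simp [th]
      simp only [Set.mem_ofPred_eq, this]
      exact subset_closure hV) (by
      intro W V hV
      refine closed_all (S := {W | Ultrafilter.map th (W + V) ∈ closure K})
        (isClosed_closure.preimage ((continuous_umap _).comp (Ultrafilter.continuous_add_left V)))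
        (fun z => ?_) W
      have : Ultrafilter.map th (pure z + V)
          = pure (th z) + Ultrafilter.map (sh (-z.2)) (Ultrafilter.map th V) := by
        rw [pure_add, pure_add, Ultrafilter.map_map, Ultrafilter.map_map, Ultrafilter.map_map]
        congr 1
        funext w
        simp only [th, sh, Function.comp, Prod.fst_add, Prod.snd_add, Prod.mk_add_mk,
          Prod.mk.injEq, and_true]
        ring
      simp only [Set.mem_ofPred_eq, this]
      exact hCadd _ _ (hCsh _ _ hV))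
  let ps : ℤ → ℤ × ℤ → ℤ := fun k z => z.1 + z.2 ^ 2 + 2 * k * z.2
  let GG : Set (Ultrafilter (ℤ × ℤ)) := ⋂ k : ℤ, {V | Ultrafilter.map (ps k) V + u = u}
  have hGGc : IsClosed GG := isClosed_iInter fun k =>
    isClosed_eq ((Ultrafilter.continuous_add_left u).comp (continuous_umap _)) continuous_const
  have hcoc : ∀ k (V V' : Ultrafilter (ℤ × ℤ)), V' ∈ GG →
      Ultrafilter.map (ps k) (V + V') + u = Ultrafilter.map (ps k) V + u := by
    intro k V V' hV'
    simp only [GG, Set.mem_iInter, Set.mem_ofPred_eq] at hV'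
    refine uext fun P => ?_
    simp only [Ultrafilter.eventually_add, Ultrafilter.coe_map, Filter.eventually_map]
    refine Filter.eventually_congr (Filter.Eventually.of_forall fun z => ?_)
    have h := congrArg (fun U : Ultrafilter ℤ => ∀ᶠ m in (U : Filter ℤ), P (ps k z + m))
      (hV' (k + z.2))
    simp only [Ultrafilter.eventually_add, Ultrafilter.coe_map, Filter.eventually_map,
      eq_iff_iff] at h
    rw [← h]
    refine Filter.eventually_congr (Filter.Eventually.of_forall fun w => ?_)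
    refine Filter.eventually_congr (Filter.Eventually.of_forall fun m => ?_)
    have : ps k (z + w) + m = ps k z + (ps (k + z.2) w + m) := by
      simp only [ps, Prod.fst_add, Prod.snd_add]; ring
    rw [this]
  obtain ⟨E, ⟨hE1, hE2⟩, hEE⟩ := exists_idempotent_in_compact_add_subsemigroup
    (M := Ultrafilter (ℤ × ℤ)) Ultrafilter.continuous_add_left (closure K ∩ GG)
    ⟨Ultrafilter.map th G, hG, by
      simp only [GG, Set.mem_iInter, Set.mem_ofPred_eq]
      intro k
      rw [← hG' (2 * k), Ultrafilter.map_map, hG' (2 * k)]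
      have : ps k ∘ th = fun z : ℤ × ℤ => z.1 + 2 * k * z.2 := by
        funext z; simp only [ps, th, Function.comp]; ring
      rw [this, hG']⟩
    (isClosed_closure.inter hGGc).isCompact (by
      rintro x ⟨-, hx⟩ y ⟨hy1, hy2⟩
      refine ⟨hCadd _ _ hy1, ?_⟩
      simp only [GG, Set.mem_iInter, Set.mem_ofPred_eq] at hx ⊢
      intro k
      rw [hcoc k x y hy2, hx])
  let q := Ultrafilter.map Prod.fst E
  have hq : q + q = q := by simp only [q]; rw [← hfst, hEE]
  let V := Ultrafilter.map (fun x : ℤ => (x, (0 : ℤ))) q + E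
  have hV : V ∈ closure K := hCadd _ _ hE1
  have h1 : Ultrafilter.map Prod.fst V + u = q + u := by
    have : Ultrafilter.map Prod.fst (Ultrafilter.map (fun x : ℤ => (x, (0 : ℤ))) q) = q :=
      uext fun P => by simp
    simp only [V]
    rw [hfst, this, hq]
  have h2 : Ultrafilter.map (ps 0) V + u = q + u := by
    have : Ultrafilter.map (ps 0) (Ultrafilter.map (fun x : ℤ => (x, (0 : ℤ))) q) = q :=
      uext fun P => by simp [ps]
    simp only [V]
    rw [hcoc 0 _ _ hE2, this]
  obtain ⟨C, hC⟩ := exists_A c 0 (q + u)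
  have h3 := hC
  have h4 := hC
  rw [← h1, A_add] at h3
  rw [← h2, A_add] at h4
  have h5 : {z : ℤ × ℤ | ∃ C, A c z.1 C u ∧ A c (z.1 + z.2 ^ 2) C u} ∈ V := by
    have h3' : ∀ᶠ z in (V : Filter (ℤ × ℤ)), A c (0 + z.1) C u := h3
    have h4' : ∀ᶠ z in (V : Filter (ℤ × ℤ)), A c (0 + ps 0 z) C u := h4
    filter_upwards [h3', h4'] with z hz hz'
    exact ⟨C, by simpa using hz, by simpa [ps] using hz'⟩
  obtain ⟨V', hV'1, hV'2⟩ := mem_closure_iff.1 hV _ (ultrafilter_isOpen_basic _) h5
  exact ⟨V', hV'2.1, hV'2.2, hV'1⟩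

end Pool.Agent.H541Z.Sq
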