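import Pool.Agent.H541Z.Sq1

set_option autoImplicit false

namespace Pool.Agent.H541Z.Sq

open Filter Pool.Agent.H541Z.Ini Pool.Agent.H541Z.Hls

attribute [local instance] Ultrafilter.add Ultrafilter.addSemigroup

theorem isOpen_A {r : ℕ} (c : ℤ → Fin r) (t : ℤ) (C : Fin r) : IsOpen {p | A c t C p} :=
  ultrafilter_isOpen_basic {m | c (t + m) = C}

/-- Times `h > K` at which the colouring looks, on the window `[-K, K]`, like a point of the
left ideal generated by `u`. -/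
def RR {r : ℕ} (c : ℤ → Fin r) (u : Ultrafilter ℤ) (K : ℕ) (h : ℤ) : Prop :=
  (K : ℤ) < h ∧ ∃ p : Ultrafilter ℤ, p + u = p ∧ ∀ s : ℤ, |s| ≤ K → A c s (c (s + h)) p

/-- The open sets used in the Baire category step. -/
def DD {r : ℕ} (c : ℤ → Fin r) (u : Ultrafilter ℤ) (s : ℤ) (C : Fin r) (I : Finset ℤ) (K : ℕ) :
    Set (Ultrafilter ℤ) :=
  {p | ∃ h, RR c u K h ∧ ∀ n ∈ Finset.Icc (-(K : ℤ)) K, ∃ i ∈ I, A c (s + (i + n + h) ^ 2) C p}

theorem isOpen_DD {r : ℕ} (c : ℤ → Fin r) (u : Ultrafilter ℤ) (s : ℤ) (C : Fin r) (I : Finset ℤ)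
    (K : ℕ) : IsOpen (DD c u s C I K) := by
  have : DD c u s C I K = ⋃ h, ⋃ (_ : RR c u K h), ⋂ n ∈ Finset.Icc (-(K : ℤ)) K, ⋃ i ∈ I,
      {p | A c (s + (i + n + h) ^ 2) C p} := by
    ext p
    simp only [DD, Set.mem_ofPred_eq, Set.mem_iUnion, Set.mem_iInter, exists_prop]
  rw [this]
  exact isOpen_iUnion fun h => isOpen_iUnion fun _ => isOpen_biInter_finset fun n _ =>
    isOpen_biUnion fun i _ => isOpen_A _ _ _

theorem exists_generic {r : ℕ} (c : ℤ → Fin r) {u : Ultrafilter ℤ} (hu : u + u = u) :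
    ∃ p : Ultrafilter ℤ, p + u = p ∧ ∀ s C I K,
      p ∈ closure (DD c u s C I K ∩ {p | p + u = p}) → p ∈ DD c u s C I K := by
  have hL : IsClosed {p : Ultrafilter ℤ | p + u = p} :=
    isClosed_eq (Ultrafilter.continuous_add_left u) continuous_id
  have : CompactSpace {p : Ultrafilter ℤ | p + u = p} := isCompact_iff_compactSpace.mp hL.isCompact
  have : Nonempty {p : Ultrafilter ℤ | p + u = p} := ⟨⟨u, hu⟩⟩
  let f : ℤ × Fin r × Finset ℤ × ℕ → Set {p : Ultrafilter ℤ | p + u = p} := fun a =>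
    Subtype.val ⁻¹' DD c u a.1 a.2.1 a.2.2.1 a.2.2.2
  have hf : ∀ a, IsOpen (f a) := fun a => (isOpen_DD _ _ _ _ _ _).preimage continuous_subtype_val
  have hd : Dense (⋂ a, f a ∪ (closure (f a))ᶜ) := by
    refine dense_iInter_of_isOpen (fun a => (hf a).union isClosed_closure.isOpen_compl)
      (fun a x => ?_)
    by_cases hx : x ∈ closure (f a)
    · exact closure_mono Set.subset_union_left hx
    · exact subset_closure (Or.inr hx)
  obtain ⟨p, hp⟩ := hd.nonempty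
  refine ⟨p.1, p.2, fun s C I K h => ?_⟩
  rcases Set.mem_iInter.1 hp (s, C, I, K) with h1 | h1
  · exact h1
  · exfalso
    apply h1
    rw [closure_subtype, Subtype.image_preimage_coe, Set.inter_comm]
    exact h

theorem RR_mem {r : ℕ} (c : ℤ → Fin r) {u : Ultrafilter ℤ}
    (hpos : ∀ B : ℤ, ∀ᶠ m in (u : Filter ℤ), B < m) {p : Ultrafilter ℤ} (hp : p + u = p) (K : ℕ) :
    ∀ᶠ h in (p : Filter ℤ), RR c u K h := by
  have h1 : ∀ᶠ h in (p : Filter ℤ), (K : ℤ) < h := by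
    rw [← hp, Ultrafilter.eventually_add]
    refine Filter.Eventually.of_forall fun m => ?_
    filter_upwards [hpos (K - m)] with m' hm'
    linarith
  have h2 : ∀ᶠ h in (p : Filter ℤ), ∀ s ∈ Finset.Icc (-(K : ℤ)) K, A c s (c (s + h)) p := by
    rw [Filter.eventually_all_finset]
    intro s _
    obtain ⟨C, hC⟩ := exists_A c s p
    filter_upwards [hC] with h hh
    rw [hh]; exact hC
  filter_upwards [h1, h2] with h h1 h2
  exact ⟨h1, p, hp, fun s hs => h2 s (Finset.mem_Icc.2 (abs_le.1 hs))⟩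

theorem exists_psC {r : ℕ} (c : ℤ → Fin r) {u : Ultrafilter ℤ} (hu : IsMinI Set.univ u)
    (hpos : ∀ B : ℤ, ∀ᶠ m in (u : Filter ℤ), B < m) :
    ∃ p : Ultrafilter ℤ, p + u = p ∧ ∃ s C I, A c s C p ∧ ∀ K, p ∈ DD c u s C I K := by
  obtain ⟨V, hV1, hV2, hV3⟩ := exists_uV c hu
  obtain ⟨p, hp, hgen⟩ := exists_generic c hu.2.1
  refine ⟨p, hp, ?_⟩
  have hsnd : ∀ U V : Ultrafilter (ℤ × ℤ), Ultrafilter.map Prod.snd (U + V)
      = Ultrafilter.map Prod.snd U + Ultrafilter.map Prod.snd V :=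
    map_add_of _ (fun _ _ => rfl)
  have hfst : ∀ U V : Ultrafilter (ℤ × ℤ), Ultrafilter.map Prod.fst (U + V)
      = Ultrafilter.map Prod.fst U + Ultrafilter.map Prod.fst V :=
    map_add_of _ (fun _ _ => rfl)
  obtain ⟨y, -, hy⟩ := hu.2.2 (Ultrafilter.map Prod.fst V) trivial
  obtain ⟨V1, hV1def⟩ : ∃ V1, V1 = Ultrafilter.map (fun x : ℤ => (x, (0 : ℤ))) (p + y) + V :=
    ⟨_, rfl⟩
  obtain ⟨V2, hV2def⟩ : ∃ V2, V2 = Ultrafilter.map (fun x : ℤ => ((0 : ℤ), x)) u + V1 := ⟨_, rfl⟩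
  have hf1 : Ultrafilter.map Prod.fst V1 + u = p := by
    have : Ultrafilter.map Prod.fst (Ultrafilter.map (fun x : ℤ => (x, (0 : ℤ))) (p + y))
        = p + y := uext fun P => by simp
    rw [hV1def, hfst, this]
    calc p + y + Ultrafilter.map Prod.fst V + u = p + (y + Ultrafilter.map Prod.fst V + u) := by
          simp only [add_assoc]
      _ = p := by rw [hy, hp]
  have hf2 : Ultrafilter.map Prod.fst V2 + u = p := by
    rw [← hf1, hV2def]
    congr 1
    refine uext fun P => ?_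
    simp [Ultrafilter.eventually_add]
  have hs2 : Ultrafilter.map Prod.snd V2 + u = Ultrafilter.map Prod.snd V2 := by
    rw [hV2def, hV1def, hsnd, hsnd, add_assoc, add_assoc, hV2]
  obtain ⟨V3, hV3'⟩ := hV1 (Ultrafilter.map (fun x : ℤ => ((0 : ℤ), x)) u +
    Ultrafilter.map (fun x : ℤ => (x, (0 : ℤ))) (p + y))
  have hV32 : V3 + V2 = V := by
    rw [hV2def, hV1def, ← add_assoc (Ultrafilter.map _ u), ← add_assoc, hV3']
  rw [← hV32, Ultrafilter.eventually_add] at hV3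
  obtain ⟨⟨s, n⟩, hsn⟩ := hV3.exists
  obtain ⟨C, hC⟩ := Ultrafilter.eventually_exists_iff.1 hsn
  simp only [Prod.fst_add, Prod.snd_add] at hC
  let E : ℤ → Prop := fun n' => ∀ᶠ z in (V2 : Filter (ℤ × ℤ)), A c (s + z.1 + (n' + z.2) ^ 2) C u
  let E1 : ℤ → Prop := fun n' => ∀ᶠ z in (V1 : Filter (ℤ × ℤ)), A c (s + z.1 + (n' + z.2) ^ 2) C u
  have hE : ∀ n', E n' ↔ ∀ᶠ j in (u : Filter ℤ), E1 (n' + j) := by
    intro n'
    simp only [E, E1, hV2def, Ultrafilter.eventually_add, Ultrafilter.coe_map,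
      Filter.eventually_map, Prod.fst_add, Prod.snd_add, zero_add, add_assoc]
  have hEn : E n := hC.mono fun z hz => hz.2
  have hsyn : ∀ W : Ultrafilter ℤ, ∃ i, {w | E (i + w)} ∈ W := by
    intro W
    obtain ⟨y0, -, hy0⟩ := hu.2.2 W trivial
    have h1 := (hE n).1 hEn
    rw [← hy0, Ultrafilter.eventually_add, Ultrafilter.eventually_add] at h1
    obtain ⟨a, ha⟩ := h1.exists
    refine ⟨n + a, ?_⟩
    filter_upwards [ha] with w hw
    rw [hE]
    simpa only [add_assoc] using hw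
  obtain ⟨I, hI⟩ := isCompact_univ.elim_finite_subcover
    (fun i : ℤ => {W : Ultrafilter ℤ | {w | E (i + w)} ∈ W})
    (fun i => ultrafilter_isOpen_basic _) (fun W _ => Set.mem_iUnion.2 (hsyn W))
  have hI' : ∀ w, ∃ i ∈ I, E (i + w) := by
    intro w
    have := hI (Set.mem_univ (pure w))
    simpa using this
  refine ⟨s, C, I, ?_, fun K => hgen _ _ _ _ ?_⟩
  · rw [← hf2, A_add]
    exact hC.mono fun z hz => hz.1
  · rw [← hf2]
    refine closed_mem (S := {W | W + u ∈ closure (DD c u s C I K ∩ {p | p + u = p})})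
      (isClosed_closure.preimage (Ultrafilter.continuous_add_left u)) ?_
    have h1 : ∀ᶠ z in (V2 : Filter (ℤ × ℤ)), RR c u K z.2 := RR_mem c hpos hs2 K
    have h2 : ∀ᶠ z in (V2 : Filter (ℤ × ℤ)), ∀ n' ∈ Finset.Icc (-(K : ℤ)) K, ∃ i ∈ I,
        A c (s + z.1 + (i + n' + z.2) ^ 2) C u := by
      rw [Filter.eventually_all_finset]
      intro n' _
      obtain ⟨i, hi, hi'⟩ := hI' n'
      exact hi'.mono fun z hz => ⟨i, hi, hz⟩
    have h3 : ∀ᶠ z in (V2 : Filter (ℤ × ℤ)),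
        (pure z.1 : Ultrafilter ℤ) + u ∈ closure (DD c u s C I K ∩ {p | p + u = p}) := by
      filter_upwards [h1, h2] with z h1 h2
      refine subset_closure ⟨⟨z.2, h1, fun n' hn' => ?_⟩, ?_⟩
      · obtain ⟨i, hi, hi'⟩ := h2 n' hn'
        refine ⟨i, hi, ?_⟩
        rw [A_add]
        simp only [Ultrafilter.coe_pure, Filter.eventually_pure]
        convert hi' using 1
        ring
      · show pure z.1 + u + u = pure z.1 + u
        rw [add_assoc, hu.2.1]
    exact h3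

theorem exists_H {r : ℕ} (c : ℤ → Fin r) : ∃ (H : Ultrafilter ℤ) (s i : ℤ) (C : Fin r),
    (∀ B : ℤ, ∀ᶠ m in (H : Filter ℤ), B < m) ∧ A c s C H ∧
      ∀ᶠ h in (H : Filter ℤ), A c (s + (i + h) ^ 2) C H := by
  obtain ⟨u, hu, hpos⟩ := exists_min_pos_int
  obtain ⟨p, hp, s, C, I, hC, hD⟩ := exists_psC c hu hpos
  choose h hh hh' using hD
  choose hlt pp hpp hpp' using hh
  have hle : ((hyperfilter ℕ : Ultrafilter ℕ) : Filter ℕ) ≤ atTop := by
    rw [← Nat.cofinite_eq_atTop]; exact hyperfilter_le_cofinite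
  have hbig : ∀ B : ℤ, ∀ᶠ (K : ℕ) in ((hyperfilter ℕ : Ultrafilter ℕ) : Filter ℕ), B ≤ (K : ℤ) := by
    intro B
    refine Filter.Eventually.filter_mono hle ?_
    filter_upwards [eventually_ge_atTop B.toNat] with K hK
    omega
  let U : Ultrafilter ℤ := Ultrafilter.map h (hyperfilter ℕ)
  let p' : Ultrafilter ℤ := Ultrafilter.bind (hyperfilter ℕ) pp
  have hbind : ∀ P : ℤ → Prop, (∀ᶠ m in (p' : Filter ℤ), P m) ↔
      ∀ᶠ K in ((hyperfilter ℕ : Ultrafilter ℕ) : Filter ℕ), ∀ᶠ m in (pp K : Filter ℤ), P m :=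
    fun P => Iff.rfl
  have hp' : p' + u = p' := by
    refine uext fun P => ?_
    rw [Ultrafilter.eventually_add, hbind, hbind]
    refine Filter.eventually_congr (Filter.Eventually.of_forall fun K => ?_)
    rw [← Ultrafilter.eventually_add, hpp K]
  have hUp : ∀ s' C', A c s' C' U → A c s' C' p' := by
    intro s' C' hA
    have hA' : ∀ᶠ K in ((hyperfilter ℕ : Ultrafilter ℕ) : Filter ℕ), c (s' + h K) = C' := hA
    rw [A, hbind]
    filter_upwards [hA', hbig |s'|] with K h1 h2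
    rw [← h1]
    exact hpp' K s' h2
  have hpU : ∀ s' C', A c s' C' p' → A c s' C' U := by
    intro s' C' hA
    obtain ⟨C'', hC''⟩ := exists_A c s' U
    rwa [A_unique hA (hUp _ _ hC'')]
  obtain ⟨y, -, hy⟩ := hu.2.2 p' trivial
  have hW : (p + y) + p' = p := by
    rw [add_assoc, hp'] at hy
    rw [add_assoc, hy, hp]
  have hpH : ∀ s' C', A c s' C' p → A c s' C' ((p + y) + U) := by
    intro s' C' hA
    rw [← hW, A_add] at hA
    rw [A_add]
    exact hA.mono fun w hw => hpU _ _ hw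
  have h1 : ∀ w : ℤ, ∃ i ∈ (I : Set ℤ), ∀ᶠ m in (U : Filter ℤ), A c (s + (i + w + m) ^ 2) C p := by
    intro w
    refine (Ultrafilter.eventually_exists_mem_iff (f := U)
      (P := fun i m => A c (s + (i + w + m) ^ 2) C p) I.finite_toSet).1 ?_
    have : ∀ᶠ K in ((hyperfilter ℕ : Ultrafilter ℕ) : Filter ℕ),
        ∃ i ∈ (I : Set ℤ), A c (s + (i + w + h K) ^ 2) C p := by
      filter_upwards [hbig |w|] with K hK
      exact hh' K w (Finset.mem_Icc.2 (abs_le.1 hK))
    exact this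
  obtain ⟨i, -, hi⟩ := (Ultrafilter.eventually_exists_mem_iff (f := p + y)
    (P := fun i w => ∀ᶠ m in (U : Filter ℤ), A c (s + (i + w + m) ^ 2) C p) I.finite_toSet).1
    (Filter.Eventually.of_forall h1)
  refine ⟨(p + y) + U, s, i, C, fun B => ?_, hpH _ _ hC, ?_⟩
  · rw [Ultrafilter.eventually_add]
    refine Filter.Eventually.of_forall fun w => ?_
    have : ∀ᶠ K in ((hyperfilter ℕ : Ultrafilter ℕ) : Filter ℕ), B < w + h K := by
      filter_upwards [hbig (B - w)] with K hK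
      have := hlt K
      linarith
    exact this
  · rw [Ultrafilter.eventually_add]
    filter_upwards [hi] with w hw
    filter_upwards [hw] with m hm
    rw [← add_assoc]
    exact hpH _ _ hm

theorem exists_seq {r : ℕ} (c : ℤ → Fin r) : ∃ (h : ℕ → ℤ) (s i : ℤ) (C : Fin r),
    StrictMono h ∧ (∀ j, 0 < i + h j ∧ 0 < s + h j ∧ c (s + h j) = C) ∧
      ∀ j k, j < k → c (s + (i + h j) ^ 2 + h k) = C := by
  classical
  obtain ⟨H, s, i, C, hpos, h1, h2⟩ := exists_H c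
  let Q : ℤ → Prop := fun m => 0 < i + m ∧ 0 < s + m ∧ c (s + m) = C ∧ A c (s + (i + m) ^ 2) C H
  have hQ : ∀ᶠ m in (H : Filter ℤ), Q m := by
    filter_upwards [hpos (-i), hpos (-s), h1, h2] with m a1 a2 a3 a4
    exact ⟨by linarith, by linarith, a3, a4⟩
  have step : ∀ F : Finset ℤ, ∃ m, Q m ∧ ∀ x ∈ F, Q x → x < m ∧ c (s + (i + x) ^ 2 + m) = C := by
    intro F
    have h3 : ∀ᶠ m in (H : Filter ℤ), ∀ x ∈ F, Q x → x < m ∧ c (s + (i + x) ^ 2 + m) = C := by
      rw [Filter.eventually_all_finset]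
      intro x _
      by_cases hx : Q x
      · filter_upwards [hpos x, hx.2.2.2] with m a1 a2
        exact fun _ => ⟨a1, a2⟩
      · exact Filter.Eventually.of_forall fun m h => absurd h hx
    exact (hQ.and h3).exists
  choose f hf hf' using step
  let st : ℕ → Finset ℤ := fun n => (fun F => insert (f F) F)^[n] ∅
  have stS : ∀ n, st (n + 1) = insert (f (st n)) (st n) :=
    fun n => Function.iterate_succ_apply' _ _ _
  have hmem : ∀ j k, j < k → f (st j) ∈ st k := by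
    intro j k hjk
    induction k, hjk using Nat.le_induction with
    | base => rw [stS]; exact Finset.mem_insert_self _ _
    | succ k _ ih => rw [stS]; exact Finset.mem_insert_of_mem ih
  refine ⟨fun n => f (st n), s, i, C, fun j k hjk => (hf' _ _ (hmem j k hjk) (hf _)).1,
    fun j => ⟨(hf _).1, (hf _).2.1, (hf _).2.2.1⟩,
    fun j k hjk => (hf' _ _ (hmem j k hjk) (hf _)).2⟩

end Pool.Agent.H541Z.Sq
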